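import Pool.Agent.H964.DP.Defs

/-! # Project DP (helper964): statements of the tasks

Aim: sharp asymptotics of the free energy of directed polymers in the plane in a Gaussian environment
with critical spatial correlation `h (x) ~ (log |x|)^a / |x|^2`, `a > -1`
(MP_b30792_pr Q1 for all `a`, MP_1e2dfa_pr Q2 for `a = 0`). -/

set_option autoImplicit false

open MeasureTheory ProbabilityTheory Filter Finset

namespace Pool.Agent.H964.DP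

/-- LCLT. Proof: in the coordinates `u = x.1 + x.2`, `v = x.1 - x.2` the walk is a pair of independent
simple random walks on `ℤ`, so `P (S_n = z) = b_n (u) b_n (v)` with `b_n k = choose n ((n+k)/2) / 2^n`
(or `0`); `b_n k ≤ choose n (n/2) / 2^n ≤ 2 / √(n+1)` (e.g. `(C(2m,m)/4^m)^2 (2m+1) ≤ 1` by induction).
Prove `Pn n f x ≤ ...` by induction on `n` for the kernel. -/
def S_LCLT : Prop := ∀ (n : ℕ) (x z : V), Pn n (fun y => if y = z then (1 : ℝ) else 0) x ≤ 4 / (n + 1)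

/-- GREEN. Split `Pn n |h(·-z)| x = Σ_y p_n(x,y) |h(y-z)|` into `ns (y - z) ≤ n` (use LCLT and
`Σ_{ns y ≤ n} 1/(1+ns y) ≤ C (1 + log (1+n))`, square shells have `8k` points) and `ns (y-z) > n`, where
`|h| ≤ C' (1+log(1+n))^A/(1+n)`. The walk of `n` steps visits finitely many points only. -/
def S_GREEN : Prop := S_LCLT → ∀ (h : V → ℝ) (C : ℝ) (A : ℕ), LB h C A →
  ∃ C' : ℝ, 0 < C' ∧ (∀ (n : ℕ) (x z : V), Pn n (fun y => |h (y - z)|) x ≤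
      C' * (1 + Real.log (1 + n)) ^ (A + 1) / (n + 1)) ∧
    (∀ (r : ℕ) (F : Finset V), (∀ y ∈ F, |y.1| ≤ r ∧ |y.2| ≤ r) →
      ∑ y ∈ F, |h y| ≤ C' * (1 + Real.log (1 + r)) ^ (A + 1))

/-- SMOOTH. (1) `Asym a h` implies a polynomial-logarithmic bound. (2) For `B = [0, m)^2` with `m` large all box
sums of `h` are nonnegative: `h < 0` only on a finite set `F ⊆ [-r₀, r₀]^2`; a translate of the box that meets
`F` contains one of the four squares `± [r₀+1, m/2 - r₀] × ± [r₀+1, m/2 - r₀]`, over which the sum of `h` tends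
to infinity with `m` because `a > -1` (`Σ_k k (log k)^a / k^2 = ∞`). (3) finite averages of translates of `h`
have the same asymptotics (`ns (x+y) / ns x → 1`). -/
def S_SMOOTH : Prop := ∀ (a : ℝ), -1 < a → ∀ h : V → ℝ, Asym a h →
  (∃ (C : ℝ) (A : ℕ), 0 < C ∧ LB h C A) ∧
  ∃ B : Finset V, B.Nonempty ∧ (∀ x, 0 ≤ ht B h x) ∧ 0 < ht B h 0 ∧ Asym a (ht B h) ∧ Asym a (hb B h)

/-- HSUP: supersolutions from the profile. Paper proof in the header of the task. -/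
def S_HSUP : Prop := ∀ (a μ : ℝ) (Ψ Ψ' : ℝ → ℝ), -1 < a → Prof a μ Ψ Ψ' → Sup a μ

/-- HSUB: subsolutions from the profile. -/
def S_HSUB : Prop := ∀ (a μ : ℝ) (Ψ Ψ' : ℝ → ℝ), -1 < a → Prof a μ Ψ Ψ' → Sub a μ

/-- PROF: existence of the profile (power series in `y^(a+2)`). -/
def S_PROF : Prop := ∀ a : ℝ, -1 < a → ∃ (μ : ℝ) (Ψ Ψ' : ℝ → ℝ), Prof a μ Ψ Ψ'

/-- SM: first and second moments of chains in independent slices. By induction on `n` (peel off the slice `0`: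
`infinitePi ν` is the image of `ν 0 ⊗ infinitePi (ν (·+1))` under prepending). -/
def S_SM : Prop := ∀ (S : Type) [MeasurableSpace S] (ν : ℕ → Measure S) [∀ k, IsProbabilityMeasure (ν k)]
  (g : V → S → ℝ) (m : ℕ → V → ℝ) (c : V → V → ℝ),
  (∀ x, Measurable (g x)) → (∀ k x, MemLp (g x) 2 (ν k)) → (∀ k x, ∫ s, g x s ∂(ν k) = m k x) →
  (∀ k x y, ∫ s, g x s * g y s ∂(ν k) = c x y + m k x * m k y) →
  ∀ (d d' : V → ℝ), (∀ x, d x = 0 ∨ d x = 1) → (∀ x, d' x = 0 ∨ d' x = 1) →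
  (∀ (n k : ℕ) (x : V), Measurable (fun w : ℕ → S => Ch d n (fun i y => g y (w i)) k x) ∧
    MemLp (fun w : ℕ → S => Ch d n (fun i y => g y (w i)) k x) 2 (Measure.infinitePi ν) ∧
    ∫ w, Ch d n (fun i y => g y (w i)) k x ∂(Measure.infinitePi ν) = Ch d n m k x) ∧
  ∀ (lam : ℝ) (Φ : ℕ → ℕ → V → V → ℝ), 0 < lam →
    (∀ (j : ℕ) (x y : V), d x = 1 → d' y = 1 → 1 ≤ Φ 0 j x y) →
    (∀ (n j : ℕ) (x y : V), d x = 1 → d' y = 1 →
      avg (fun x' => avg (fun y' => d x' * d' y' * ((1 + lam * |m j x'| + lam * |m j y'| +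
        lam ^ 2 * (|c x' y'| + |m j x'| * |m j y'|)) * Φ n (j + 1) x' y')) y) x ≤ Φ (n + 1) j x y) →
    ∀ (n k l : ℕ) (x y : V), d x = 1 → d' y = 1 →
      lam ^ (k + l) * |∫ w, Ch d n (fun i y => g y (w i)) k x * Ch d' n (fun i y => g y (w i)) l y
        ∂(Measure.infinitePi ν)| ≤ Φ n 0 x y

/-- the statistic of a block -/
noncomputable def XX {S : Type} (g : V → S → ℝ) (D : V → V → ℝ) (T u q : ℕ) (B : Finset V) (w : ℕ → S) : ℝ :=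
  ∑ t ∈ range T, ∑ x ∈ B, g x (w t) * Ch (D x) u (fun i y => g y (w (t + 1 + i))) q x

/-- VAR: variance of the statistic. `X - E X = Σ_t Σ_x (g_x(w_t) - m_t(x)) V_t(x) + Σ_t (Z_t - E Z_t)`,
`V_t(x) = Ch (D x) u (slices after t) q x`, `Z_t = Σ_x m_t(x) V_t(x)`. The terms of the first sum are orthogonal
for different `t` (the slice `t` is independent of the later ones); `Z_t` and `Z_s` are independent if
`|t - s| > u` (`V_t` depends on the slices `t+1, ..., t+u` only), and `Cov (Z_t, Z_s) ≤ (E Z_t^2 + E Z_s^2)/2`. -/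
def S_VAR : Prop := ∀ (S : Type) [MeasurableSpace S] (ν : ℕ → Measure S) [∀ k, IsProbabilityMeasure (ν k)]
  (g : V → S → ℝ) (m : ℕ → V → ℝ) (c : V → V → ℝ),
  (∀ x, Measurable (g x)) → (∀ k x, MemLp (g x) 2 (ν k)) → (∀ k x, ∫ s, g x s ∂(ν k) = m k x) →
  (∀ k x y, ∫ s, g x s * g y s ∂(ν k) = c x y + m k x * m k y) →
  ∀ (D : V → V → ℝ), (∀ x y, D x y = 0 ∨ D x y = 1) → ∀ (T u q : ℕ) (B : Finset V) (Γ : ℕ → V → V → ℝ),
  (∀ t < T, ∀ x ∈ B, ∀ y ∈ B, |∫ w, Ch (D x) u (fun i z => g z (w (t + 1 + i))) q x *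
      Ch (D y) u (fun i z => g z (w (t + 1 + i))) q y ∂(Measure.infinitePi ν)| ≤ Γ t x y) →
  Measurable (XX g D T u q B) ∧ MemLp (XX g D T u q B) 2 (Measure.infinitePi ν) ∧
  ∫ w, XX g D T u q B w ∂(Measure.infinitePi ν) =
    ∑ t ∈ range T, ∑ x ∈ B, m t x * Ch (D x) u (fun i => m (t + 1 + i)) q x ∧
  ∫ w, (XX g D T u q B w - ∑ t ∈ range T, ∑ x ∈ B, m t x * Ch (D x) u (fun i => m (t + 1 + i)) q x) ^ 2
      ∂(Measure.infinitePi ν) ≤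
    2 * ∑ t ∈ range T, ∑ x ∈ B, ∑ y ∈ B, |c x y| * Γ t x y +
    2 * (2 * u + 1) * ∑ t ∈ range T, ∑ x ∈ B, ∑ y ∈ B, |m t x| * |m t y| * Γ t x y

/-- TILT: the tilted slice. `E e^{β s(p) - β²/2} = 1`, and the Gaussian shift
(moment generating function of `a s(x) + b s(y) + β s(p)`, differentiate at `a = b = 0`, or use the joint law). -/
def S_TILT : Prop := ∀ (γ : Measure (V → ℝ)) (h : V → ℝ), GS γ h → ∀ (β : ℝ) (B : Finset V), B.Nonempty →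
  (∀ x y, ∫ s, sm B s x * sm B s y ∂γ = hb B h (x - y)) ∧ (∀ x, MemLp (fun s => sm B s x) 2 γ) ∧
  (∀ x, ∫ s, sm B s x ∂γ = 0) ∧ ∀ p : V,
  IsProbabilityMeasure (tl γ β p) ∧ (∀ x, MemLp (fun s => sm B s x) 2 (tl γ β p)) ∧
  (∀ x, ∫ s, sm B s x ∂(tl γ β p) = β * ht B h (x - p)) ∧
  ∀ x y, ∫ s, sm B s x * sm B s y ∂(tl γ β p) =
    hb B h (x - y) + (β * ht B h (x - p)) * (β * ht B h (y - p))

/-- SIZE: path expansion of the partition function and the size-biased law. The density of `PT γ β z τ` with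
respect to `PP γ` is `∏_{k<n} wt β w k (z + pos τ (k+1))` (compare on boxes, `Measure.eq_infinitePi`). -/
def S_SIZE : Prop := (∀ (n : ℕ) (v : ℕ → V → ℝ) (f : V → ℝ) (x : V),
    K n v f x = (∑ τ : Fin n → Fin 4, (∏ i : Fin n, v i (x + pos τ (i + 1))) * f (x + pos τ n)) / 4 ^ n) ∧
  ∀ (γ : Measure (V → ℝ)) (h : V → ℝ), GS γ h → ∀ (β : ℝ) (n : ℕ) (z : V) (f : V → ℝ)
    (F : (ℕ → V → ℝ) → ℝ), Measurable F → (∃ M : ℝ, ∀ w, |F w| ≤ M) →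
    Integrable (fun w => F w * K n (wt β w) f z) (PP γ) ∧
    ∫ w, F w * K n (wt β w) f z ∂(PP γ) =
      (∑ τ : Fin n → Fin 4, f (z + pos τ n) * ∫ w, F w ∂(PT γ β z τ)) / 4 ^ n

/-- LLN for functions of blocks of increments (Chebyshev; functions of disjoint blocks are independent). -/
def S_LLN : Prop := ∀ (l u T : ℕ), 1 ≤ u → T + u ≤ l + 1 → 1 ≤ T →
  ∀ (ζ : ℕ → (Fin l → Fin 4) → ℝ) (Z zb : ℝ), 0 < zb →
  (∀ t < T, ∀ τ τ' : Fin l → Fin 4, (∀ i : Fin l, t ≤ i.val → i.val < t + u → τ i = τ' i) → ζ t τ = ζ t τ') →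
  (∀ t < T, ∀ τ, 0 ≤ ζ t τ ∧ ζ t τ ≤ Z) →
  (∀ t < T, zb ≤ (∑ τ, ζ t τ) / 4 ^ l) →
  ((univ.filter (fun τ : Fin l → Fin 4 => ∑ t ∈ range T, ζ t τ ≤ T * zb / 2)).card : ℝ) / 4 ^ l ≤
    8 * u * Z ^ 2 / (T * zb ^ 2)

/-- COARSE: fractional moment with change of measure. -/
def S_COARSE : Prop := ∀ (γ : Measure (V → ℝ)) (h : V → ℝ), GS γ h → ∀ (β : ℝ) (l m : ℕ), 1 ≤ l → 1 ≤ m →
  ∀ (A : Set (ℕ → V → ℝ)), MeasurableSet A →
  (∀ w w' : ℕ → V → ℝ, (∀ k < l, w k = w' k) → (w ∈ A ↔ w' ∈ A)) →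
  ∀ (κ : ℝ), 0 < κ → κ ≤ 1 → (PP γ).real A ≤ κ →
  ∀ (α : V → ℝ), (∀ c, 0 ≤ α c) →
  (∀ (c z : V), cel m z = 0 →
    2 * ∫ w, A.indicator (fun _ => κ) w * K l (wt β w) (fun y => if cel m y = c then 1 else 0) z +
      Aᶜ.indicator (fun _ => (1 : ℝ)) w * K l (wt β w) (fun y => if cel m y = c then 1 else 0) z ∂(PP γ) ≤
      α c ^ 2) →
  ∀ ρ : ℝ, (∀ F : Finset V, ∑ c ∈ F, α c ≤ ρ) →
  ∀ k : ℕ, ∫ w, √(W β (k * l) w 0) ∂(PP γ) ≤ ρ ^ k

/-- GLOW: lower bound for the mean of `log W` from a second moment of the partition function restricted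
to a set of paths (convexity and Gaussian concentration). -/
def S_GLOW : Prop := ∀ (M δ : ℝ), 1 ≤ M → 0 < δ → δ ≤ 1 → ∃ C₀ : ℝ,
  ∀ (γ : Measure (V → ℝ)) (h : V → ℝ), GS γ h → ∀ (β : ℝ) (n : ℕ) (R : Finset (Fin n → Fin 4)),
  1 / 2 ≤ (R.card : ℝ) / 4 ^ n →
  (∑ τ ∈ R, ∑ τ' ∈ R, Real.exp ((1 + δ) * β ^ 2 * ∑ k ∈ range n, h (pos τ (k + 1) - pos τ' (k + 1)))) / 16 ^ n ≤ M →
  -C₀ ≤ ∫ w, Real.log (W β n w 0) ∂(PP γ)

/-- LOWP: superadditivity and the limit. -/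
def S_LOWP : Prop := ∀ (γ : Measure (V → ℝ)) (h : V → ℝ), GS γ h → ∀ β p : ℝ,
  (∀ᵐ w ∂(PP γ), Tendsto (fun n : ℕ => Real.log (W β n w 0) / n) atTop (nhds p)) →
  ∀ N : ℕ, ∫ w, Real.log (W β N w 0) ∂(PP γ) ≤ N * p

/-- TRANS: from an arbitrary Gaussian environment to the canonical one; stationarity. -/
def S_TRANS : Prop := (∀ (h : V → ℝ), (∀ x, h (-x) = h x) →
    (∀ (s : Finset V) (a : V → ℝ), 0 ≤ ∑ x ∈ s, ∑ y ∈ s, a x * a y * h (x - y)) → h 0 = 1 →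
    ∀ (Ω : Type) [MeasurableSpace Ω] (P : Measure Ω) [IsProbabilityMeasure P] (ω : ℕ → V → Ω → ℝ),
    (∀ n x, Measurable (ω n x)) →
    (∀ (s : Finset (ℕ × V)) (a : ℕ × V → ℝ), P.map (fun o => ∑ i ∈ s, a i * ω i.1 i.2 o) =
      gaussianReal 0 (Real.toNNReal (∑ i ∈ s, ∑ j ∈ s, a i * a j * (if i.1 = j.1 then h (i.2 - j.2) else 0)))) →
    ∃ γ : Measure (V → ℝ), GS γ h ∧ P.map (fun o (k : ℕ) (y : V) => ω (k + 1) y o) = PP γ) ∧
  (∀ (γ : Measure (V → ℝ)) (h : V → ℝ), GS γ h → ∀ z : V,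
    γ.map (fun s x => s (x + z)) = γ ∧ (PP γ).map (fun w k x => w k (x + z)) = PP γ)

end Pool.Agent.H964.DP
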