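import Pool.Agent.H964.DP.Stm

/-! # Project DP: basic facts on averages, weighted walks and chains -/

set_option autoImplicit false

open MeasureTheory ProbabilityTheory Filter Finset

namespace Pool.Agent.H964.DP

theorem avg_le {f g : V → ℝ} {x : V} (h : ∀ e : Fin 4, f (x + stp e) ≤ g (x + stp e)) :
    avg f x ≤ avg g x := by
  unfold avg
  exact div_le_div_of_nonneg_right (Finset.sum_le_sum fun e _ => h e) (by norm_num)

theorem avg_mono {f g : V → ℝ} (h : ∀ y, f y ≤ g y) (x : V) : avg f x ≤ avg g x := avg_le fun _ => h _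

theorem avg_const (c : ℝ) (x : V) : avg (fun _ => c) x = c := by
  unfold avg
  simp

theorem avg_add (f g : V → ℝ) (x : V) : avg (fun y => f y + g y) x = avg f x + avg g x := by
  unfold avg
  rw [Finset.sum_add_distrib, add_div]

theorem avg_sub (f g : V → ℝ) (x : V) : avg (fun y => f y - g y) x = avg f x - avg g x := by
  unfold avg
  rw [Finset.sum_sub_distrib, sub_div]

theorem avg_mul (c : ℝ) (f : V → ℝ) (x : V) : avg (fun y => c * f y) x = c * avg f x := by
  unfold avg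
  rw [← Finset.mul_sum, mul_div_assoc]

theorem avg_nonneg {f : V → ℝ} {x : V} (h : ∀ e, 0 ≤ f (x + stp e)) : 0 ≤ avg f x := by
  unfold avg
  exact div_nonneg (Finset.sum_nonneg fun e _ => h e) (by norm_num)

theorem avg_sum {ι : Type*} (s : Finset ι) (f : ι → V → ℝ) (x : V) :
    avg (fun y => ∑ i ∈ s, f i y) x = ∑ i ∈ s, avg (f i) x := by
  unfold avg
  rw [Finset.sum_comm, Finset.sum_div]

theorem avg_comm (F : V → V → ℝ) (x y : V) :
    avg (fun x' => avg (fun y' => F x' y') y) x = avg (fun y' => avg (fun x' => F x' y') x) y := by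
  unfold avg
  simp only [Finset.sum_div]
  rw [Finset.sum_comm]

theorem avg_shift (f : V → ℝ) (x z : V) : avg (fun y => f (y + z)) x = avg f (x + z) := by
  unfold avg
  simp only [add_right_comm]

theorem avg_def4 (f : V → ℝ) (x : V) : avg f x =
    (f (x.1 + 1, x.2) + f (x.1 - 1, x.2) + f (x.1, x.2 + 1) + f (x.1, x.2 - 1)) / 4 := by
  unfold avg
  rw [Fin.sum_univ_four]
  have h0 : x + stp 0 = (x.1 + 1, x.2) := by
    ext <;> simp [stp]
  have h1 : x + stp 1 = (x.1 - 1, x.2) := by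
    ext <;> simp [stp, sub_eq_add_neg]
  have h2 : x + stp 2 = (x.1, x.2 + 1) := by
    ext <;> simp [stp]
  have h3 : x + stp 3 = (x.1, x.2 - 1) := by
    ext <;> simp [stp, sub_eq_add_neg]
  rw [h0, h1, h2, h3]

/-- reflection -/
theorem avg_neg (f : V → ℝ) (x : V) : avg (fun y => f (-y)) x = avg f (-x) := by
  rw [avg_def4, avg_def4]
  have h0 : -((x.1 + 1, x.2) : V) = ((-x).1 - 1, (-x).2) := by
    ext
    · simp; ring
    · simp
  have h1 : -((x.1 - 1, x.2) : V) = ((-x).1 + 1, (-x).2) := by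
    ext
    · simp; ring
    · simp
  have h2 : -((x.1, x.2 + 1) : V) = ((-x).1, (-x).2 - 1) := by
    ext
    · simp
    · simp; ring
  have h3 : -((x.1, x.2 - 1) : V) = ((-x).1, (-x).2 + 1) := by
    ext
    · simp
    · simp; ring
  rw [h0, h1, h2, h3]
  ring

theorem avg_refl (f : V → ℝ) (x y : V) : avg (fun y' => f (x - y')) y = avg f (x - y) := by
  have h1 : (fun y' : V => f (x - y')) = fun y' => (fun t => f (t + x)) (-y') := by
    funext y'
    rw [sub_eq_neg_add]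
  rw [h1, avg_neg (fun t => f (t + x)), avg_shift f, sub_eq_neg_add]

/-- the difference of two independent walks -/
theorem avg_two (f : V → ℝ) (x y : V) :
    avg (fun x' => avg (fun y' => f (x' - y')) y) x = avg (avg f) (x - y) := by
  have h1 : (fun x' : V => avg (fun y' => f (x' - y')) y) = fun x' => (avg f) (x' + -y) := by
    funext x'
    rw [avg_refl, sub_eq_add_neg]
  rw [h1, avg_shift (avg f), sub_eq_add_neg]

/-! ### walks -/

theorem Pn_mono {f g : V → ℝ} (h : ∀ y, f y ≤ g y) : ∀ (n : ℕ) (x : V), Pn n f x ≤ Pn n g x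
  | 0, x => h x
  | n + 1, x => avg_mono (Pn_mono h n) x

theorem Pn_const (c : ℝ) : ∀ (n : ℕ) (x : V), Pn n (fun _ => c) x = c
  | 0, x => rfl
  | n + 1, x => by
    have h1 : Pn n (fun _ => c) = fun _ => c := funext (Pn_const c n)
    show avg (Pn n (fun _ => c)) x = c
    rw [h1, avg_const]

theorem Pn_nonneg {f : V → ℝ} (h : ∀ y, 0 ≤ f y) (n : ℕ) (x : V) : 0 ≤ Pn n f x := by
  have := Pn_mono (f := fun _ => 0) h n x
  rwa [Pn_const] at this

theorem Pn_succ' (f : V → ℝ) : ∀ n : ℕ, Pn (n + 1) f = Pn n (avg f)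
  | 0 => rfl
  | n + 1 => by
    show avg (Pn (n + 1) f) = avg (Pn n (avg f))
    rw [Pn_succ' f n]

theorem Pn_add' (f : V → ℝ) (m : ℕ) : ∀ n : ℕ, Pn (n + m) f = Pn n (Pn m f)
  | 0 => by rw [zero_add]; rfl
  | n + 1 => by
    have : n + 1 + m = (n + m) + 1 := by ring
    rw [this]
    show avg (Pn (n + m) f) = avg (Pn n (Pn m f))
    rw [Pn_add' f m n]

theorem Pn_fadd (f g : V → ℝ) : ∀ (n : ℕ) (x : V), Pn n (fun y => f y + g y) x = Pn n f x + Pn n g x
  | 0, x => rfl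
  | n + 1, x => by
    have h1 : Pn n (fun y => f y + g y) = fun y => Pn n f y + Pn n g y := funext (Pn_fadd f g n)
    show avg (Pn n (fun y => f y + g y)) x = _
    rw [h1, avg_add]
    rfl

theorem Pn_fmul (c : ℝ) (f : V → ℝ) : ∀ (n : ℕ) (x : V), Pn n (fun y => c * f y) x = c * Pn n f x
  | 0, x => rfl
  | n + 1, x => by
    have h1 : Pn n (fun y => c * f y) = fun y => c * Pn n f y := funext (Pn_fmul c f n)
    show avg (Pn n (fun y => c * f y)) x = _
    rw [h1, avg_mul]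
    rfl

theorem Pn_shift (f : V → ℝ) (z : V) : ∀ (n : ℕ) (x : V), Pn n (fun y => f (y + z)) x = Pn n f (x + z)
  | 0, x => rfl
  | n + 1, x => by
    have h1 : Pn n (fun y => f (y + z)) = fun y => (Pn n f) (y + z) := funext (Pn_shift f z n)
    show avg (Pn n (fun y => f (y + z))) x = _
    rw [h1, avg_shift]
    rfl

/-! ### weighted walks -/

theorem K_mono {f g : V → ℝ} (h : ∀ y, f y ≤ g y) : ∀ (n : ℕ) (v : ℕ → V → ℝ) (_ : ∀ k y, 0 ≤ v k y) (x : V),
    K n v f x ≤ K n v g x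
  | 0, _, _, x => h x
  | n + 1, v, hv, x => avg_mono (fun y => mul_le_mul_of_nonneg_left (K_mono h n _ (fun k => hv (k + 1)) y) (hv 0 y)) x

theorem K_nonneg {f : V → ℝ} (h : ∀ y, 0 ≤ f y) : ∀ (n : ℕ) (v : ℕ → V → ℝ) (_ : ∀ k y, 0 ≤ v k y) (x : V),
    0 ≤ K n v f x
  | 0, _, _, x => h x
  | n + 1, v, hv, x => avg_nonneg (fun e => mul_nonneg (hv 0 _) (K_nonneg h n _ (fun k => hv (k + 1)) _))

theorem K_add (m : ℕ) (f : V → ℝ) : ∀ (n : ℕ) (v : ℕ → V → ℝ) (x : V),
    K (n + m) v f x = K n v (K m (fun k => v (n + k)) f) x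
  | 0, v, x => by simp only [zero_add]; rfl
  | n + 1, v, x => by
    have h1 : n + 1 + m = (n + m) + 1 := by ring
    rw [h1]
    show avg (fun y => v 0 y * K (n + m) (fun k => v (k + 1)) f y) x =
      avg (fun y => v 0 y * K n (fun k => v (k + 1)) (K m (fun k => v (n + 1 + k)) f) y) x
    have h2 : ∀ y, K (n + m) (fun k => v (k + 1)) f y =
        K n (fun k => v (k + 1)) (K m (fun k => v (n + 1 + k)) f) y := by
      intro y
      rw [K_add m f n]
      have h3 : (fun k => v (n + k + 1)) = fun k => v (n + 1 + k) := by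
        funext k
        rw [add_right_comm]
      rw [h3]
    simp only [h2]

theorem K_congr {f : V → ℝ} : ∀ (n : ℕ) (v v' : ℕ → V → ℝ) (_ : ∀ k < n, v k = v' k) (x : V),
    K n v f x = K n v' f x
  | 0, _, _, _, _ => rfl
  | n + 1, v, v', hv, x => by
    have h2 : ∀ y, K n (fun k => v (k + 1)) f y = K n (fun k => v' (k + 1)) f y := fun y =>
      K_congr n _ _ (fun k hk => hv (k + 1) (by omega)) y
    show avg (fun y => v 0 y * K n (fun k => v (k + 1)) f y) x =
      avg (fun y => v' 0 y * K n (fun k => v' (k + 1)) f y) x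
    rw [hv 0 (by omega)]
    simp only [h2]

/-! ### chains -/

theorem Ch_nonneg {d : V → ℝ} (hd : ∀ y, 0 ≤ d y) : ∀ (n : ℕ) (ξ : ℕ → V → ℝ) (_ : ∀ k y, 0 ≤ ξ k y) (k : ℕ) (x : V),
    0 ≤ Ch d n ξ k x
  | 0, ξ, _, k, x => by
    show 0 ≤ (if k = 0 then (1 : ℝ) else 0)
    split_ifs <;> norm_num
  | n + 1, ξ, hξ, k, x => by
    refine avg_nonneg fun e => mul_nonneg (hd _) (add_nonneg (Ch_nonneg hd n _ (fun i => hξ (i + 1)) k _) ?_)
    refine mul_nonneg (hξ 0 _) ?_
    split_ifs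
    · exact le_rfl
    · exact Ch_nonneg hd n _ (fun i => hξ (i + 1)) (k - 1) _

/-- chains translate -/
theorem Ch_shift (d : V → ℝ) (z : V) : ∀ (n : ℕ) (ξ : ℕ → V → ℝ) (k : ℕ) (x : V),
    Ch (fun y => d (y + z)) n (fun i y => ξ i (y + z)) k x = Ch d n ξ k (x + z)
  | 0, _, _, _ => rfl
  | n + 1, ξ, k, x => by
    have h1 : ∀ k y, Ch (fun y => d (y + z)) n (fun i y => ξ (i + 1) (y + z)) k y =
      Ch d n (fun i => ξ (i + 1)) k (y + z) := fun k y => Ch_shift d z n (fun i => ξ (i + 1)) k y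
    show avg (fun y => d (y + z) * (Ch (fun y => d (y + z)) n (fun i y => ξ (i + 1) (y + z)) k y +
      ξ 0 (y + z) * (if k = 0 then 0 else Ch (fun y => d (y + z)) n (fun i y => ξ (i + 1) (y + z)) (k - 1) y))) x = _
    simp only [h1]
    exact avg_shift (fun y => d y * (Ch d n (fun i => ξ (i + 1)) k y +
      ξ 0 y * (if k = 0 then 0 else Ch d n (fun i => ξ (i + 1)) (k - 1) y))) x z

theorem Ch_congr (d : V → ℝ) : ∀ (n : ℕ) (ξ ξ' : ℕ → V → ℝ) (_ : ∀ i < n, ξ i = ξ' i) (k : ℕ) (x : V),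
    Ch d n ξ k x = Ch d n ξ' k x
  | 0, _, _, _, _, _ => rfl
  | n + 1, ξ, ξ', h, k, x => by
    have h1 : ∀ k y, Ch d n (fun i => ξ (i + 1)) k y = Ch d n (fun i => ξ' (i + 1)) k y := fun k y =>
      Ch_congr d n _ _ (fun i hi => h (i + 1) (by omega)) k y
    show avg (fun y => d y * (Ch d n (fun i => ξ (i + 1)) k y +
      ξ 0 y * (if k = 0 then 0 else Ch d n (fun i => ξ (i + 1)) (k - 1) y))) x =
      avg (fun y => d y * (Ch d n (fun i => ξ' (i + 1)) k y +
      ξ' 0 y * (if k = 0 then 0 else Ch d n (fun i => ξ' (i + 1)) (k - 1) y))) x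
    rw [h 0 (by omega)]
    simp only [h1]

/-! ### paths -/

theorem pos_zero {n : ℕ} (τ : Fin n → Fin 4) : pos τ 0 = 0 := by
  unfold pos
  simp

theorem pos_cons {n : ℕ} (e : Fin 4) (τ : Fin n → Fin 4) (j : ℕ) :
    pos (Fin.cons e τ : Fin (n + 1) → Fin 4) (j + 1) = stp e + pos τ j := by
  unfold pos
  rw [Finset.sum_filter, Finset.sum_filter, Fin.sum_univ_succ]
  simp

/-- average over all paths -/
noncomputable def Ep (n : ℕ) (F : (Fin n → Fin 4) → ℝ) : ℝ := (∑ τ, F τ) / 4 ^ n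

theorem Ep_zero (F : (Fin 0 → Fin 4) → ℝ) (τ : Fin 0 → Fin 4) : Ep 0 F = F τ := by
  unfold Ep
  rw [Fintype.sum_unique, pow_zero, div_one]
  congr 1
  exact Subsingleton.elim _ _

theorem Ep_succ (n : ℕ) (F : (Fin (n + 1) → Fin 4) → ℝ) :
    Ep (n + 1) F = (∑ e : Fin 4, Ep n (fun τ => F (Fin.cons e τ))) / 4 := by
  unfold Ep
  rw [← Finset.sum_div, div_div, pow_succ]
  congr 1
  rw [← (Fin.consEquiv (fun _ => Fin 4)).sum_comp, Fintype.sum_prod_type]
  rfl

theorem Ep_mono {n : ℕ} {F G : (Fin n → Fin 4) → ℝ} (h : ∀ τ, F τ ≤ G τ) : Ep n F ≤ Ep n G := by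
  unfold Ep
  exact div_le_div_of_nonneg_right (Finset.sum_le_sum fun e _ => h e) (by positivity)

theorem Ep_const (n : ℕ) (c : ℝ) : Ep n (fun _ => c) = c := by
  unfold Ep
  simp

theorem Ep_add {n : ℕ} (F G : (Fin n → Fin 4) → ℝ) : Ep n (fun τ => F τ + G τ) = Ep n F + Ep n G := by
  unfold Ep
  rw [Finset.sum_add_distrib, add_div]

theorem Ep_mul {n : ℕ} (c : ℝ) (F : (Fin n → Fin 4) → ℝ) : Ep n (fun τ => c * F τ) = c * Ep n F := by
  unfold Ep
  rw [← Finset.mul_sum, mul_div_assoc]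

theorem Ep_sum {n : ℕ} {ι : Type*} (s : Finset ι) (F : ι → (Fin n → Fin 4) → ℝ) :
    Ep n (fun τ => ∑ i ∈ s, F i τ) = ∑ i ∈ s, Ep n (F i) := by
  unfold Ep
  rw [Finset.sum_comm, Finset.sum_div]

theorem Ep_nonneg {n : ℕ} {F : (Fin n → Fin 4) → ℝ} (h : ∀ τ, 0 ≤ F τ) : 0 ≤ Ep n F := by
  unfold Ep
  exact div_nonneg (Finset.sum_nonneg fun e _ => h e) (by positivity)

theorem card_eq_Ep {n : ℕ} (p : (Fin n → Fin 4) → Prop) [DecidablePred p] :
    ((univ.filter p).card : ℝ) / 4 ^ n = Ep n (fun τ => if p τ then 1 else 0) := by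
  unfold Ep
  rw [Finset.sum_boole]

end Pool.Agent.H964.DP
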