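import Pool.Agent.H964.DP.Trl

/-! # Project DP: the profile and the Bessel function -/

set_option autoImplicit false

open MeasureTheory ProbabilityTheory Filter Finset Topology
open Pool.Agent.H627.DP (ps ps1 ps_cont ps1_cont ps_zero ps1_zero ps_der ps1_der anti exists_first F F1 F1_cont co)

namespace Pool.Agent.H964.DP

/-- the profile through the first zero (the construction of `t_PROF`, with the value of `μ`) -/
theorem prof_first {a y1 : ℝ} (ha : -1 < a) (h1 : 0 < y1) (h2 : ps (a + 2) y1 = 0)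
    (h3 : ∀ z, 0 ≤ z → z < y1 → 0 < ps (a + 2) z) :
    Prof a (y1 ^ (a + 2)) (fun y => ps (a + 2) (y1 * y)) (fun y => y1 * ps1 (a + 2) (y1 * y)) := by
  have hα : 1 < a + 2 := by linarith
  have hanti := anti hα (fun y hy hy2 => h3 y hy.le hy2)
  have hs : ∀ y : ℝ, 0 < y → HasDerivAt (fun y : ℝ => y1 * y) y1 y := fun y _ => by
    simpa using (hasDerivAt_id y).const_mul y1
  refine ⟨Real.rpow_pos_of_pos h1 _, ?_, ?_, ?_, ?_, ?_, ?_, ?_, ?_⟩
  · exact ((ps_cont hα).comp (continuous_const.mul continuous_id)).continuousOn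
  · show ps (a + 2) (y1 * 0) = 1
    rw [mul_zero, ps_zero hα]
  · show ps (a + 2) (y1 * 1) = 0
    rw [mul_one, h2]
  · intro y hy hy1
    exact h3 _ (by positivity) (by nlinarith)
  · intro y hy _
    have h4 := (ps_der hα (mul_pos h1 hy)).comp y (hs y hy)
    rw [mul_comm] at h4
    exact h4
  · intro y hy _
    have h4 := ((ps1_der hα (mul_pos h1 hy)).comp y (hs y hy)).const_mul y1
    have e : y1 * (-((y1 * y) ^ (a + 2 - 2) * ps (a + 2) (y1 * y)) * y1) =
        -(y1 ^ (a + 2) * y ^ a * ps (a + 2) (y1 * y)) := by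
      rw [add_sub_cancel_right, Real.mul_rpow h1.le hy.le, Real.rpow_add h1, Real.rpow_two]
      ring
    rw [e] at h4
    exact h4
  · intro y hy hy1
    have h5 : ps1 (a + 2) (y1 * y) ≤ 0 := by
      have := hanti.antitoneOn (Set.left_mem_Icc.2 h1.le)
        (show y1 * y ∈ Set.Icc 0 y1 from ⟨by positivity, by nlinarith⟩) (by positivity)
      rwa [ps1_zero hα] at this
    exact mul_nonpos_of_nonneg_of_nonpos h1.le h5
  · have hc : ContinuousOn (fun t : ℝ => (a + 2) * F1 (a + 2) t) (Set.Icc 0 ((y1 * 2) ^ (a + 2))) :=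
      (continuous_const.mul (F1_cont hα)).continuousOn
    obtain ⟨M, hM⟩ := isCompact_Icc.exists_bound_of_continuousOn hc
    refine ⟨y1 ^ (a + 2) * M, fun y hy hy2 => ?_⟩
    have hyy : 0 < y1 * y := mul_pos h1 hy
    have h6 := hM ((y1 * y) ^ (a + 2)) ⟨by positivity,
      Real.rpow_le_rpow hyy.le (by nlinarith) (by linarith)⟩
    rw [Real.norm_eq_abs] at h6
    have e1 : a + 2 - 1 = a + 1 := by ring
    have e2 : y1 ^ (a + 2) = y1 * y1 ^ (a + 1) := by
      rw [show a + 2 = 1 + (a + 1) by ring, Real.rpow_add h1, Real.rpow_one]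
    show |y1 * ps1 (a + 2) (y1 * y)| ≤ _
    rw [ps1, e1, abs_mul, abs_mul, abs_of_pos h1, abs_of_pos (Real.rpow_pos_of_pos hyy _),
      Real.mul_rpow h1.le hy.le, e2]
    have h7 : 0 < y ^ (a + 1) := Real.rpow_pos_of_pos hy _
    have h8 : 0 < y1 ^ (a + 1) := Real.rpow_pos_of_pos h1 _
    calc y1 * (y1 ^ (a + 1) * y ^ (a + 1) * |(a + 2) * F1 (a + 2) ((y1 * y) ^ (a + 2))|) ≤
        y1 * (y1 ^ (a + 1) * y ^ (a + 1) * M) := by gcongr
      _ = _ := by ring

/-- the Bessel function of the first kind, `J_ν (x) = ∑_k (-1)^k / (k! Γ (k + ν + 1)) (x / 2)^(2 k + ν)` -/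
noncomputable def besselJ (ν x : ℝ) : ℝ :=
  ∑' k : ℕ, (-1) ^ k / (k.factorial * Real.Gamma (k + ν + 1)) * (x / 2) ^ (2 * (k : ℝ) + ν)

/-- `J̃_ν (x) = Γ (ν + 1) (x / 2)^(-ν) J_ν (x)` -/
noncomputable def besselT (ν x : ℝ) : ℝ := Real.Gamma (ν + 1) * (x / 2) ^ (-ν) * besselJ ν x

theorem co_gamma {A : ℝ} (hA : 1 < A) : ∀ k : ℕ, co A k =
    Real.Gamma (-1 / A + 1) * ((-1) ^ k / (k.factorial * Real.Gamma (k + -1 / A + 1))) / (A ^ 2) ^ k
  | 0 => by
    have hν : 0 < -1 / A + 1 := by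
      have : 1 / A < 1 := (div_lt_one (by linarith)).2 hA
      have e : -1 / A = -(1 / A) := by ring
      rw [e]
      linarith
    have hG := Real.Gamma_pos_of_pos hν
    show (1 : ℝ) = _
    simp only [Nat.cast_zero, zero_add, pow_zero, Nat.factorial_zero, Nat.cast_one, one_mul, div_one]
    exact (mul_one_div_cancel hG.ne').symm
  | k + 1 => by
    have hν : 0 < -1 / A + 1 := by
      have : 1 / A < 1 := (div_lt_one (by linarith)).2 hA
      have e : -1 / A = -(1 / A) := by ring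
      rw [e]
      linarith
    have hk : (0 : ℝ) ≤ k := Nat.cast_nonneg k
    have hνk : 0 < (k : ℝ) + -1 / A + 1 := by linarith
    have hG := Real.Gamma_pos_of_pos hνk
    have e1 : Real.Gamma (((k + 1 : ℕ) : ℝ) + -1 / A + 1) = ((k : ℝ) + -1 / A + 1) * Real.Gamma ((k : ℝ) + -1 / A + 1) := by
      rw [← Real.Gamma_add_one hνk.ne']
      congr 1
      push_cast
      ring
    have e2 : co A (k + 1) = -co A k / (((k : ℝ) + 1) * A * (((k : ℝ) + 1) * A - 1)) := rfl
    rw [e2, co_gamma hA k, e1, Nat.factorial_succ]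
    have e3 : ((k : ℝ) + 1) * A * (((k : ℝ) + 1) * A - 1) = A ^ 2 * (((k : ℝ) + 1) * ((k : ℝ) + -1 / A + 1)) := by
      field_simp
      ring
    rw [e3]
    have hA0 : 0 < A := by linarith
    have hf : (0 : ℝ) < k.factorial := by exact_mod_cast k.factorial_pos
    push_cast
    rw [pow_succ (-1 : ℝ) k, pow_succ (A ^ 2) k]
    generalize Real.Gamma ((k : ℝ) + -1 / A + 1) = G at *
    generalize Real.Gamma (-1 / A + 1) = G' at *
    generalize ((k : ℝ) + -1 / A + 1) = D at *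
    field_simp

theorem besselT_eq {A : ℝ} (hA : 1 < A) {x : ℝ} (hx : 0 < x) : besselT (-1 / A) x = ps A ((A * x / 2) ^ (2 / A)) := by
  have hA0 : 0 < A := by linarith
  unfold besselT besselJ ps F Pool.Agent.H627.DP.sm
  have hx2 : 0 < x / 2 := by positivity
  have e1 : ((A * x / 2) ^ (2 / A)) ^ A = A ^ 2 * (x / 2) ^ 2 := by
    rw [← Real.rpow_mul (by positivity), div_mul_cancel₀ _ hA0.ne', Real.rpow_two]
    ring
  rw [e1, ← tsum_mul_left]
  congr 1
  funext k
  rw [co_gamma hA k]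
  have e2 : (x / 2) ^ (2 * (k : ℝ) + -1 / A) = ((x / 2) ^ 2) ^ k * (x / 2) ^ (-1 / A) := by
    rw [Real.rpow_add hx2, ← Real.rpow_natCast ((x / 2) ^ 2) k, ← Real.rpow_two, ← Real.rpow_mul hx2.le]
  have e3 : (x / 2) ^ (-(-1 / A)) * (x / 2) ^ (-1 / A) = 1 := by
    rw [← Real.rpow_add hx2, neg_add_cancel, Real.rpow_zero]
  rw [e2, mul_pow]
  have hAk : 0 < (A ^ 2) ^ k := by positivity
  calc Real.Gamma (-1 / A + 1) * (x / 2) ^ (-(-1 / A)) * ((-1) ^ k / (k.factorial * Real.Gamma (k + -1 / A + 1)) *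
        (((x / 2) ^ 2) ^ k * (x / 2) ^ (-1 / A))) =
      Real.Gamma (-1 / A + 1) * ((-1) ^ k / (k.factorial * Real.Gamma (k + -1 / A + 1))) * ((x / 2) ^ 2) ^ k *
        ((x / 2) ^ (-(-1 / A)) * (x / 2) ^ (-1 / A)) := by ring
    _ = Real.Gamma (-1 / A + 1) * ((-1) ^ k / (k.factorial * Real.Gamma (k + -1 / A + 1))) * ((x / 2) ^ 2) ^ k := by
      rw [e3, mul_one]
    _ = _ := by
      field_simp

/-- the first zero of `J̃` and the critical value `μ` -/
theorem bessel_first {a : ℝ} (ha : -1 < a) : ∃ z μ : ℝ, 0 < z ∧ 0 < μ ∧ besselT (-1 / (a + 2)) z = 0 ∧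
    (∀ x, 0 < x → x < z → 0 < besselT (-1 / (a + 2)) x) ∧ Sup a μ ∧ Sub a μ ∧
    2 * (μ / 2) ^ (1 / (a + 2)) = (2 ^ ((a - 1) / 2) * (a + 2) * z) ^ (2 / (a + 2)) := by
  have hα : 1 < a + 2 := by linarith
  have hα0 : 0 < a + 2 := by linarith
  obtain ⟨y1, h1, h2, h3⟩ := exists_first hα
  have hP := prof_first ha h1 h2 h3
  have hSup := Pool.Agent.H294.DP.t_HSUP a _ _ _ ha hP
  have hSub := Pool.Agent.H294.DP.t_HSUB a _ _ _ ha hP
  set z := 2 / (a + 2) * y1 ^ ((a + 2) / 2) with hz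
  have hz0 : 0 < z := by positivity
  have hzy : ((a + 2) * z / 2) ^ (2 / (a + 2)) = y1 := by
    have : (a + 2) * z / 2 = y1 ^ ((a + 2) / 2) := by
      rw [hz]
      field_simp
    rw [this, ← Real.rpow_mul h1.le]
    have e : (a + 2) / 2 * (2 / (a + 2)) = 1 := by field_simp
    rw [e, Real.rpow_one]
  refine ⟨z, y1 ^ (a + 2), hz0, by positivity, ?_, ?_, hSup, hSub, ?_⟩
  · rw [besselT_eq hα hz0, hzy, h2]
  · intro x hx hxz
    rw [besselT_eq hα hx]
    refine h3 _ (by positivity) ?_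
    rw [← hzy]
    exact Real.rpow_lt_rpow (by positivity) (by
      have := mul_lt_mul_of_pos_left hxz hα0
      linarith) (by positivity)
  · have e1 : (2 : ℝ) ^ ((a - 1) / 2) * (a + 2) * z = 2 ^ ((a + 1) / 2) * y1 ^ ((a + 2) / 2) := by
      rw [hz]
      have : (2 : ℝ) ^ ((a + 1) / 2) = 2 ^ ((a - 1) / 2) * 2 := by
        rw [show (a + 1) / 2 = (a - 1) / 2 + 1 by ring, Real.rpow_add (by norm_num), Real.rpow_one]
      rw [this]
      field_simp
    rw [e1, Real.mul_rpow (by positivity) (by positivity), ← Real.rpow_mul (by norm_num), ← Real.rpow_mul h1.le,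
      Real.div_rpow (by positivity) (by norm_num), ← Real.rpow_mul h1.le]
    have e2 : (a + 2) * (1 / (a + 2)) = 1 := by field_simp
    have e3 : (a + 2) / 2 * (2 / (a + 2)) = 1 := by field_simp
    have e4 : (a + 1) / 2 * (2 / (a + 2)) = 1 - 1 / (a + 2) := by
      field_simp
      ring
    rw [e2, e3, e4, Real.rpow_sub (by norm_num), Real.rpow_one]
    ring

end Pool.Agent.H964.DP
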