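import Pool.Agent.H964.DP.Crd

/-! # Project DP: the estimate in one block -/

set_option autoImplicit false

open MeasureTheory ProbabilityTheory Filter Finset

namespace Pool.Agent.H964.DP

/-- indicator of the square of radius `M` about `x` -/
noncomputable def bx (M : ℕ) (x y : V) : ℝ := if |y.1 - x.1| ≤ M ∧ |y.2 - x.2| ≤ M then 1 else 0

theorem bx_zo (M : ℕ) (x y : V) : bx M x y = 0 ∨ bx M x y = 1 := by
  unfold bx
  split_ifs
  · exact Or.inr rfl
  · exact Or.inl rfl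

theorem bx_self (M : ℕ) (x : V) : bx M x x = 1 := by
  unfold bx
  rw [if_pos]
  simp

theorem bx_one {M : ℕ} {x y : V} (h : bx M x y = 1) : |y.1 - x.1| ≤ M ∧ |y.2 - x.2| ≤ M := by
  unfold bx at h
  by_contra h1
  rw [if_neg h1] at h
  norm_num at h

theorem bx_trans (M : ℕ) (x : V) : bx M x = fun y => bx M 0 (y + -x) := by
  funext y
  unfold bx
  simp [sub_eq_add_neg]

/-- the square of radius `R` -/
noncomputable def sq (R : ℕ) : Finset V := (Finset.Icc (-(R : ℤ)) R) ×ˢ (Finset.Icc (-(R : ℤ)) R)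

theorem mem_sq {R : ℕ} {x : V} : x ∈ sq R ↔ |x.1| ≤ R ∧ |x.2| ≤ R := by
  unfold sq
  rw [Finset.mem_product, Finset.mem_Icc, Finset.mem_Icc, abs_le, abs_le]

theorem card_sq (R : ℕ) : (sq R).card = (2 * R + 1) ^ 2 := by
  unfold sq
  rw [Finset.card_product, Int.card_Icc]
  have : ((R : ℤ) + 1 - -(R : ℤ)).toNat = 2 * R + 1 := by omega
  rw [this, pow_two]

/-- parameters of a block -/
structure Par (f f2 : V → ℝ) (β : ℝ) (q u M T m Rb : ℕ) (lam lam2 c₀ η η₂ S g₀ : ℝ) : Prop where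
  hβ : 0 < β
  hT : 1 ≤ T
  hS : 1 ≤ S
  f_nonneg : ∀ z, 0 ≤ f z
  f_zero : 0 < f 0
  f_le : ∀ z, f z ≤ S
  f2_le : ∀ z, |f2 z| ≤ S
  am : ∀ σ : ℕ → V, ∀ n ≤ u, ∀ j x, Am (fun k y => f (y - σ k)) n j x ≤ S
  cm : ∀ n ≤ u, ∀ x, Cm f2 n x ≤ S
  sum1 : ∀ s ∈ sq Rb, ∑ x ∈ sq Rb, f (x - s) ≤ S
  sum2 : ∀ s ∈ sq Rb, ∑ x ∈ sq Rb, |f2 (x - s)| ≤ S
  sum2' : ∀ s ∈ sq Rb, ∑ x ∈ sq Rb, |f2 (s - x)| ≤ S
  lam2_pos : 0 < lam2
  lam2_a : lam2 * (β * S) ≤ 1 / 16
  lam2_b : lam2 ^ 2 * S ≤ 1 / 8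
  lam_pos : 0 < lam
  eta : 0 ≤ η
  eta2 : 0 ≤ η₂
  lam_a : lam * η * u ≤ 1 / 4
  lam_b : (2 * (lam * η) + lam ^ 2 * (η₂ + η * η)) * u ≤ 1 / 2
  far : ∀ z : V, ((M : ℤ) < |z.1| ∨ (M : ℤ) < |z.2|) → β * f z ≤ η ∧ |f2 z| ≤ η₂
  c_pos : 0 < c₀
  c_le : c₀ ≤ 1
  sup : ∃ φ : V → ℝ, (∀ z, 0 ≤ φ z ∧ φ z ≤ 1) ∧ ∀ z : V, |z.1| ≤ 6 * M → |z.2| ≤ 6 * M → c₀ ≤ φ z ∧
    avg (avg (fun y => Real.exp (lam ^ 2 * |f2 y|) * φ y)) z ≤ φ z
  g_pos : 0 < g₀
  g_le : g₀ ≤ G2 (bx M 0) f u q 0 0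

/-- the statistic -/
noncomputable def Xs (B₀ : Finset V) (T u q M Rb : ℕ) (w : ℕ → V → ℝ) : ℝ :=
  XX (fun x s => sm B₀ s x) (bx M) T u q (sq Rb) w

theorem shift_one {S : Type} [MeasurableSpace S] (ν : ℕ → Measure S) [∀ k, IsProbabilityMeasure (ν k)] :
    (Measure.infinitePi ν).map (fun w i => w (i + 1)) = Measure.infinitePi (fun i => ν (i + 1)) := by
  refine Measure.eq_infinitePi (μ := fun i => ν (i + 1)) ?_
  intro s t ht
  have hm : Measurable (fun (w : ℕ → S) (i : ℕ) => w (i + 1)) :=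
    measurable_pi_lambda _ fun i => measurable_pi_apply _
  rw [Measure.map_apply hm (MeasurableSet.pi s.countable_toSet fun i hi => ht i)]
  have h1 : (fun (w : ℕ → S) (i : ℕ) => w (i + 1)) ⁻¹' (Set.pi s t) =
      Set.pi (s.map ⟨fun i => i + 1, add_left_injective 1⟩ : Finset ℕ) (fun j => t (j - 1)) := by
    ext w
    simp only [Set.mem_preimage, Set.mem_pi, Finset.mem_coe, Finset.mem_map, Function.Embedding.coeFn_mk,
      forall_exists_index, and_imp, forall_apply_eq_imp_iff₂]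
    constructor
    · intro h a ha
      simpa using h a ha
    · intro h a ha
      simpa using h a ha
  rw [h1, Measure.infinitePi_pi _ (fun j hj => ht _), Finset.prod_map]
  simp

theorem shift_n {S : Type} [MeasurableSpace S] : ∀ (n : ℕ) (ν : ℕ → Measure S) [∀ k, IsProbabilityMeasure (ν k)],
    (Measure.infinitePi ν).map (fun w i => w (n + i)) = Measure.infinitePi (fun i => ν (n + i))
  | 0, ν, _ => by
    simp only [zero_add]
    exact Measure.map_id
  | n + 1, ν, _ => by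
    have hm : Measurable (fun (w : ℕ → S) (i : ℕ) => w (i + 1)) :=
      measurable_pi_lambda _ fun i => measurable_pi_apply _
    have hm' : Measurable (fun (w : ℕ → S) (i : ℕ) => w (n + i)) :=
      measurable_pi_lambda _ fun i => measurable_pi_apply _
    have h1 := shift_one ν
    have h2 := shift_n n (fun i => ν (i + 1))
    rw [← h1, Measure.map_map hm' hm] at h2
    have h3 : ((fun (w : ℕ → S) (i : ℕ) => w (n + i)) ∘ fun w i => w (i + 1)) =
        fun (w : ℕ → S) (i : ℕ) => w (n + 1 + i) := by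
      funext w i
      show w (n + i + 1) = w (n + 1 + i)
      congr 1
      ring
    rw [h3] at h2
    rw [h2]
    congr 1
    funext i
    congr 1
    ring


theorem Am_le {m F : ℕ → V → ℝ} {β : ℝ} (hβ : 0 ≤ β) (h : ∀ k y, |m k y| ≤ β * |F k y|) : ∀ (n j : ℕ) (x : V),
    Am m n j x ≤ β * Am F n j x
  | 0, _, _ => by simp [Am]
  | n + 1, j, x => by
    show avg (fun y => |m j y| + Am m n (j + 1) y) x ≤ β * avg (fun y => |F j y| + Am F n (j + 1) y) x
    rw [← avg_mul]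
    refine avg_mono (fun y => ?_) x
    rw [mul_add]
    exact add_le_add (h j y) (Am_le hβ h n (j + 1) y)

section gam

variable {S₀ : Type} [MeasurableSpace S₀] {ν : ℕ → Measure S₀} {g : V → S₀ → ℝ} {m₀ : ℕ → V → ℝ} {f f2 : V → ℝ}
  {β : ℝ} {q u M T m Rb : ℕ} {lam lam2 c₀ η η₂ S g₀ : ℝ}

/-- the bounds for the second moments -/
noncomputable def Γ₁ (lam c₀ : ℝ) (q : ℕ) : ℝ := 2 / c₀ * (lam ^ (q + q))⁻¹

noncomputable def Γ₂ (lam2 : ℝ) (q : ℕ) : ℝ := 2 * (lam2 ^ (q + q))⁻¹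

theorem gam (hSM : S_SM) (hp : Par f f2 β q u M T m Rb lam lam2 c₀ η η₂ S g₀) (hs : Sl ν g m₀ f2)
    (n0 : ℕ) (σ : ℕ → V) (hm : ∀ k x, m₀ k x = if k < n0 then β * f (x - σ k) else 0) (t : ℕ) (Nr : V → Prop)
    (hN : ∀ x, ¬ Nr x → ∀ i < u, ∀ y, bx M x y = 1 → |m₀ (t + 1 + i) y| ≤ η) [DecidablePred Nr] (x y : V) :
    |∫ w, Ch (bx M x) u (fun i z => g z (w (t + 1 + i))) q x *
      Ch (bx M y) u (fun i z => g z (w (t + 1 + i))) q y ∂(Measure.infinitePi ν)| ≤
      if Nr x ∨ Nr y then Γ₂ lam2 q else Γ₁ lam c₀ q := by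
  have hpr := hs.prob
  have hβ := hp.hβ
  have hmb : ∀ k x, |m₀ k x| ≤ β * S := by
    intro k x
    rw [hm]
    split_ifs
    · rw [abs_mul, abs_of_pos hβ, abs_of_nonneg (hp.f_nonneg _)]
      exact mul_le_mul_of_nonneg_left (hp.f_le _) hβ.le
    · rw [abs_zero]
      have := hp.hS
      positivity
  -- shift
  have hs' : Sl (fun i => ν (t + 1 + i)) g (fun i => m₀ (t + 1 + i)) f2 :=
    { prob := fun k => hs.prob _
      meas := hs.meas
      lp := fun k x => hs.lp _ x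
      mean := fun k x => hs.mean _ x
      cov := fun k x y => hs.cov _ x y }
  have hpr' := hs'.prob
  have hmeas : ∀ x : V, Measurable (fun w : ℕ → S₀ => Ch (bx M x) u (fun i y => g y (w i)) q x) := fun x =>
    ((hSM S₀ (fun i => ν (t + 1 + i)) g (fun i => m₀ (t + 1 + i)) (fun x y => f2 (x - y)) hs'.meas hs'.lp hs'.mean
      hs'.cov (bx M x) (bx M x) (bx_zo M x) (bx_zo M x)).1 u q x).1
  have hm1 : Measurable (fun (w : ℕ → S₀) (i : ℕ) => w (t + 1 + i)) :=
    measurable_pi_lambda _ fun i => measurable_pi_apply _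
  have e1 : ∫ w, Ch (bx M x) u (fun i z => g z (w (t + 1 + i))) q x *
      Ch (bx M y) u (fun i z => g z (w (t + 1 + i))) q y ∂(Measure.infinitePi ν) =
      ∫ w, Ch (bx M x) u (fun i z => g z (w i)) q x * Ch (bx M y) u (fun i z => g z (w i)) q y
        ∂(Measure.infinitePi (fun i => ν (t + 1 + i))) := by
    rw [← shift_n (t + 1) ν, integral_map hm1.aemeasurable]
    exact ((hmeas x).mul (hmeas y)).aestronglyMeasurable
  rw [e1]
  have hl2 := hp.lam2_pos
  have hl := hp.lam_pos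
  have hcr : |∫ w, Ch (bx M x) u (fun i z => g z (w i)) q x * Ch (bx M y) u (fun i z => g z (w i)) q y
        ∂(Measure.infinitePi (fun i => ν (t + 1 + i)))| ≤ Γ₂ lam2 q := by
    have h1 := crude hSM hs' (fun k x => hmb _ x) hp.f2_le (bx_zo M x) (bx_zo M y) hl2
      (hp.lam2_a.trans (by norm_num)) u (SA := β * S) (SC := S) ?_ hp.cm ?_ q q x y (bx_self M x) (bx_self M y)
    · unfold Γ₂
      rw [← div_eq_mul_inv, le_div_iff₀ (by positivity), mul_comm]
      exact h1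
    · intro n hn j x
      have h2 : ∀ k y, |m₀ (t + 1 + k) y| ≤ β * |f (y - σ (t + 1 + k))| := by
        intro k y
        rw [hm]
        split_ifs
        · rw [abs_mul, abs_of_pos hβ]
        · rw [abs_zero]; positivity
      refine (Am_le (F := fun k y => f (y - σ (t + 1 + k))) hβ.le h2 n j x).trans ?_
      exact mul_le_mul_of_nonneg_left (hp.am (fun k => σ (t + 1 + k)) n hn j x) hβ.le
    · have h1 := hp.lam2_a
      have h2 := hp.lam2_b
      linarith
  split_ifs with hnear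
  · exact hcr
  · rw [not_or] at hnear
    have hx := hN x hnear.1
    have hy := hN y hnear.2
    have hmη : ∀ j < u, ∀ x', (bx M x x' = 1 ∨ bx M y x' = 1) → |m₀ (t + 1 + j) x'| ≤ η := by
      intro j hj x' h
      rcases h with h | h
      · exact hx j hj x' h
      · exact hy j hj x' h
    by_cases hclose : |x.1 - y.1| ≤ 4 * M ∧ |x.2 - y.2| ≤ 4 * M
    · obtain ⟨φ, hφ, hφ2⟩ := hp.sup
      have hreg : ∀ x' y', bx M x x' = 1 → bx M y y' = 1 → |(x' - y').1| ≤ 6 * M ∧ |(x' - y').2| ≤ 6 * M := by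
        intro x' y' h1 h2
        obtain ⟨a1, a2⟩ := bx_one h1
        obtain ⟨b1, b2⟩ := bx_one h2
        obtain ⟨c1, c2⟩ := hclose
        simp only [Prod.fst_sub, Prod.snd_sub]
        simp only [abs_le] at a1 a2 b1 b2 c1 c2 ⊢
        omega
      have h1 := far1 hSM hs' (fun k x => hmb _ x) hp.f2_le (bx_zo M x) (bx_zo M y) hl u hp.eta hp.lam_a hp.c_pos φ hφ
        (fun x' y' h1 h2 => (hφ2 _ (hreg x' y' h1 h2).1 (hreg x' y' h1 h2).2).1)
        (fun x' y' h1 h2 => (hφ2 _ (hreg x' y' h1 h2).1 (hreg x' y' h1 h2).2).2) hmη q q x y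
        (bx_self M x) (bx_self M y)
      unfold Γ₁
      rw [← div_eq_mul_inv, le_div_iff₀ (by positivity), mul_comm]
      exact h1
    · have hreg : ∀ x' y', bx M x x' = 1 → bx M y y' = 1 → |f2 (x' - y')| ≤ η₂ := by
        intro x' y' h1 h2
        refine (hp.far _ ?_).2
        obtain ⟨a1, a2⟩ := bx_one h1
        obtain ⟨b1, b2⟩ := bx_one h2
        simp only [Prod.fst_sub, Prod.snd_sub]
        rw [not_and_or, not_le, not_le] at hclose
        simp only [abs_le, lt_abs] at a1 a2 b1 b2 hclose ⊢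
        omega
      have h1 := far2 hSM hs' (fun k x => hmb _ x) hp.f2_le (bx_zo M x) (bx_zo M y) hl u hp.eta hp.eta2 hp.lam_b
        hreg hmη q q x y (bx_self M x) (bx_self M y)
      have h2 : (2 : ℝ) ≤ 2 / c₀ := by
        rw [le_div_iff₀ hp.c_pos]
        have := hp.c_le
        linarith
      unfold Γ₁
      rw [← div_eq_mul_inv, le_div_iff₀ (by positivity), mul_comm]
      exact h1.trans h2

end gam

end Pool.Agent.H964.DP
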