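import Pool.Agent.H964.DP.Blk9

/-! # Project DP: one block, for given parameters -/

set_option autoImplicit false

open MeasureTheory ProbabilityTheory Filter Finset

namespace Pool.Agent.H964.DP

section
variable {δ L P S : ℝ} {q : ℕ} {β c₀ lam κ : ℝ} {f f2 : V → ℝ} {γ : Measure (V → ℝ)} {h : V → ℝ} {B₀ : Finset V}

theorem block_reg (hSM : S_SM) (hV : S_SM → S_VAR) (hT : S_TILT) (hSZ : S_SIZE) (hLLN : S_LLN) (hγ : GS γ h)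
    (hB : B₀.Nonempty) (hf : f = ht B₀ h) (hf2 : f2 = hb B₀ h) (hR : Reg δ L P S q)
    (hp : Phy β (f 0) c₀ lam κ L P S q) {η : ℝ}
    (hPar : Par f f2 β q (uN δ L q) (mN δ L) (tN δ L) (sN δ L q) (rN δ L q) lam ((16 * S)⁻¹) c₀ η η S
      ((κ ^ q)⁻¹ / 8)) :
    ∃ (l m : ℕ) (A : Set (ℕ → V → ℝ)), 1 ≤ l ∧ 1 ≤ m ∧
    (l : ℝ) ≤ (m : ℝ) ^ 2 ∧ (l : ℝ) ≤ Real.exp ((2 + 12 * δ) * L) ∧ MeasurableSet A ∧
    (∀ w w' : ℕ → V → ℝ, (∀ k < l, w k = w' k) → (w ∈ A ↔ w' ∈ A)) ∧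
    (PP γ).real A ≤ (L ^ 6)⁻¹ ∧
    ∀ z : V, cel m z = 0 → ∫ w, Aᶜ.indicator (fun _ => (1 : ℝ)) w * W β l w z ∂(PP γ) ≤ (L ^ 6)⁻¹ := by
  set T := tN δ L with hTdef
  set u := uN δ L q with hu
  set m := sN δ L q with hm
  set Rb := rN δ L q with hRb
  set M := mN δ L with hM
  have hmR : m ≤ Rb := hR.sr
  have hmR' : (m : ℝ) ≤ Rb := by exact_mod_cast hmR
  have hT1 := hR.t1
  have hu1 := hR.u1
  obtain ⟨b1, b2, b3⟩ := blk hSM hV hT hSZ hLLN hγ hB hf hf2 hPar hR.s1 hmR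
    (θ₁ := ((Rb : ℝ) - m) / T) (θ₂ := (M : ℝ) / u) (div_nonneg (by linarith) (by positivity)) (by positivity)
  have e1 : vv f β q T ((κ ^ q)⁻¹ / 8) = T * (β * f 0 * (β ^ q * ((κ ^ q)⁻¹ / 8))) / 4 := rfl
  rw [e1] at b1 b2 b3
  have t4a := term4a hR hp
  have h6 := hR.inv6
  refine ⟨T + u, m, {w | T * (β * f 0 * (β ^ q * ((κ ^ q)⁻¹ / 8))) / 4 ≤ Xs B₀ T u q M Rb w}, ?_, hR.s1, ?_, ?_, b1, ?_, ?_, ?_⟩
  · have : 1 ≤ T := by exact_mod_cast hT1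
    omega
  · push_cast
    exact hR.sbd.1
  · push_cast
    exact hR.lbd
  · intro w w' hw
    show T * (β * f 0 * (β ^ q * ((κ ^ q)⁻¹ / 8))) / 4 ≤ Xs B₀ T u q M Rb w ↔
      T * (β * f 0 * (β ^ q * ((κ ^ q)⁻¹ / 8))) / 4 ≤ Xs B₀ T u q M Rb w'
    rw [Xs_local B₀ T u q M Rb hw]
  · refine b2.trans (t4a.trans ?_)
    linarith
  · intro z hz
    refine (b3 z hz).trans ?_
    have t1 := hR.term1
    have t2 := hR.term2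
    have t3 := term3 hR hp
    have t4b := term4b hR hp
    have t4c := term4c hR hp
    have e2 : Vb β u T M Rb q lam ((16 * S)⁻¹) c₀ S / (T * (β * f 0 * (β ^ q * ((κ ^ q)⁻¹ / 8))) / 4) ^ 2 =
        2 * ((T : ℝ) * ((sq Rb).card * S * Γ₁ lam c₀ q)) / (T * (β * f 0 * (β ^ q * ((κ ^ q)⁻¹ / 8))) / 4) ^ 2 +
        2 * ((T : ℝ) * (2 * ((sq (3 * M)).card * S * Γ₂ ((16 * S)⁻¹) q))) /
          (T * (β * f 0 * (β ^ q * ((κ ^ q)⁻¹ / 8))) / 4) ^ 2 +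
        2 * (2 * (u : ℝ) + 1) * ((T : ℝ) * ((β * S) ^ 2 * (Γ₁ lam c₀ q + Γ₂ ((16 * S)⁻¹) q))) /
          (T * (β * f 0 * (β ^ q * ((κ ^ q)⁻¹ / 8))) / 4) ^ 2 := by
      unfold Vb
      rw [← add_div, ← add_div]
      congr 1
      ring
    rw [e2]
    have e3 : ((T : ℝ) + 1) * (4 * Real.exp (-(((Rb : ℝ) - m) / T * ((Rb : ℝ) - m)) + T * ((((Rb : ℝ) - m) / T) ^ 2 / 2))) ≤
        (L ^ 6)⁻¹ / 8 := t1
    have e4 : (T : ℝ) * (((u : ℝ) + 1) * (4 * Real.exp (-((M : ℝ) / u * M) + u * (((M : ℝ) / u) ^ 2 / 2)))) ≤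
        (L ^ 6)⁻¹ / 8 := t2
    have e5 : 8 * ((u : ℝ) + 1) * (β * f 0 * (2 * (((16 * S)⁻¹) ^ q)⁻¹)) ^ 2 /
      (T * (β * f 0 * (β ^ q * ((κ ^ q)⁻¹ / 8))) ^ 2) ≤ (L ^ 6)⁻¹ / 8 := t3
    linarith

end

end Pool.Agent.H964.DP
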