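import Pool.Agent.H964.DP.Tail

/-! # Project DP (helper964): statements of the assembly tasks -/

set_option autoImplicit false

open MeasureTheory ProbabilityTheory Filter Finset

namespace Pool.Agent.H964.DP

/-- the critical logarithmic scale -/
noncomputable def Lc (a μ β : ℝ) : ℝ := (μ / (2 * β ^ 2)) ^ (1 / (a + 2))

/-- PART1: the upper bound for `-p`. -/
def S_PART1 : Prop := S_GLOW → S_LOWP → ∀ (a μ : ℝ), -1 < a → 0 < μ → Sup a μ →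
  ∀ (γ : Measure (V → ℝ)) (h : V → ℝ), GS γ h → Asym a h → ∀ ε : ℝ, 0 < ε → ε < 1 →
  ∃ β₀ : ℝ, 0 < β₀ ∧ ∀ β : ℝ, 0 < β → β < β₀ → ∀ p : ℝ,
    (∀ᵐ w ∂(PP γ), Tendsto (fun n : ℕ => Real.log (W β n w 0) / n) atTop (nhds p)) →
    -p ≤ Real.exp (-(2 * (1 - ε) * Lc a μ β))

/-- CSE: from one block to the free energy. -/
def S_CSE : Prop := S_SIZE → S_COARSE → ∃ L₀ : ℝ, 1 ≤ L₀ ∧ ∀ L : ℝ, L₀ ≤ L →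
  ∀ (γ : Measure (V → ℝ)) (h : V → ℝ), GS γ h → ∀ (β : ℝ) (l m : ℕ), 1 ≤ l → 1 ≤ m → (l : ℝ) ≤ (m : ℝ) ^ 2 →
  ∀ (A : Set (ℕ → V → ℝ)), MeasurableSet A →
  (∀ w w' : ℕ → V → ℝ, (∀ k < l, w k = w' k) → (w ∈ A ↔ w' ∈ A)) →
  (PP γ).real A ≤ (L ^ 6)⁻¹ →
  (∀ z : V, cel m z = 0 → ∫ w, Aᶜ.indicator (fun _ => (1 : ℝ)) w * W β l w z ∂(PP γ) ≤ (L ^ 6)⁻¹) →
  ∀ p : ℝ, (∀ᵐ w ∂(PP γ), Tendsto (fun n : ℕ => Real.log (W β n w 0) / n) atTop (nhds p)) →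
    p ≤ -(1 / (l : ℝ))

/-- BLOCK: the one-block estimate. -/
def S_BLOCK : Prop := ∀ (a μ : ℝ), -1 < a → 0 < μ → Sup a μ → Sub a μ →
  ∀ (γ : Measure (V → ℝ)) (h : V → ℝ), GS γ h → Asym a h → ∀ ε : ℝ, 0 < ε → ∀ L₀ : ℝ,
  ∃ β₀ : ℝ, 0 < β₀ ∧ ∀ β : ℝ, 0 < β → β < β₀ → ∃ (L : ℝ) (l m : ℕ) (A : Set (ℕ → V → ℝ)), L₀ ≤ L ∧ 1 ≤ l ∧ 1 ≤ m ∧
    (l : ℝ) ≤ (m : ℝ) ^ 2 ∧ (l : ℝ) ≤ Real.exp (2 * (1 + ε) * Lc a μ β) ∧ MeasurableSet A ∧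
    (∀ w w' : ℕ → V → ℝ, (∀ k < l, w k = w' k) → (w ∈ A ↔ w' ∈ A)) ∧
    (PP γ).real A ≤ (L ^ 6)⁻¹ ∧
    ∀ z : V, cel m z = 0 → ∫ w, Aᶜ.indicator (fun _ => (1 : ℝ)) w * W β l w z ∂(PP γ) ≤ (L ^ 6)⁻¹

end Pool.Agent.H964.DP
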