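import Pool.Agent.H964.DP.Blk10
import Pool.Agent.H964.DP.Stm2

/-! # Project DP: choice of the parameters -/

set_option autoImplicit false

open MeasureTheory ProbabilityTheory Filter Finset Topology

namespace Pool.Agent.H964.DP

theorem ev_poly (c b : ℝ) (A : ℕ) (hb : b < A) : ∀ᶠ L : ℝ in atTop, c * L ^ b ≤ L ^ A := by
  have h1 : Tendsto (fun L : ℝ => L ^ ((A : ℝ) - b)) atTop atTop := tendsto_rpow_atTop (by linarith)
  filter_upwards [h1.eventually_ge_atTop c, eventually_gt_atTop 0] with L h2 h3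
  have h4 : L ^ A = L ^ ((A : ℝ) - b) * L ^ b := by
    rw [← Real.rpow_add h3, sub_add_cancel, Real.rpow_natCast]
  rw [h4]
  exact mul_le_mul_of_nonneg_right h2 (by positivity)

theorem ev_one (c : ℝ) {b : ℝ} (hb : 0 < b) : ∀ᶠ L : ℝ in atTop, c / L ^ b ≤ 1 := by
  have h1 : Tendsto (fun L : ℝ => L ^ b) atTop atTop := tendsto_rpow_atTop hb
  filter_upwards [h1.eventually_ge_atTop c, eventually_gt_atTop 0] with L h2 h3
  rw [div_le_one (by positivity)]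
  exact h2

theorem ev_growth (AP : ℕ) {Cq δ : ℝ} (hCq : 0 < Cq) (hδ : 0 < δ) :
    ∀ᶠ L : ℝ in atTop, (L ^ AP) ^ (3 * ⌈Cq * Real.log L⌉₊ + 20) ≤ Real.exp (δ * L) := by
  have h1 := (Real.isLittleO_pow_log_id_atTop (n := 2)).bound
    (c := δ / ((AP + 1) * (3 * Cq + 23))) (by positivity)
  filter_upwards [h1, eventually_ge_atTop (Real.exp 1)] with L h2 h3
  have hL0 : 0 < L := lt_of_lt_of_le (Real.exp_pos 1) h3
  have hlog : 1 ≤ Real.log L := by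
    rw [← Real.log_exp 1]
    exact Real.log_le_log (Real.exp_pos 1) h3
  simp only [id, Real.norm_eq_abs] at h2
  rw [abs_of_nonneg (by positivity), abs_of_pos hL0, div_mul_eq_mul_div, le_div_iff₀ (by positivity)] at h2
  have h4 : (⌈Cq * Real.log L⌉₊ : ℝ) ≤ Cq * Real.log L + 1 := (Nat.ceil_lt_add_one (by positivity)).le
  have h5 : (L ^ AP) ^ (3 * ⌈Cq * Real.log L⌉₊ + 20) = Real.exp (((3 * ⌈Cq * Real.log L⌉₊ + 20 : ℕ) : ℝ) * (AP * Real.log L)) := by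
    rw [Real.exp_nat_mul, Real.exp_nat_mul, Real.exp_log hL0]
  rw [h5]
  refine Real.exp_le_exp.2 ?_
  push_cast
  have h6 : 3 * (⌈Cq * Real.log L⌉₊ : ℝ) + 20 ≤ (3 * Cq + 23) * Real.log L := by nlinarith
  calc (3 * (⌈Cq * Real.log L⌉₊ : ℝ) + 20) * (AP * Real.log L) ≤
      ((3 * Cq + 23) * Real.log L) * ((AP + 1) * Real.log L) :=
        mul_le_mul h6 (by nlinarith) (by positivity) (by positivity)
    _ = Real.log L ^ 2 * ((AP + 1) * (3 * Cq + 23)) := by ring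
    _ ≤ δ * L := h2

theorem ev_q {Cq : ℝ} (hCq : 0 < Cq) : ∀ᶠ L : ℝ in atTop, (⌈Cq * Real.log L⌉₊ : ℝ) ≤ L := by
  have h1 := (Real.isLittleO_log_id_atTop).bound (c := 1 / (2 * Cq)) (by positivity)
  filter_upwards [h1, eventually_ge_atTop (2 : ℝ)] with L h2 h3
  have hL0 : 0 < L := by linarith
  have hlog : 0 ≤ Real.log L := Real.log_nonneg (by linarith)
  simp only [id, Real.norm_eq_abs] at h2
  rw [abs_of_nonneg hlog, abs_of_pos hL0, div_mul_eq_mul_div, le_div_iff₀ (by positivity)] at h2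
  have h4 : (⌈Cq * Real.log L⌉₊ : ℝ) ≤ Cq * Real.log L + 1 := (Nat.ceil_lt_add_one (by positivity)).le
  linarith

theorem ev_rho (AP : ℕ) {ρ : ℝ} (h0 : 0 < ρ) (h1 : ρ < 1) {L : ℝ} (hL : 8 ≤ L) {q : ℕ}
    (hq : (9 * AP + 8) / (-Real.log ρ) * Real.log L ≤ q) : 8 * ((L ^ AP) ^ 9 * ρ ^ q) ≤ (L ^ 6)⁻¹ := by
  have hl : 0 < -Real.log ρ := by
    have := Real.log_neg h0 h1
    linarith
  have hL0 : 0 < L := by linarith
  have h2 : ρ ^ q ≤ (L ^ (9 * AP + 8))⁻¹ := by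
    have e1 : ρ ^ q = Real.exp (q * Real.log ρ) := by rw [Real.exp_nat_mul, Real.exp_log h0]
    have e2 : (L ^ (9 * AP + 8))⁻¹ = Real.exp (-(((9 * AP + 8 : ℕ) : ℝ) * Real.log L)) := by
      rw [Real.exp_neg, Real.exp_nat_mul, Real.exp_log hL0]
    rw [e1, e2]
    refine Real.exp_le_exp.2 ?_
    rw [div_mul_eq_mul_div, div_le_iff₀ hl] at hq
    push_cast
    linarith
  have hL6 : 0 < L ^ 6 := by positivity
  calc 8 * ((L ^ AP) ^ 9 * ρ ^ q) ≤ 8 * ((L ^ AP) ^ 9 * (L ^ (9 * AP + 8))⁻¹) := by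
        refine mul_le_mul_of_nonneg_left ?_ (by norm_num)
        exact mul_le_mul_of_nonneg_left h2 (by positivity)
    _ = 8 / L ^ 8 := by
      rw [← pow_mul, pow_add, mul_comm AP 9]
      field_simp
    _ ≤ (L ^ 6)⁻¹ := by
      rw [inv_eq_one_div, div_le_div_iff₀ (by positivity) hL6]
      have h3 : L ^ 8 = L ^ 2 * L ^ 6 := by ring
      have h4 : 8 ≤ L ^ 2 := by nlinarith
      rw [h3, one_mul]
      exact mul_le_mul_of_nonneg_right h4 hL6.le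

theorem delta_ex {a ε ε₁ : ℝ} (ha : -1 < a) (h0 : 0 < ε₁) (h1 : ε₁ < ε) : ∃ δ : ℝ, 0 < δ ∧ δ ≤ 1 / 3 ∧
    (1 + 6 * δ) * (1 + ε₁) ≤ 1 + ε ∧
    (1 + δ) ^ 2 * (1 + 4 * δ) ^ (a + 2) / ((1 - δ) * (1 + ε₁) ^ (a + 2)) < 1 := by
  have hX : 1 < (1 + ε₁) ^ (a + 2) := Real.one_lt_rpow (by linarith) (by linarith)
  have c1 : ContinuousAt (fun δ : ℝ => (1 + δ) ^ 2 * (1 + 4 * δ) ^ (a + 2) / ((1 - δ) * (1 + ε₁) ^ (a + 2))) 0 := by
    refine ContinuousAt.div (ContinuousAt.mul (by fun_prop) ?_) (by fun_prop) ?_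
    · refine ContinuousAt.rpow_const (by fun_prop) (Or.inl (by norm_num))
    · have : (1 - (0 : ℝ)) * (1 + ε₁) ^ (a + 2) = (1 + ε₁) ^ (a + 2) := by ring
      rw [this]
      linarith
  have c2 : ContinuousAt (fun δ : ℝ => (1 + 6 * δ) * (1 + ε₁)) 0 := by fun_prop
  have e1 : ∀ᶠ δ : ℝ in 𝓝 0, (1 + δ) ^ 2 * (1 + 4 * δ) ^ (a + 2) / ((1 - δ) * (1 + ε₁) ^ (a + 2)) < 1 := by
    refine c1.eventually_lt_const ?_
    have : (1 + (0 : ℝ)) ^ 2 * (1 + 4 * 0) ^ (a + 2) / ((1 - 0) * (1 + ε₁) ^ (a + 2)) = 1 / (1 + ε₁) ^ (a + 2) := by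
      simp
    show (1 + (0 : ℝ)) ^ 2 * (1 + 4 * 0) ^ (a + 2) / ((1 - 0) * (1 + ε₁) ^ (a + 2)) < 1
    rw [this, div_lt_one (by linarith)]
    exact hX
  have e2 : ∀ᶠ δ : ℝ in 𝓝 0, (1 + 6 * δ) * (1 + ε₁) < 1 + ε := by
    refine c2.eventually_lt_const ?_
    simpa using h1
  have e3 : ∀ᶠ δ : ℝ in 𝓝 0, δ < 1 / 3 := eventually_lt_nhds (by norm_num)
  have e4 := (e1.and (e2.and e3)).filter_mono (nhdsWithin_le_nhds (s := Set.Ioi 0))
  obtain ⟨δ, ⟨h2, h3, h4⟩, h5⟩ := (e4.and self_mem_nhdsWithin).exists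
  exact ⟨δ, h5, h4.le, h3.le, h2⟩

theorem Lc_pos {a μ β : ℝ} (hμ : 0 < μ) (hβ : 0 < β) : 0 < Lc a μ β := by
  unfold Lc
  positivity

theorem Lc_pow {a μ β : ℝ} (ha : -1 < a) (hμ : 0 < μ) (hβ : 0 < β) : (Lc a μ β) ^ (a + 2) = μ / (2 * β ^ 2) := by
  unfold Lc
  rw [← Real.rpow_mul (by positivity), one_div, inv_mul_cancel₀ (by linarith), Real.rpow_one]

theorem Lc_tendsto {a μ : ℝ} (ha : -1 < a) (hμ : 0 < μ) (R : ℝ) : ∃ β₀ : ℝ, 0 < β₀ ∧ ∀ β : ℝ, 0 < β → β < β₀ →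
    R ≤ Lc a μ β := by
  set R' := max R 1 with hR'
  have hR1 : 1 ≤ R' := le_max_right _ _
  refine ⟨√(μ / (2 * R' ^ (a + 2))), Real.sqrt_pos.2 (by positivity), fun β hβ hβ2 => ?_⟩
  refine (le_max_left R 1).trans ?_
  have h1 : β ^ 2 < μ / (2 * R' ^ (a + 2)) := by
    have := Real.lt_sqrt hβ.le |>.1 hβ2
    exact this
  have h2 : R' ^ (a + 2) ≤ μ / (2 * β ^ 2) := by
    rw [lt_div_iff₀ (by positivity)] at h1
    rw [le_div_iff₀ (by positivity)]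
    linarith
  rw [← Lc_pow ha hμ hβ] at h2
  exact (Real.rpow_le_rpow_iff (by linarith) (Lc_pos hμ hβ).le (by linarith)).1 h2

/-- the physical parameters, eventually -/
theorem phy_reg {a μ ε₁ δ : ℝ} (ha : -1 < a) (hμ : 0 < μ) (hε₁ : 0 < ε₁) (hδ : 0 < δ) (hδ1 : δ ≤ 1 / 3)
    (hρ : (1 + δ) ^ 2 * (1 + 4 * δ) ^ (a + 2) / ((1 - δ) * (1 + ε₁) ^ (a + 2)) < 1)
    {f0 c₀ C Cf : ℝ} (hf0 : 0 < f0) (hc₀ : 0 < c₀) (hC : 1 ≤ C) (A : ℕ) :
    ∃ (AP : ℕ) (Cq : ℝ), ∀ᶠ L : ℝ in atTop, ∀ β : ℝ, 0 < β → β ^ 2 = (1 + ε₁) ^ (a + 2) * μ / (2 * L ^ (a + 2)) →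
      Reg δ L (L ^ AP) (C * (9 * L) ^ A) ⌈Cq * Real.log L⌉₊ ∧
      Phy β f0 c₀ (√((1 - δ) * μ / (2 * ((1 + 4 * δ) * L) ^ (a + 2)))) ((1 + δ) * μ / (2 * L ^ (a + 2))) L (L ^ AP)
        (C * (9 * L) ^ A) ⌈Cq * Real.log L⌉₊ ∧
      √((1 - δ) * μ / (2 * ((1 + 4 * δ) * L) ^ (a + 2))) ≤ 1 ∧ Cf ≤ L ^ AP := by
  set ρ := (1 + δ) ^ 2 * (1 + 4 * δ) ^ (a + 2) / ((1 - δ) * (1 + ε₁) ^ (a + 2)) with hρd
  have hd1 : 0 < 1 - δ := by linarith
  have hρ0 : 0 < ρ := by positivity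
  obtain ⟨AP₀, hAP₀⟩ := exists_nat_gt (a + 2)
  set AP := AP₀ + A + 1 with hAP
  have hAPa : a + 2 < (AP : ℝ) := by
    rw [hAP]
    push_cast
    have : (0 : ℝ) ≤ A := Nat.cast_nonneg A
    linarith
  have hAPA : (A : ℝ) < (AP : ℝ) := by
    rw [hAP]
    push_cast
    have : (0 : ℝ) ≤ AP₀ := Nat.cast_nonneg AP₀
    linarith
  have hlρ : 0 < -Real.log ρ := by
    have := Real.log_neg hρ0 hρ
    linarith
  set Cq := (9 * AP + 8) / (-Real.log ρ) with hCq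
  have hCq0 : 0 < Cq := by positivity
  refine ⟨AP, Cq, ?_⟩
  have ha2 : 0 < a + 2 := by linarith
  filter_upwards [eventually_ge_atTop (50000 : ℝ), eventually_ge_atTop (f0⁻¹), eventually_ge_atTop (c₀⁻¹),
    eventually_ge_atTop Cf, ev_poly (2 / ((1 + ε₁) ^ (a + 2) * μ)) (a + 2) AP hAPa,
    ev_poly (2 * (1 + 4 * δ) ^ (a + 2) / ((1 - δ) * μ)) (a + 2) AP hAPa, ev_poly (16 * C * 9 ^ A) A AP hAPA,
    ev_one ((1 + ε₁) ^ (a + 2) * μ / 2) ha2, ev_one ((1 + δ) * μ / 2) ha2,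
    ev_one ((1 - δ) * μ / (2 * (1 + 4 * δ) ^ (a + 2))) ha2, ev_growth AP hCq0 hδ, ev_q hCq0]
    with L g1 g2 g3 g4 g5 g6 g7 g8 g9 g10 g11 g12 β hβ hβ2
  have hL0 : 0 < L := by linarith
  have hLP : L ≤ L ^ AP := le_self_pow₀ (by linarith) (by omega)
  have hlog : 0 < Real.log L := Real.log_pos (by linarith)
  have hLa : 0 < L ^ (a + 2) := by positivity
  have hLa' : ((1 + 4 * δ) * L) ^ (a + 2) = (1 + 4 * δ) ^ (a + 2) * L ^ (a + 2) := Real.mul_rpow (by linarith) hL0.le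
  have h4d : 0 < (1 + 4 * δ) ^ (a + 2) := by positivity
  have h1e : 0 < (1 + ε₁) ^ (a + 2) := by positivity
  have hlam2 : √((1 - δ) * μ / (2 * ((1 + 4 * δ) * L) ^ (a + 2))) ^ 2 =
      (1 - δ) * μ / (2 * ((1 + 4 * δ) ^ (a + 2) * L ^ (a + 2))) := by
    rw [Real.sq_sqrt (by positivity), hLa']
  have hS1 : 1 ≤ C * (9 * L) ^ A := by
    have : 1 ≤ (9 * L) ^ A := one_le_pow₀ (by linarith)
    nlinarith
  refine ⟨?_, ?_, ?_, g4.trans hLP⟩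
  · refine
      { d0 := hδ
        d1 := hδ1
        hL := by linarith
        hP := by linarith
        hLP := hLP
        hq := Nat.one_le_ceil_iff.2 (by positivity)
        hqL := g12
        gr := g11
        hS := hS1
        hSP := ?_ }
    rw [Real.rpow_natCast] at g7
    refine le_trans (le_of_eq ?_) g7
    rw [mul_pow]
    ring
  · refine
      { β0 := hβ
        β1 := ?_
        βP := ?_
        f00 := hf0
        f0P := g2.trans hLP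
        c0 := hc₀
        c0P := g3.trans hLP
        l0 := Real.sqrt_pos.2 (by positivity)
        lP := ?_
        κ0 := by positivity
        κ1 := ?_
        ρ := ?_ }
    · have h1 : β ^ 2 ≤ 1 := by
        rw [hβ2]
        refine le_trans (le_of_eq ?_) g8
        field_simp
      nlinarith
    · rw [hβ2]
      refine le_trans (le_of_eq ?_) g5
      field_simp
    · rw [hlam2]
      refine le_trans (le_of_eq ?_) g6
      field_simp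
    · refine le_trans (le_of_eq ?_) g9
      field_simp
    · have e1 : ((1 + δ) * μ / (2 * L ^ (a + 2))) ^ 2 / (√((1 - δ) * μ / (2 * ((1 + 4 * δ) * L) ^ (a + 2))) ^ 2 * β ^ 2) = ρ := by
        rw [hlam2, hβ2, hρd]
        field_simp
      rw [e1]
      exact ev_rho AP hρ0 hρ (by linarith) (Nat.le_ceil _)
  · refine Real.sqrt_le_one.2 ?_
    rw [hLa']
    refine le_trans (le_of_eq ?_) g10
    field_simp

theorem t_BLOCK (hLC : S_LCLT) (hG : S_GREEN) (hSmo : S_SMOOTH) (hSM : S_SM) (hV : S_SM → S_VAR) (hT : S_TILT)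
    (hSZ : S_SIZE) (hLLN : S_LLN) : S_BLOCK := by
  intro a μ ha hμ hSup hSub γ h hγ hh ε hε L₀
  obtain ⟨-, B₀, hB, hf, hf0, hAf, hAf2⟩ := hSmo a ha h hh
  obtain ⟨⟨C1, A1, hC1, hLB1⟩, -⟩ := hSmo a ha (ht B₀ h) hAf
  obtain ⟨⟨C2, A2, hC2, hLB2⟩, -⟩ := hSmo a ha (hb B₀ h) hAf2
  obtain ⟨D1, E1, hD1, hs1⟩ := sums_bd hG hLC hLB1
  obtain ⟨D2, E2, hD2, hs2⟩ := sums_bd hG hLC hLB2
  have hs1' : Sums (ht B₀ h) (max D1 D2) (max E1 E2) := Sums.mono hs1 (by linarith) (le_max_left _ _) (le_max_left _ _)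
  have hs2' : Sums (hb B₀ h) (max D1 D2) (max E1 E2) := Sums.mono hs2 (by linarith) (le_max_right _ _) (le_max_right _ _)
  have hD : 1 ≤ max D1 D2 := hD1.trans (le_max_left _ _)
  obtain ⟨δ, hδ, hδ1, hδ2, hρ⟩ := delta_ex ha (by positivity : 0 < ε / 2) (by linarith : ε / 2 < ε)
  obtain ⟨F1, hF1, hfar1⟩ := far_bd hLB1 (s := δ / 2) (by linarith) (by linarith)
  obtain ⟨F2, hF2, hfar2⟩ := far_bd hLB2 (s := δ / 2) (by linarith) (by linarith)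
  have hfar1' : ∀ (z : V) (Y : ℝ), 1 ≤ Y → Y ≤ ns z → |ht B₀ h z| ≤ max F1 F2 * Y ^ (-(1 - δ / 2)) := fun z Y hY hz =>
    (hfar1 z Y hY hz).trans (mul_le_mul_of_nonneg_right (le_max_left _ _) (by positivity))
  have hfar2' : ∀ (z : V) (Y : ℝ), 1 ≤ Y → Y ≤ ns z → |hb B₀ h z| ≤ max F1 F2 * Y ^ (-(1 - δ / 2)) := fun z Y hY hz =>
    (hfar2 z Y hY hz).trans (mul_le_mul_of_nonneg_right (le_max_right _ _) (by positivity))
  obtain ⟨c₀, L₁, hc₀, hL₁, hsup⟩ := hSup (hb B₀ h) hAf2 δ hδ (by linarith)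
  obtain ⟨L₂, hL₂, hsub⟩ := hSub (ht B₀ h) hf hAf δ hδ
  obtain ⟨AP, Cq, hev⟩ := phy_reg ha hμ (by positivity : 0 < ε / 2) hδ hδ1 hρ (Cf := max F1 F2) hf0 hc₀ hD (max E1 E2)
  obtain ⟨L₃, hL₃⟩ := eventually_atTop.1 hev
  obtain ⟨β₀, hβ₀, hβL⟩ := Lc_tendsto ha hμ (max (max L₀ L₁) (max L₂ (max L₃ 1)))
  refine ⟨β₀, hβ₀, fun β hβ hββ => ?_⟩
  have hLc := hβL β hβ hββ
  have hLcp := Lc_pos (a := a) hμ hβ
  set L := (1 + ε / 2) * Lc a μ β with hLdef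
  have hLL : Lc a μ β ≤ L := by
    rw [hLdef]
    nlinarith
  have k0 : L₀ ≤ L := ((le_max_left _ _).trans ((le_max_left _ _).trans hLc)).trans hLL
  have k1 : L₁ ≤ L := ((le_max_right _ _).trans ((le_max_left _ _).trans hLc)).trans hLL
  have k2 : L₂ ≤ L := ((le_max_left _ _).trans ((le_max_right _ _).trans hLc)).trans hLL
  have k3 : L₃ ≤ L := ((le_max_left _ _).trans ((le_max_right _ _).trans ((le_max_right _ _).trans hLc))).trans hLL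
  have k4 : 1 ≤ L := ((le_max_right _ _).trans ((le_max_right _ _).trans ((le_max_right _ _).trans hLc))).trans hLL
  have hβ2 : β ^ 2 = (1 + ε / 2) ^ (a + 2) * μ / (2 * L ^ (a + 2)) := by
    rw [hLdef, Real.mul_rpow (by positivity) hLcp.le, Lc_pow ha hμ hβ]
    have : 0 < (1 + ε / 2) ^ (a + 2) := by positivity
    field_simp
  obtain ⟨hR, hp, hl1, hCf⟩ := hL₃ L k3 β hβ hβ2
  obtain ⟨φ₂, hφ₂, hφ₂c, hφ₂s⟩ := hsup ((1 + 4 * δ) * L) (by nlinarith)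
  obtain ⟨φ, hφ, hφs, hφ0, hφsub⟩ := hsub L k2
  have hlam2 : √((1 - δ) * μ / (2 * ((1 + 4 * δ) * L) ^ (a + 2))) ^ 2 = (1 - δ) * μ / (2 * ((1 + 4 * δ) * L) ^ (a + 2)) :=
    Real.sq_sqrt (by
      have : 0 < 1 - δ := by linarith
      positivity)
  have hPar := mkPar hLC hD rfl hs1' hs2' hf hR hp (hF1.trans (le_max_left _ _)) hCf hfar1' hfar2' hl1 hφ₂ hφ₂c
    (by rw [hlam2]; exact hφ₂s) hφ hφs hφ0 hφsub
  obtain ⟨l, m, A, j1, j2, j3, j4, j5, j6, j7, j8⟩ := block_reg hSM hV hT hSZ hLLN hγ hB rfl rfl hR hp hPar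
  refine ⟨L, l, m, A, k0, j1, j2, j3, ?_, j5, j6, j7, j8⟩
  refine j4.trans (Real.exp_le_exp.2 ?_)
  rw [hLdef]
  nlinarith

end Pool.Agent.H964.DP
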