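import Pool.Agent.H964.DP.Blk

/-! # Project DP: the estimate in one block, second part -/

set_option autoImplicit false

open MeasureTheory ProbabilityTheory Filter Finset

namespace Pool.Agent.H964.DP

theorem meas_sm (B : Finset V) (x : V) : Measurable (fun s : V → ℝ => sm B s x) := by
  unfold sm
  exact (Finset.measurable_sum _ fun y _ => measurable_pi_apply (x + y)).div_const _

theorem G2_scale (d f : V → ℝ) (c : ℝ) : ∀ (n k : ℕ) (x y : V),
    G2 d (fun z => c * f z) n k x y = c ^ k * G2 d f n k x y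
  | 0, k, x, y => by
    show (if k = 0 then (1 : ℝ) else 0) = c ^ k * (if k = 0 then (1 : ℝ) else 0)
    by_cases hk : k = 0
    · rw [if_pos hk, hk]; simp
    · rw [if_neg hk, mul_zero]
  | n + 1, k, x, y => by
    have ih := G2_scale d f c n
    show avg (fun y' => avg (fun x' => d x' * (G2 d (fun z => c * f z) n k x' y' +
      c * f (x' - y') * (if k = 0 then 0 else G2 d (fun z => c * f z) n (k - 1) x' y'))) x) y =
      c ^ k * avg (fun y' => avg (fun x' => d x' * (G2 d f n k x' y' +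
      f (x' - y') * (if k = 0 then 0 else G2 d f n (k - 1) x' y'))) x) y
    rw [← avg_mul]
    congr 1
    funext y'
    rw [← avg_mul]
    congr 1
    funext x'
    rw [ih, ih]
    by_cases hk : k = 0
    · simp only [hk, if_true]; ring
    · obtain ⟨j, rfl⟩ : ∃ j, k = j + 1 := ⟨k - 1, by omega⟩
      rw [if_neg hk, if_neg hk, Nat.add_sub_cancel]
      ring

variable {f f2 : V → ℝ} {β : ℝ} {q u M T m Rb : ℕ} {lam lam2 c₀ η η₂ S g₀ : ℝ}
  {γ : Measure (V → ℝ)} {h : V → ℝ} {B₀ : Finset V}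

/-- mean of the smoothed slices along a path -/
noncomputable def mT (f : V → ℝ) (β : ℝ) {n : ℕ} (z : V) (τ : Fin n → Fin 4) (k : ℕ) (x : V) : ℝ :=
  if k < n then β * f (x - (z + pos τ (k + 1))) else 0

theorem Sl_PT (hT : S_TILT) (hγ : GS γ h) (hB : B₀.Nonempty) (hf : f = ht B₀ h) (hf2 : f2 = hb B₀ h) (β : ℝ)
    {n : ℕ} (z : V) (τ : Fin n → Fin 4) :
    Sl (fun k : ℕ => if k < n then tl γ β (z + pos τ (k + 1)) else γ) (fun x s => sm B₀ s x)
      (mT f β z τ) f2 := by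
  obtain ⟨t1, t2, t3, t4⟩ := hT γ h hγ β B₀ hB
  subst hf hf2
  refine ⟨?_, meas_sm B₀, ?_, ?_, ?_⟩
  · intro k
    split_ifs
    · exact (t4 _).1
    · exact hγ.prob
  · intro k x
    split_ifs
    · exact (t4 _).2.1 x
    · exact t2 x
  · intro k x
    unfold mT
    split_ifs
    · exact (t4 _).2.2.1 x
    · exact t3 x
  · intro k x y
    unfold mT
    split_ifs
    · exact (t4 _).2.2.2 x y
    · rw [mul_zero, add_zero]
      exact t1 x y

theorem Sl_PP (hT : S_TILT) (hγ : GS γ h) (hB : B₀.Nonempty) (hf2 : f2 = hb B₀ h) :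
    Sl (fun _ : ℕ => γ) (fun x s => sm B₀ s x) (fun _ _ => 0) f2 := by
  obtain ⟨t1, t2, t3, t4⟩ := hT γ h hγ 0 B₀ hB
  subst hf2
  refine ⟨fun _ => hγ.prob, meas_sm B₀, fun _ x => t2 x, fun _ x => t3 x, ?_⟩
  intro k x y
  rw [mul_zero, add_zero]
  exact t1 x y

/-- the second moment under the law of the environment -/
theorem var_PP (hSM : S_SM) (hV : S_SM → S_VAR) (hT : S_TILT) (hγ : GS γ h) (hB : B₀.Nonempty)
    (hf2 : f2 = hb B₀ h) (hp : Par f f2 β q u M T m Rb lam lam2 c₀ η η₂ S g₀) :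
    Measurable (Xs B₀ T u q M Rb) ∧ MemLp (Xs B₀ T u q M Rb) 2 (PP γ) ∧
    ∫ w, (Xs B₀ T u q M Rb w) ^ 2 ∂(PP γ) ≤ 2 * (T * ((sq Rb).card * S * Γ₁ lam c₀ q)) := by
  have hs := Sl_PP hT hγ hB hf2
  have hpr : IsProbabilityMeasure γ := hγ.prob
  have hΓ0 : 0 ≤ Γ₁ lam c₀ q := by
    unfold Γ₁
    have := hp.c_pos
    have := hp.lam_pos
    positivity
  obtain ⟨v1, v2, v3, v4⟩ := hV hSM (V → ℝ) (fun _ => γ) (fun x s => sm B₀ s x) (fun _ _ => 0)
    (fun x y => f2 (x - y)) hs.meas hs.lp hs.mean hs.cov (bx M) (bx_zo M) T u q (sq Rb)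
    (fun _ _ _ => Γ₁ lam c₀ q) (by
      intro t _ x _ y _
      have h1 := gam hSM hp hs 0 (fun _ => 0) (fun k x => by simp) t (fun _ => False)
        (fun x _ i _ y _ => by simpa using hp.eta) x y
      simpa using h1)
  refine ⟨v1, v2, ?_⟩
  simp only [zero_mul, Finset.sum_const_zero, sub_zero, abs_zero, mul_zero, add_zero] at v4
  refine le_trans v4 ?_
  have h1 : ∑ t ∈ range T, ∑ x ∈ sq Rb, ∑ y ∈ sq Rb, |f2 (x - y)| * Γ₁ lam c₀ q ≤
      T * ((sq Rb).card * S * Γ₁ lam c₀ q) := by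
    have h2 : ∀ t ∈ range T, ∑ x ∈ sq Rb, ∑ y ∈ sq Rb, |f2 (x - y)| * Γ₁ lam c₀ q ≤
        (sq Rb).card * S * Γ₁ lam c₀ q := by
      intro t _
      have h3 : ∀ x ∈ sq Rb, ∑ y ∈ sq Rb, |f2 (x - y)| * Γ₁ lam c₀ q ≤ S * Γ₁ lam c₀ q := by
        intro x hx
        rw [← Finset.sum_mul]
        exact mul_le_mul_of_nonneg_right (hp.sum2' x hx) hΓ0
      have h4 := Finset.sum_le_sum h3
      rw [Finset.sum_const, nsmul_eq_mul] at h4
      linarith
    have h3 := Finset.sum_le_sum h2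
    simp only [Finset.sum_const, nsmul_eq_mul, Finset.card_range] at h3 ⊢
    exact h3
  exact mul_le_mul_of_nonneg_left h1 (by norm_num)

theorem card_near (s : V) (R' : ℕ) : (((sq Rb).filter (fun x => |x.1 - s.1| ≤ R' ∧ |x.2 - s.2| ≤ R')).card : ℝ) ≤
    (sq R').card := by
  have h1 : ((sq Rb).filter (fun x => |x.1 - s.1| ≤ R' ∧ |x.2 - s.2| ≤ R')).card ≤ (sq R').card := by
    refine Finset.card_le_card_of_injOn (fun x => x - s) ?_ ?_
    · intro x hx
      have hx' := (Finset.mem_filter.1 (Finset.mem_coe.1 hx)).2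
      exact Finset.mem_coe.2 (mem_sq.2 (by simpa using hx'))
    · intro x _ y _ hxy
      exact sub_left_injective hxy
  exact_mod_cast h1

/-- the variance along a good path -/
noncomputable def Vb (β : ℝ) (u T M Rb q : ℕ) (lam lam2 c₀ S : ℝ) : ℝ :=
  2 * (T * ((sq Rb).card * S * Γ₁ lam c₀ q + 2 * ((sq (3 * M)).card * S * Γ₂ lam2 q))) +
    2 * (2 * u + 1) * (T * ((β * S) ^ 2 * (Γ₁ lam c₀ q + Γ₂ lam2 q)))

theorem var_PT (hSM : S_SM) (hV : S_SM → S_VAR) (hT : S_TILT) (hγ : GS γ h) (hB : B₀.Nonempty)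
    (hf : f = ht B₀ h) (hf2 : f2 = hb B₀ h) (hp : Par f f2 β q u M T m Rb lam lam2 c₀ η η₂ S g₀)
    (z : V) (τ : Fin (T + u) → Fin 4) (hin : ∀ j ≤ T, z + pos τ j ∈ sq Rb)
    (hg2 : ∀ t < T, ∀ i ≤ u, ¬ Out M (pos τ (t + 1 + i) - pos τ (t + 1))) :
    MemLp (Xs B₀ T u q M Rb) 2 (PT γ β z τ) ∧
    ∫ w, (Xs B₀ T u q M Rb w) ∂(PT γ β z τ) = ∑ t ∈ range T, ∑ x ∈ sq Rb, mT f β z τ t x *
      Ch (bx M x) u (fun i => mT f β z τ (t + 1 + i)) q x ∧
    ∫ w, (Xs B₀ T u q M Rb w - ∑ t ∈ range T, ∑ x ∈ sq Rb, mT f β z τ t x *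
      Ch (bx M x) u (fun i => mT f β z τ (t + 1 + i)) q x) ^ 2 ∂(PT γ β z τ) ≤ Vb β u T M Rb q lam lam2 c₀ S := by
  classical
  have hs := Sl_PT hT hγ hB hf hf2 β z τ
  have hpr := hs.prob
  have hβ := hp.hβ
  have hS := hp.hS
  have hΓ1 : 0 ≤ Γ₁ lam c₀ q := by
    unfold Γ₁
    have := hp.c_pos
    have := hp.lam_pos
    positivity
  have hΓ2 : 0 ≤ Γ₂ lam2 q := by
    unfold Γ₂
    have := hp.lam2_pos
    positivity
  set Nr : ℕ → V → Prop := fun t x => |x.1 - (z + pos τ (t + 1)).1| ≤ ((3 * M : ℕ) : ℤ) ∧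
    |x.2 - (z + pos τ (t + 1)).2| ≤ ((3 * M : ℕ) : ℤ) with hNr
  obtain ⟨v1, v2, v3, v4⟩ := hV hSM (V → ℝ) (fun k : ℕ => if k < T + u then tl γ β (z + pos τ (k + 1)) else γ)
    (fun x s => sm B₀ s x) (mT f β z τ) (fun x y => f2 (x - y)) hs.meas hs.lp hs.mean hs.cov (bx M) (bx_zo M)
    T u q (sq Rb) (fun t x y => if Nr t x ∨ Nr t y then Γ₂ lam2 q else Γ₁ lam c₀ q) (by
      intro t ht x _ y _
      refine gam hSM hp hs (T + u) (fun k => z + pos τ (k + 1)) (fun k x => rfl) t (Nr t) ?_ x y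
      intro x hx i hi y hy
      unfold mT
      rw [if_pos (by omega : t + 1 + i < T + u), abs_mul, abs_of_pos hβ, abs_of_nonneg (hp.f_nonneg _)]
      refine (hp.far _ ?_).1
      have h1 := hg2 t ht (i + 1) (by omega)
      obtain ⟨h2, h3⟩ := bx_one hy
      rw [hNr] at hx
      unfold Out at h1
      rw [not_or, not_le, not_le] at h1
      have h4 : |((pos τ (t + 1 + (i + 1)) - pos τ (t + 1)).1 : ℤ)| < M := by
        have := h1.1
        exact_mod_cast this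
      have h5 : |((pos τ (t + 1 + (i + 1)) - pos τ (t + 1)).2 : ℤ)| < M := by
        have := h1.2
        exact_mod_cast this
      have h6 : t + 1 + (i + 1) = t + 1 + i + 1 := by ring
      rw [h6] at h4 h5
      simp only [Prod.fst_sub, Prod.snd_sub, Prod.fst_add, Prod.snd_add, not_and_or, not_le, lt_abs, abs_lt, abs_le] at *
      push_cast at *
      omega)
  refine ⟨v2, v3, ?_⟩
  refine v4.trans ?_
  unfold Vb
  have h1 : ∑ t ∈ range T, ∑ x ∈ sq Rb, ∑ y ∈ sq Rb, |f2 (x - y)| *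
      (if Nr t x ∨ Nr t y then Γ₂ lam2 q else Γ₁ lam c₀ q) ≤
      T * ((sq Rb).card * S * Γ₁ lam c₀ q + 2 * ((sq (3 * M)).card * S * Γ₂ lam2 q)) := by
    have h2 : ∀ t ∈ range T, ∑ x ∈ sq Rb, ∑ y ∈ sq Rb, |f2 (x - y)| *
        (if Nr t x ∨ Nr t y then Γ₂ lam2 q else Γ₁ lam c₀ q) ≤
        (sq Rb).card * S * Γ₁ lam c₀ q + 2 * ((sq (3 * M)).card * S * Γ₂ lam2 q) := by
      intro t _
      have h3 : ∀ x y, |f2 (x - y)| * (if Nr t x ∨ Nr t y then Γ₂ lam2 q else Γ₁ lam c₀ q) ≤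
          |f2 (x - y)| * Γ₁ lam c₀ q + (if Nr t x then |f2 (x - y)| * Γ₂ lam2 q else 0) +
            (if Nr t y then |f2 (x - y)| * Γ₂ lam2 q else 0) := by
        intro x y
        have a1 : 0 ≤ |f2 (x - y)| * Γ₁ lam c₀ q := by positivity
        have a2 : 0 ≤ |f2 (x - y)| * Γ₂ lam2 q := by positivity
        by_cases hx : Nr t x <;> by_cases hy : Nr t y <;> simp only [hx, hy, or_true, or_false, if_true, if_false] <;> linarith
      refine (Finset.sum_le_sum fun x _ => Finset.sum_le_sum fun y _ => h3 x y).trans ?_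
      simp only [Finset.sum_add_distrib]
      have b1 : ∑ x ∈ sq Rb, ∑ y ∈ sq Rb, |f2 (x - y)| * Γ₁ lam c₀ q ≤ (sq Rb).card * S * Γ₁ lam c₀ q := by
        have h3 : ∀ x ∈ sq Rb, ∑ y ∈ sq Rb, |f2 (x - y)| * Γ₁ lam c₀ q ≤ S * Γ₁ lam c₀ q := by
          intro x hx
          rw [← Finset.sum_mul]
          exact mul_le_mul_of_nonneg_right (hp.sum2' x hx) hΓ1
        have h4 := Finset.sum_le_sum h3
        rw [Finset.sum_const, nsmul_eq_mul] at h4
        linarith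
      have b2 : ∑ x ∈ sq Rb, ∑ y ∈ sq Rb, (if Nr t x then |f2 (x - y)| * Γ₂ lam2 q else 0) ≤
          (sq (3 * M)).card * S * Γ₂ lam2 q := by
        have h3 : ∀ x ∈ sq Rb, ∑ y ∈ sq Rb, (if Nr t x then |f2 (x - y)| * Γ₂ lam2 q else 0) ≤
            if Nr t x then S * Γ₂ lam2 q else 0 := by
          intro x hx
          split_ifs
          · rw [← Finset.sum_mul]
            exact mul_le_mul_of_nonneg_right (hp.sum2' x hx) hΓ2
          · rw [Finset.sum_const_zero]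
        refine (Finset.sum_le_sum h3).trans ?_
        rw [← Finset.sum_filter, Finset.sum_const, nsmul_eq_mul]
        have h4 := card_near (Rb := Rb) (z + pos τ (t + 1)) (3 * M)
        have h5 : 0 ≤ S * Γ₂ lam2 q := by positivity
        calc _ ≤ ((sq (3 * M)).card : ℝ) * (S * Γ₂ lam2 q) := mul_le_mul_of_nonneg_right h4 h5
          _ = _ := by ring
      have b3 : ∑ x ∈ sq Rb, ∑ y ∈ sq Rb, (if Nr t y then |f2 (x - y)| * Γ₂ lam2 q else 0) ≤
          (sq (3 * M)).card * S * Γ₂ lam2 q := by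
        rw [Finset.sum_comm]
        have h3 : ∀ y ∈ sq Rb, ∑ x ∈ sq Rb, (if Nr t y then |f2 (x - y)| * Γ₂ lam2 q else 0) ≤
            if Nr t y then S * Γ₂ lam2 q else 0 := by
          intro y hy
          split_ifs
          · rw [← Finset.sum_mul]
            exact mul_le_mul_of_nonneg_right (hp.sum2 y hy) hΓ2
          · rw [Finset.sum_const_zero]
        refine (Finset.sum_le_sum h3).trans ?_
        rw [← Finset.sum_filter, Finset.sum_const, nsmul_eq_mul]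
        have h4 := card_near (Rb := Rb) (z + pos τ (t + 1)) (3 * M)
        have h5 : 0 ≤ S * Γ₂ lam2 q := by positivity
        calc _ ≤ ((sq (3 * M)).card : ℝ) * (S * Γ₂ lam2 q) := mul_le_mul_of_nonneg_right h4 h5
          _ = _ := by ring
      linarith
    have h3 := Finset.sum_le_sum h2
    rw [Finset.sum_const, nsmul_eq_mul, Finset.card_range] at h3
    exact h3
  have h2 : ∑ t ∈ range T, ∑ x ∈ sq Rb, ∑ y ∈ sq Rb, |mT f β z τ t x| * |mT f β z τ t y| *
      (if Nr t x ∨ Nr t y then Γ₂ lam2 q else Γ₁ lam c₀ q) ≤ T * ((β * S) ^ 2 * (Γ₁ lam c₀ q + Γ₂ lam2 q)) := by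
    have h3 : ∀ t ∈ range T, ∑ x ∈ sq Rb, ∑ y ∈ sq Rb, |mT f β z τ t x| * |mT f β z τ t y| *
        (if Nr t x ∨ Nr t y then Γ₂ lam2 q else Γ₁ lam c₀ q) ≤ (β * S) ^ 2 * (Γ₁ lam c₀ q + Γ₂ lam2 q) := by
      intro t ht
      have h4 : ∀ x y, |mT f β z τ t x| * |mT f β z τ t y| * (if Nr t x ∨ Nr t y then Γ₂ lam2 q else Γ₁ lam c₀ q) ≤
          |mT f β z τ t x| * |mT f β z τ t y| * (Γ₁ lam c₀ q + Γ₂ lam2 q) := by
        intro x y
        refine mul_le_mul_of_nonneg_left ?_ (by positivity)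
        split_ifs <;> linarith
      refine (Finset.sum_le_sum fun x _ => Finset.sum_le_sum fun y _ => h4 x y).trans ?_
      have h5 : ∑ x ∈ sq Rb, ∑ y ∈ sq Rb, |mT f β z τ t x| * |mT f β z τ t y| * (Γ₁ lam c₀ q + Γ₂ lam2 q) =
          (∑ x ∈ sq Rb, |mT f β z τ t x|) ^ 2 * (Γ₁ lam c₀ q + Γ₂ lam2 q) := by
        rw [pow_two, Finset.sum_mul_sum, Finset.sum_mul]
        refine Finset.sum_congr rfl fun x _ => ?_
        rw [Finset.sum_mul]
      rw [h5]
      refine mul_le_mul_of_nonneg_right ?_ (by linarith)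
      refine pow_le_pow_left₀ (Finset.sum_nonneg fun _ _ => abs_nonneg _) ?_ 2
      have h6 : ∀ x ∈ sq Rb, |mT f β z τ t x| ≤ β * f (x - (z + pos τ (t + 1))) := by
        intro x _
        unfold mT
        split_ifs
        · rw [abs_mul, abs_of_pos hβ, abs_of_nonneg (hp.f_nonneg _)]
        · rw [abs_zero]
          exact mul_nonneg hβ.le (hp.f_nonneg _)
      refine (Finset.sum_le_sum h6).trans ?_
      rw [← Finset.mul_sum]
      exact mul_le_mul_of_nonneg_left (hp.sum1 _ (hin (t + 1) (by rw [Finset.mem_range] at ht; omega))) hβ.le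
    have h4 := Finset.sum_le_sum h3
    rw [Finset.sum_const, nsmul_eq_mul, Finset.card_range] at h4
    exact h4
  have h3 : (0 : ℝ) ≤ 2 * (2 * u + 1) := by positivity
  exact add_le_add (mul_le_mul_of_nonneg_left h1 (by norm_num)) (mul_le_mul_of_nonneg_left h2 h3)

end Pool.Agent.H964.DP
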