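import Pool.Agent.H964.DP.Blk2

/-! # Project DP: the estimate in one block, third part -/

set_option autoImplicit false

open MeasureTheory ProbabilityTheory Filter Finset

namespace Pool.Agent.H964.DP

variable {f f2 : V → ℝ} {β : ℝ} {q u M T m Rb : ℕ} {lam lam2 c₀ η η₂ S g₀ : ℝ}
  {γ : Measure (V → ℝ)} {h : V → ℝ} {B₀ : Finset V}

/-- chains along the spine -/
noncomputable def zt (f : V → ℝ) (β : ℝ) (q u M : ℕ) {n : ℕ} (t : ℕ) (τ : Fin n → Fin 4) : ℝ :=
  β * f 0 * Ch (bx M 0) u (fun i z => β * f (z - (pos τ (t + 1 + 1 + i) - pos τ (t + 1)))) q 0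

theorem pos_congr {n : ℕ} {τ τ' : Fin n → Fin 4} {a b : ℕ} (hab : a ≤ b)
    (h : ∀ i : Fin n, a ≤ i.val → i.val < b → τ i = τ' i) : pos τ b - pos τ a = pos τ' b - pos τ' a := by
  have key : ∀ σ : Fin n → Fin 4, pos σ b - pos σ a =
      ∑ i ∈ univ.filter (fun i : Fin n => a ≤ i.val ∧ i.val < b), stp (σ i) := by
    intro σ
    unfold pos
    rw [sub_eq_iff_eq_add, Finset.sum_filter, Finset.sum_filter, Finset.sum_filter, ← Finset.sum_add_distrib]
    refine Finset.sum_congr rfl fun i _ => ?_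
    by_cases h1 : i.val < a
    · have h2 : i.val < b := by omega
      have h3 : ¬ (a ≤ i.val ∧ i.val < b) := by omega
      rw [if_pos h2, if_neg h3, if_pos h1, zero_add]
    · by_cases h2 : i.val < b
      · have h3 : a ≤ i.val ∧ i.val < b := by omega
        rw [if_pos h2, if_pos h3, if_neg h1, add_zero]
      · have h3 : ¬ (a ≤ i.val ∧ i.val < b) := by omega
        rw [if_neg h2, if_neg h3, if_neg h1, add_zero]
  rw [key, key]
  refine Finset.sum_congr rfl fun i hi => ?_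
  rw [Finset.mem_filter] at hi
  rw [h i hi.2.1 hi.2.2]

theorem zt_nonneg (hβ : 0 < β) (hf : ∀ z, 0 ≤ f z) {n : ℕ} (t : ℕ) (τ : Fin n → Fin 4) :
    0 ≤ zt f β q u M t τ := by
  unfold zt
  refine mul_nonneg (mul_nonneg hβ.le (hf 0)) (Ch_nonneg (fun y => ?_) u _ (fun k y => mul_nonneg hβ.le (hf _)) _ _)
  rcases bx_zo M 0 y with e | e <;> rw [e]
  exact zero_le_one

theorem zt_le (hp : Par f f2 β q u M T m Rb lam lam2 c₀ η η₂ S g₀) {n : ℕ} (t : ℕ) (τ : Fin n → Fin 4) :
    zt f β q u M t τ ≤ β * f 0 * (2 * (lam2 ^ q)⁻¹) := by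
  have hβ := hp.hβ
  have hl2 := hp.lam2_pos
  unfold zt
  refine mul_le_mul_of_nonneg_left ?_ (mul_nonneg hβ.le (hp.f_nonneg 0))
  set mm : ℕ → V → ℝ := fun i z => β * f (z - (pos τ (t + 1 + 1 + i) - pos τ (t + 1))) with hmm
  have hA : ∀ n ≤ u, ∀ j x, Am mm n j x ≤ β * S := by
    intro n hn j x
    refine (Am_le (F := fun k y => f (y - (pos τ (t + 1 + 1 + k) - pos τ (t + 1)))) hβ.le ?_ n j x).trans ?_
    · intro k y
      rw [hmm]
      dsimp only
      rw [abs_mul, abs_of_pos hβ]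
    · exact mul_le_mul_of_nonneg_left (hp.am (fun k => pos τ (t + 1 + 1 + k) - pos τ (t + 1)) n hn j x) hβ.le
  have h1 := Ch_crude (bx_zo M 0) (m := mm) (fun k x => mul_nonneg hβ.le (hp.f_nonneg _)) hl2 u hA
    (by have := hp.lam2_a; linarith) u le_rfl 0 q 0
  simp only [zero_add] at h1
  have h2 := hA u le_rfl 0 0
  have h3 : 2 * lam2 * Am mm u 0 0 ≤ 1 := by
    have h4 := mul_le_mul_of_nonneg_left h2 hl2.le
    have := hp.lam2_a
    linarith
  rw [← div_eq_mul_inv, le_div_iff₀ (by positivity), mul_comm]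
  linarith

theorem zt_mean (hp : Par f f2 β q u M T m Rb lam lam2 c₀ η η₂ S g₀) {t : ℕ} (ht : t < T) :
    β * f 0 * (β ^ q * g₀) ≤ Ep (T + u) (fun τ => zt f β q u M t τ) := by
  unfold zt
  rw [Ep_mul]
  have h1 := Ep_Ch (bx M 0) f β (t + 1) u (T + u) (by omega) q 0
  rw [h1, G2_scale]
  have hβ := hp.hβ
  refine mul_le_mul_of_nonneg_left ?_ (mul_nonneg hβ.le (hp.f_nonneg 0))
  exact mul_le_mul_of_nonneg_left hp.g_le (by positivity)

/-- lower bound for the conditional mean -/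
theorem mean_ge (hp : Par f f2 β q u M T m Rb lam lam2 c₀ η η₂ S g₀) (z : V) (τ : Fin (T + u) → Fin 4)
    (hin : ∀ j ≤ T, z + pos τ j ∈ sq Rb) :
    ∑ t ∈ range T, zt f β q u M t τ ≤ ∑ t ∈ range T, ∑ x ∈ sq Rb, mT f β z τ t x *
      Ch (bx M x) u (fun i => mT f β z τ (t + 1 + i)) q x := by
  have hβ := hp.hβ
  refine Finset.sum_le_sum fun t ht => ?_
  rw [Finset.mem_range] at ht
  have hmn : ∀ k x, 0 ≤ mT f β z τ k x := by
    intro k x
    unfold mT
    split_ifs
    · exact mul_nonneg hβ.le (hp.f_nonneg _)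
    · exact le_rfl
  have h1 : ∀ x ∈ sq Rb, 0 ≤ mT f β z τ t x * Ch (bx M x) u (fun i => mT f β z τ (t + 1 + i)) q x := by
    intro x _
    refine mul_nonneg (hmn _ _) (Ch_nonneg (fun y => ?_) u _ (fun k y => hmn _ _) _ _)
    rcases bx_zo M x y with e | e <;> rw [e]
    exact zero_le_one
  have hx := hin (t + 1) (by omega)
  refine le_trans (le_of_eq ?_) (Finset.single_le_sum h1 hx)
  set x := z + pos τ (t + 1) with hxdef
  have e1 : mT f β z τ t x = β * f 0 := by
    unfold mT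
    rw [if_pos (by omega), hxdef, sub_self]
  rw [e1]
  unfold zt
  congr 1
  rw [bx_trans M x]
  have e2 : Ch (fun y => bx M 0 (y + -x)) u (fun i => mT f β z τ (t + 1 + i)) q x =
      Ch (fun y => bx M 0 (y + -x)) u (fun i y => (fun (i : ℕ) (y : V) =>
        β * f (y - (pos τ (t + 1 + 1 + i) - pos τ (t + 1)))) i (y + -x)) q x := by
    refine Ch_congr _ u _ _ (fun i hi => ?_) q x
    funext y
    unfold mT
    rw [if_pos (by omega)]
    dsimp only
    congr 2
    rw [hxdef]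
    have : t + 1 + i + 1 = t + 1 + 1 + i := by ring
    rw [this]
    abel
  rw [e2, Ch_shift (bx M 0) (-x) u (fun (i : ℕ) (y : V) =>
        β * f (y - (pos τ (t + 1 + 1 + i) - pos τ (t + 1)))) q x, add_neg_cancel]

theorem cel_zero {m : ℕ} (hm : 1 ≤ m) {z : V} (hz : cel m z = 0) : 0 ≤ z.1 ∧ z.1 < m ∧ 0 ≤ z.2 ∧ z.2 < m := by
  unfold cel at hz
  rw [Prod.ext_iff] at hz
  obtain ⟨h1, h2⟩ := hz
  simp only [Prod.fst_zero, Prod.snd_zero] at h1 h2
  have hm0 : (0 : ℤ) < m := by exact_mod_cast hm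
  refine ⟨?_, ?_, ?_, ?_⟩
  · by_contra h
    push_neg at h
    have := Int.ediv_neg_of_neg_of_pos h hm0
    omega
  · by_contra h
    push_neg at h
    have : (1 : ℤ) ≤ z.1 / m := by
      rw [Int.le_ediv_iff_mul_le hm0]
      linarith
    omega
  · by_contra h
    push_neg at h
    have := Int.ediv_neg_of_neg_of_pos h hm0
    omega
  · by_contra h
    push_neg at h
    have : (1 : ℤ) ≤ z.2 / m := by
      rw [Int.le_ediv_iff_mul_le hm0]
      linarith
    omega

/-- Chebyshev -/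
theorem cheb {Ω : Type*} [MeasurableSpace Ω] {P : Measure Ω} [IsProbabilityMeasure P] {X : Ω → ℝ} (hX : MemLp X 2 P)
    (a : ℝ) {v : ℝ} (hv : 0 < v) {Q : ℝ} (hQ : ∫ o, (X o - a) ^ 2 ∂P ≤ Q) {s : Set Ω} (hs : MeasurableSet s)
    (hsv : ∀ o ∈ s, v ≤ |X o - a|) : P.real s ≤ Q / v ^ 2 := by
  have hi : Integrable (fun o => (X o - a) ^ 2) P := (hX.sub (memLp_const a)).integrable_sq
  rw [le_div_iff₀ (by positivity)]
  refine le_trans ?_ hQ
  have h1 : P.real s * v ^ 2 = ∫ o, s.indicator (fun _ => v ^ 2) o ∂P := by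
    rw [integral_indicator_const _ hs, smul_eq_mul]
  rw [h1]
  refine integral_mono ((integrable_const _).indicator hs) hi fun o => ?_
  by_cases ho : o ∈ s
  · rw [Set.indicator_of_mem ho]
    have := hsv o ho
    rw [← sq_abs (X o - a)]
    exact pow_le_pow_left₀ hv.le this 2
  · rw [Set.indicator_of_notMem ho]
    positivity

/-- the threshold -/
noncomputable def vv (f : V → ℝ) (β : ℝ) (q T : ℕ) (g₀ : ℝ) : ℝ := T * (β * f 0 * (β ^ q * g₀)) / 4

theorem vv_pos (hp : Par f f2 β q u M T m Rb lam lam2 c₀ η η₂ S g₀) : 0 < vv f β q T g₀ := by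
  unfold vv
  have h1 := hp.hβ
  have h2 := hp.f_zero
  have h3 := hp.g_pos
  have h4 : (0 : ℝ) < T := by exact_mod_cast hp.hT
  positivity

theorem Xs_local (B₀ : Finset V) (T u q M Rb : ℕ) {w w' : ℕ → V → ℝ} (hw : ∀ k < T + u, w k = w' k) :
    Xs B₀ T u q M Rb w = Xs B₀ T u q M Rb w' := by
  unfold Xs XX
  refine Finset.sum_congr rfl fun t ht => Finset.sum_congr rfl fun x _ => ?_
  rw [Finset.mem_range] at ht
  rw [hw t (by omega)]
  congr 1
  refine Ch_congr _ u _ _ (fun i hi => ?_) q x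
  rw [hw (t + 1 + i) (by omega)]

/-- the one-block estimate with explicit parameters -/
theorem blk (hSM : S_SM) (hV : S_SM → S_VAR) (hT : S_TILT) (hSZ : S_SIZE) (hLLN : S_LLN) (hγ : GS γ h)
    (hB : B₀.Nonempty) (hf : f = ht B₀ h) (hf2 : f2 = hb B₀ h)
    (hp : Par f f2 β q u M T m Rb lam lam2 c₀ η η₂ S g₀) (hm : 1 ≤ m) (hmR : m ≤ Rb) {θ₁ θ₂ : ℝ}
    (hθ₁ : 0 ≤ θ₁) (hθ₂ : 0 ≤ θ₂) :
    MeasurableSet {w : ℕ → V → ℝ | vv f β q T g₀ ≤ Xs B₀ T u q M Rb w} ∧
    (PP γ).real {w | vv f β q T g₀ ≤ Xs B₀ T u q M Rb w} ≤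
      2 * (T * ((sq Rb).card * S * Γ₁ lam c₀ q)) / (vv f β q T g₀) ^ 2 ∧
    ∀ z : V, cel m z = 0 → ∫ w, ({w | vv f β q T g₀ ≤ Xs B₀ T u q M Rb w}ᶜ).indicator (fun _ => (1 : ℝ)) w *
      W β (T + u) w z ∂(PP γ) ≤
      (T + 1) * (4 * Real.exp (-(θ₁ * ((Rb : ℝ) - m)) + T * (θ₁ ^ 2 / 2))) +
      T * ((u + 1) * (4 * Real.exp (-(θ₂ * M) + u * (θ₂ ^ 2 / 2)))) +
      8 * (u + 1) * (β * f 0 * (2 * (lam2 ^ q)⁻¹)) ^ 2 / (T * (β * f 0 * (β ^ q * g₀)) ^ 2) +
      Vb β u T M Rb q lam lam2 c₀ S / (vv f β q T g₀) ^ 2 := by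
  classical
  have hpr : IsProbabilityMeasure γ := hγ.prob
  have hprP : IsProbabilityMeasure (PP γ) := by unfold PP; infer_instance
  have hβ := hp.hβ
  have hv := vv_pos hp
  obtain ⟨hXm, hX2, hXv⟩ := var_PP hSM hV hT hγ hB hf2 hp
  set v := vv f β q T g₀ with hvdef
  have hAm : MeasurableSet {w : ℕ → V → ℝ | v ≤ Xs B₀ T u q M Rb w} := measurableSet_le measurable_const hXm
  refine ⟨hAm, ?_, ?_⟩
  · refine cheb hX2 0 hv (by simpa using hXv) hAm ?_
    intro w hw
    rw [sub_zero]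
    exact le_trans hw (le_abs_self _)
  · intro z hz
    obtain ⟨z1, z2, z3, z4⟩ := cel_zero hm hz
    set F : (ℕ → V → ℝ) → ℝ := ({w | v ≤ Xs B₀ T u q M Rb w}ᶜ).indicator (fun _ => (1 : ℝ)) with hF
    have hFm : Measurable F := measurable_const.indicator hAm.compl
    have hFb : ∀ w, |F w| ≤ 1 := by
      intro w
      rw [hF]
      by_cases hw : w ∈ {w | v ≤ Xs B₀ T u q M Rb w}ᶜ
      · rw [Set.indicator_of_mem hw, abs_one]
      · rw [Set.indicator_of_notMem hw, abs_zero]; exact zero_le_one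
    have h1 := ((hSZ.2 γ h hγ β (T + u) z (fun _ => 1) F hFm ⟨1, hFb⟩)).2
    have h2 : ∫ w, F w * W β (T + u) w z ∂(PP γ) = Ep (T + u) (fun τ => ∫ w, F w ∂(PT γ β z τ)) := by
      rw [show (fun w => F w * W β (T + u) w z) = fun w => F w * K (T + u) (wt β w) (fun _ => 1) z from rfl, h1]
      unfold Ep
      simp only [one_mul]
    rw [h2]
    set zb := β * f 0 * (β ^ q * g₀) with hzb
    have hzb0 : 0 < zb := by
      have h2 := hp.f_zero
      have h3 := hp.g_pos
      positivity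
    have hv4 : v = T * zb / 4 := rfl
    -- pointwise bound
    have hpt : ∀ τ : Fin (T + u) → Fin 4, ∫ w, F w ∂(PT γ β z τ) ≤
        ∑ j ∈ range (T + 1), (if Out ((Rb : ℝ) - m) (pos τ (0 + j) - pos τ 0) then (1 : ℝ) else 0) +
        ∑ t ∈ range T, ∑ i ∈ range (u + 1), (if Out M (pos τ (t + 1 + i) - pos τ (t + 1)) then (1 : ℝ) else 0) +
        (if ∑ t ∈ range T, zt f β q u M t τ ≤ T * zb / 2 then (1 : ℝ) else 0) +
        Vb β u T M Rb q lam lam2 c₀ S / v ^ 2 := by
      intro τ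
      have hs := Sl_PT hT hγ hB hf hf2 β z τ
      have hprν := hs.prob
      have hPT : IsProbabilityMeasure (PT γ β z τ) := by
        unfold PT
        infer_instance
      have hF1 : ∫ w, F w ∂(PT γ β z τ) = (PT γ β z τ).real {w | v ≤ Xs B₀ T u q M Rb w}ᶜ := by
        rw [hF, integral_indicator_const _ hAm.compl, smul_eq_mul, mul_one]
      have hF1' : ∫ w, F w ∂(PT γ β z τ) ≤ 1 := by
        rw [hF1]
        exact measureReal_le_one
      have n1 : 0 ≤ ∑ j ∈ range (T + 1), (if Out ((Rb : ℝ) - m) (pos τ (0 + j) - pos τ 0) then (1 : ℝ) else 0) :=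
        Finset.sum_nonneg fun j _ => by split_ifs <;> norm_num
      have n2 : 0 ≤ ∑ t ∈ range T, ∑ i ∈ range (u + 1),
          (if Out M (pos τ (t + 1 + i) - pos τ (t + 1)) then (1 : ℝ) else 0) :=
        Finset.sum_nonneg fun t _ => Finset.sum_nonneg fun i _ => by split_ifs <;> norm_num
      have n3 : (0 : ℝ) ≤ (if ∑ t ∈ range T, zt f β q u M t τ ≤ T * zb / 2 then (1 : ℝ) else 0) := by
        split_ifs <;> norm_num
      have hVb : 0 ≤ Vb β u T M Rb q lam lam2 c₀ S := by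
        unfold Vb Γ₁ Γ₂
        have a1 := hp.c_pos
        have a2 := hp.lam_pos
        have a3 := hp.lam2_pos
        have a4 : 0 < S := by linarith [hp.hS]
        positivity
      have n4 : 0 ≤ Vb β u T M Rb q lam lam2 c₀ S / v ^ 2 := by positivity
      by_cases c1 : ∃ j ≤ T, Out ((Rb : ℝ) - m) (pos τ (0 + j) - pos τ 0)
      · obtain ⟨j, hj, hj2⟩ := c1
        have h3 : (1 : ℝ) ≤ ∑ j ∈ range (T + 1), (if Out ((Rb : ℝ) - m) (pos τ (0 + j) - pos τ 0) then (1 : ℝ) else 0) := by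
          have h4 : ∀ j ∈ range (T + 1), (0 : ℝ) ≤ (if Out ((Rb : ℝ) - m) (pos τ (0 + j) - pos τ 0) then (1 : ℝ) else 0) :=
            fun j _ => by split_ifs <;> norm_num
          refine le_trans ?_ (Finset.single_le_sum h4 (Finset.mem_range.2 (by omega : j < T + 1)))
          rw [if_pos hj2]
        linarith
      by_cases c2 : ∃ t < T, ∃ i ≤ u, Out M (pos τ (t + 1 + i) - pos τ (t + 1))
      · obtain ⟨t, ht, i, hi, ho⟩ := c2
        have h3 : (1 : ℝ) ≤ ∑ t ∈ range T, ∑ i ∈ range (u + 1),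
            (if Out M (pos τ (t + 1 + i) - pos τ (t + 1)) then (1 : ℝ) else 0) := by
          have h4 : ∀ t ∈ range T, (0 : ℝ) ≤ ∑ i ∈ range (u + 1),
              (if Out M (pos τ (t + 1 + i) - pos τ (t + 1)) then (1 : ℝ) else 0) :=
            fun t _ => Finset.sum_nonneg fun i _ => by split_ifs <;> norm_num
          have h5 : ∀ i ∈ range (u + 1), (0 : ℝ) ≤ (if Out M (pos τ (t + 1 + i) - pos τ (t + 1)) then (1 : ℝ) else 0) :=
            fun i _ => by split_ifs <;> norm_num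
          refine le_trans ?_ (Finset.single_le_sum h4 (Finset.mem_range.2 ht))
          refine le_trans ?_ (Finset.single_le_sum h5 (Finset.mem_range.2 (by omega : i < u + 1)))
          rw [if_pos ho]
        linarith
      by_cases c3 : ∑ t ∈ range T, zt f β q u M t τ ≤ T * zb / 2
      · rw [if_pos c3]
        linarith
      -- good path
      have hg2 : ∀ t < T, ∀ i ≤ u, ¬ Out M (pos τ (t + 1 + i) - pos τ (t + 1)) :=
        fun t ht i hi ho => c2 ⟨t, ht, i, hi, ho⟩
      have hin : ∀ j ≤ T, z + pos τ j ∈ sq Rb := by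
        intro j hj
        have h3 : ¬ Out ((Rb : ℝ) - m) (pos τ (0 + j) - pos τ 0) := fun ho => c1 ⟨j, hj, ho⟩
        rw [pos_zero, sub_zero, zero_add] at h3
        unfold Out at h3
        rw [not_or, not_le, not_le] at h3
        have h4 : |((pos τ j).1 : ℤ)| < (Rb : ℤ) - m := by
          have := h3.1
          exact_mod_cast this
        have h5 : |((pos τ j).2 : ℤ)| < (Rb : ℤ) - m := by
          have := h3.2
          exact_mod_cast this
        rw [mem_sq]
        simp only [Prod.fst_add, Prod.snd_add, abs_le, abs_lt] at *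
        omega
      obtain ⟨g1, g2, g3⟩ := var_PT hSM hV hT hγ hB hf hf2 hp z τ hin hg2
      have g4 := mean_ge hp z τ hin
      set μ := ∑ t ∈ range T, ∑ x ∈ sq Rb, mT f β z τ t x * Ch (bx M x) u (fun i => mT f β z τ (t + 1 + i)) q x with hμ
      have g5 : (PT γ β z τ).real {w | v ≤ Xs B₀ T u q M Rb w}ᶜ ≤ Vb β u T M Rb q lam lam2 c₀ S / v ^ 2 := by
        refine cheb g1 μ hv g3 hAm.compl ?_
        intro w hw
        have h6 : Xs B₀ T u q M Rb w < v := by
          have : ¬ (v ≤ Xs B₀ T u q M Rb w) := hw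
          exact not_le.1 this
        rw [abs_sub_comm]
        refine le_trans ?_ (le_abs_self _)
        rw [not_le] at c3
        rw [hv4] at h6 ⊢
        linarith
      rw [hF1]
      linarith
    refine (Ep_mono hpt).trans ?_
    rw [Ep_add, Ep_add, Ep_add, Ep_const, Ep_sum, Ep_sum]
    have b1 : ∑ j ∈ range (T + 1), Ep (T + u) (fun τ => if Out ((Rb : ℝ) - m) (pos τ (0 + j) - pos τ 0) then (1 : ℝ) else 0) ≤
        (T + 1) * (4 * Real.exp (-(θ₁ * ((Rb : ℝ) - m)) + T * (θ₁ ^ 2 / 2))) := by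
      have h3 : ∀ j ∈ range (T + 1), Ep (T + u) (fun τ => if Out ((Rb : ℝ) - m) (pos τ (0 + j) - pos τ 0) then (1 : ℝ) else 0) ≤
          4 * Real.exp (-(θ₁ * ((Rb : ℝ) - m)) + T * (θ₁ ^ 2 / 2)) := by
        intro j hj
        rw [Finset.mem_range] at hj
        refine (tail_incr hθ₁ 0 j (T + u) (by omega)).trans ?_
        refine mul_le_mul_of_nonneg_left (Real.exp_le_exp.2 ?_) (by norm_num)
        have : (j : ℝ) ≤ T := by exact_mod_cast (by omega : j ≤ T)
        have h4 : (j : ℝ) * (θ₁ ^ 2 / 2) ≤ T * (θ₁ ^ 2 / 2) := mul_le_mul_of_nonneg_right this (by positivity)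
        linarith
      have h4 := Finset.sum_le_sum h3
      rw [Finset.sum_const, nsmul_eq_mul, Finset.card_range] at h4
      push_cast at h4
      exact h4
    have b2 : ∑ t ∈ range T, Ep (T + u) (fun τ => ∑ i ∈ range (u + 1),
        (if Out M (pos τ (t + 1 + i) - pos τ (t + 1)) then (1 : ℝ) else 0)) ≤
        T * ((u + 1) * (4 * Real.exp (-(θ₂ * M) + u * (θ₂ ^ 2 / 2)))) := by
      have h3 : ∀ t ∈ range T, Ep (T + u) (fun τ => ∑ i ∈ range (u + 1),
          (if Out M (pos τ (t + 1 + i) - pos τ (t + 1)) then (1 : ℝ) else 0)) ≤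
          (u + 1) * (4 * Real.exp (-(θ₂ * M) + u * (θ₂ ^ 2 / 2))) := by
        intro t ht
        rw [Finset.mem_range] at ht
        rw [Ep_sum]
        have h4 : ∀ i ∈ range (u + 1), Ep (T + u) (fun τ => if Out M (pos τ (t + 1 + i) - pos τ (t + 1)) then (1 : ℝ) else 0) ≤
            4 * Real.exp (-(θ₂ * M) + u * (θ₂ ^ 2 / 2)) := by
          intro i hi
          rw [Finset.mem_range] at hi
          refine (tail_incr hθ₂ (t + 1) i (T + u) (by omega)).trans ?_
          refine mul_le_mul_of_nonneg_left (Real.exp_le_exp.2 ?_) (by norm_num)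
          have : (i : ℝ) ≤ u := by exact_mod_cast (by omega : i ≤ u)
          have h4 : (i : ℝ) * (θ₂ ^ 2 / 2) ≤ u * (θ₂ ^ 2 / 2) := mul_le_mul_of_nonneg_right this (by positivity)
          linarith
        have h5 := Finset.sum_le_sum h4
        rw [Finset.sum_const, nsmul_eq_mul, Finset.card_range] at h5
        push_cast at h5
        exact h5
      have h4 := Finset.sum_le_sum h3
      rw [Finset.sum_const, nsmul_eq_mul, Finset.card_range] at h4
      exact h4
    have b3 : Ep (T + u) (fun τ => if ∑ t ∈ range T, zt f β q u M t τ ≤ T * zb / 2 then (1 : ℝ) else 0) ≤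
        8 * (u + 1) * (β * f 0 * (2 * (lam2 ^ q)⁻¹)) ^ 2 / (T * zb ^ 2) := by
      rw [← card_eq_Ep]
      have h3 := hLLN (T + u) (u + 1) T (by omega) (by omega) hp.hT (fun t τ => zt f β q u M t τ)
        (β * f 0 * (2 * (lam2 ^ q)⁻¹)) zb hzb0 ?_ ?_ ?_
      · push_cast at h3
        refine le_trans ?_ h3
        exact le_of_eq rfl
      · intro t ht τ τ' hττ
        unfold zt
        congr 1
        refine Ch_congr _ u _ _ (fun i hi => ?_) q 0
        funext y
        rw [pos_congr (τ := τ) (τ' := τ') (by omega : t + 1 ≤ t + 1 + 1 + i)]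
        intro k hk1 hk2
        exact hττ k (by omega) (by omega)
      · intro t ht τ
        exact ⟨zt_nonneg hβ hp.f_nonneg t τ, zt_le hp t τ⟩
      · intro t ht
        exact zt_mean hp ht
    have := add_le_add (add_le_add b1 b2) b3
    linarith

end Pool.Agent.H964.DP
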