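import Pool.Agent.H964.DP.Blk3

/-! # Project DP: bounds needed for the choice of the parameters -/

set_option autoImplicit false

open MeasureTheory ProbabilityTheory Filter Finset

namespace Pool.Agent.H964.DP

theorem harm_le : ∀ n : ℕ, ∑ i ∈ range n, (1 : ℝ) / (i + 2) ≤ Real.log (n + 1)
  | 0 => by simp
  | n + 1 => by
    rw [Finset.sum_range_succ]
    have h1 := harm_le n
    have h2 : (0 : ℝ) < (n + 2) / (n + 1) := by positivity
    have h3 := Real.one_sub_inv_le_log_of_pos h2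
    rw [Real.log_div (by positivity) (by positivity), inv_div] at h3
    have h4 : 1 - ((n : ℝ) + 1) / (n + 2) = 1 / (n + 2) := by
      field_simp
      ring
    rw [h4] at h3
    push_cast
    have h5 : (n : ℝ) + 1 + 1 = n + 2 := by ring
    rw [h5]
    linarith

theorem sums_bd (hG : S_GREEN) (hLC : S_LCLT) {h : V → ℝ} {C : ℝ} {A : ℕ} (hh : LB h C A) :
    ∃ (C' : ℝ) (A' : ℕ), 1 ≤ C' ∧ ∀ N : ℕ,
      (∀ z, |h z| ≤ C' * (1 + Real.log (1 + N)) ^ A') ∧
      (∀ σ : ℕ → V, ∀ n ≤ N, ∀ j x, Am (fun k y => h (y - σ k)) n j x ≤ C' * (1 + Real.log (1 + N)) ^ A') ∧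
      (∀ n ≤ N, ∀ x, Cm h n x ≤ C' * (1 + Real.log (1 + N)) ^ A') ∧
      (∀ F : Finset V, (∀ y ∈ F, |y.1| ≤ N ∧ |y.2| ≤ N) → ∑ y ∈ F, |h y| ≤ C' * (1 + Real.log (1 + N)) ^ A') := by
  obtain ⟨C₁, hC₁, h1, h2⟩ := hG hLC h C A hh
  refine ⟨max 1 (C₁ * 2 ^ (A + 1)), A + 2, le_max_left _ _, fun N => ?_⟩
  set C' := max 1 (C₁ * 2 ^ (A + 1)) with hC'
  have hC'1 : C₁ * 2 ^ (A + 1) ≤ C' := le_max_right _ _
  have hp1 : (1 : ℝ) ≤ 2 ^ (A + 1) := one_le_pow₀ (by norm_num)
  have hC'2 : C₁ ≤ C' := by nlinarith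
  have hC'0 : 0 < C' := by linarith
  set Λ := 1 + Real.log (1 + N) with hΛ
  have hΛ1 : 1 ≤ Λ := by
    have : 0 ≤ Real.log (1 + (N : ℝ)) := Real.log_nonneg (by have : (0 : ℝ) ≤ N := Nat.cast_nonneg N; linarith)
    linarith
  have hpw : 1 ≤ Λ ^ (A + 2) := one_le_pow₀ hΛ1
  have hpw1 : Λ ^ (A + 1) ≤ Λ ^ (A + 2) := pow_le_pow_right₀ hΛ1 (by omega)
  have hharm : ∀ n ≤ N, ∑ i ∈ range n, (1 : ℝ) / (i + 2) ≤ Λ := by
    intro n hn
    refine (harm_le n).trans ?_
    have : Real.log ((n : ℝ) + 1) ≤ Real.log (1 + N) := by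
      refine Real.log_le_log (by positivity) ?_
      have : (n : ℝ) ≤ N := by exact_mod_cast hn
      linarith
    linarith
  refine ⟨?_, ?_, ?_, ?_⟩
  · intro z
    have h3 := h1 0 z 0
    simp only [Nat.cast_zero, add_zero, Real.log_one, one_pow, mul_one, zero_add, div_one] at h3
    have h4 : Pn 0 (fun y : V => |h (y - 0)|) z = |h z| := by
      show |h (z - 0)| = |h z|
      rw [sub_zero]
    rw [h4] at h3
    calc |h z| ≤ C' * 1 := by linarith
      _ ≤ C' * Λ ^ (A + 2) := mul_le_mul_of_nonneg_left hpw hC'0.le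
  · intro σ n hn j x
    rw [Am_eq]
    have h3 : ∀ i ∈ range n, Pn (i + 1) (fun y => |(fun k y => h (y - σ k)) (j + i) y|) x ≤
        C₁ * Λ ^ (A + 1) * (1 / (i + 2)) := by
      intro i hi
      rw [Finset.mem_range] at hi
      refine (h1 (i + 1) x (σ (j + i))).trans ?_
      push_cast
      have e1 : (i : ℝ) + 1 + 1 = i + 2 := by ring
      rw [e1, mul_one_div]
      refine div_le_div_of_nonneg_right ?_ (by positivity)
      refine mul_le_mul_of_nonneg_left ?_ hC₁.le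
      refine pow_le_pow_left₀ ?_ ?_ _
      · have : 0 ≤ Real.log (1 + ((i : ℝ) + 1)) := Real.log_nonneg (by have : (0 : ℝ) ≤ i := Nat.cast_nonneg i; linarith)
        linarith
      · rw [hΛ]
        have : Real.log (1 + ((i : ℝ) + 1)) ≤ Real.log (1 + N) := by
          refine Real.log_le_log (by positivity) ?_
          have : ((i + 1 : ℕ) : ℝ) ≤ N := by exact_mod_cast (by omega : i + 1 ≤ N)
          push_cast at this
          linarith
        linarith
    refine (Finset.sum_le_sum h3).trans ?_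
    rw [← Finset.mul_sum]
    calc C₁ * Λ ^ (A + 1) * ∑ i ∈ range n, (1 : ℝ) / (i + 2) ≤ C₁ * Λ ^ (A + 1) * Λ :=
          mul_le_mul_of_nonneg_left (hharm n hn) (by positivity)
      _ = C₁ * Λ ^ (A + 2) := by ring
      _ ≤ C' * Λ ^ (A + 2) := mul_le_mul_of_nonneg_right hC'2 (by positivity)
  · intro n hn x
    rw [Cm_eq]
    have h3 : ∀ i ∈ range n, Pn (2 * (i + 1)) (fun y => |h y|) x ≤ C₁ * (2 * Λ) ^ (A + 1) * (1 / (i + 2)) := by
      intro i hi
      rw [Finset.mem_range] at hi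
      have h4 := h1 (2 * (i + 1)) x 0
      simp only [sub_zero] at h4
      refine h4.trans ?_
      push_cast
      rw [mul_one_div]
      refine div_le_div₀ (by positivity) ?_ (by positivity) (by have : (0 : ℝ) ≤ i := Nat.cast_nonneg i; linarith)
      refine mul_le_mul_of_nonneg_left ?_ hC₁.le
      refine pow_le_pow_left₀ ?_ ?_ _
      · have : 0 ≤ Real.log (1 + 2 * ((i : ℝ) + 1)) :=
          Real.log_nonneg (by have : (0 : ℝ) ≤ i := Nat.cast_nonneg i; linarith)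
        linarith
      · have h5 : Real.log (1 + 2 * ((i : ℝ) + 1)) ≤ Real.log (2 * (1 + N)) := by
          refine Real.log_le_log (by positivity) ?_
          have : ((i + 1 : ℕ) : ℝ) ≤ N := by exact_mod_cast (by omega : i + 1 ≤ N)
          push_cast at this
          linarith
        rw [Real.log_mul (by norm_num) (by positivity)] at h5
        have h6 := Real.log_two_lt_d9
        rw [hΛ]
        have h7 : 0 ≤ Real.log (1 + (N : ℝ)) := Real.log_nonneg (by have : (0 : ℝ) ≤ N := Nat.cast_nonneg N; linarith)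
        linarith
    refine (Finset.sum_le_sum h3).trans ?_
    rw [← Finset.mul_sum]
    calc C₁ * (2 * Λ) ^ (A + 1) * ∑ i ∈ range n, (1 : ℝ) / (i + 2) ≤ C₁ * (2 * Λ) ^ (A + 1) * Λ :=
          mul_le_mul_of_nonneg_left (hharm n hn) (by positivity)
      _ = C₁ * 2 ^ (A + 1) * Λ ^ (A + 2) := by rw [mul_pow]; ring
      _ ≤ C' * Λ ^ (A + 2) := mul_le_mul_of_nonneg_right hC'1 (by positivity)
  · intro F hF
    refine (h2 N F hF).trans ?_
    calc C₁ * Λ ^ (A + 1) ≤ C' * Λ ^ (A + 2) := mul_le_mul hC'2 hpw1 (by positivity) hC'0.le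

theorem log_pow_le {s : ℝ} (hs : 0 < s) (A : ℕ) : ∃ C : ℝ, 1 ≤ C ∧ ∀ x : ℝ, 1 ≤ x → (1 + Real.log x) ^ A ≤ C * x ^ s := by
  set r := s / (A + 1) with hr
  have hr0 : 0 < r := by positivity
  have hi : 0 < 1 / r := by positivity
  refine ⟨(1 + 1 / r) ^ A, one_le_pow₀ (by linarith), fun x hx => ?_⟩
  have h1 : Real.log x ≤ x ^ r / r := Real.log_le_rpow_div (by linarith) hr0
  have h2 : 1 ≤ x ^ r := Real.one_le_rpow hx hr0.le
  have h3 : 1 + Real.log x ≤ (1 + 1 / r) * x ^ r := by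
    have : (1 + 1 / r) * x ^ r = x ^ r + x ^ r / r := by ring
    rw [this]
    linarith
  have h4 : 0 ≤ Real.log x := Real.log_nonneg hx
  calc (1 + Real.log x) ^ A ≤ ((1 + 1 / r) * x ^ r) ^ A := pow_le_pow_left₀ (by linarith) h3 A
    _ = (1 + 1 / r) ^ A * (x ^ r) ^ A := mul_pow _ _ _
    _ ≤ (1 + 1 / r) ^ A * x ^ s := by
      refine mul_le_mul_of_nonneg_left ?_ (by positivity)
      rw [← Real.rpow_natCast (x ^ r) A, ← Real.rpow_mul (by linarith)]
      refine Real.rpow_le_rpow_of_exponent_le hx ?_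
      rw [hr, div_mul_eq_mul_div, div_le_iff₀ (by positivity)]
      nlinarith

theorem far_bd {h : V → ℝ} {C : ℝ} {A : ℕ} (hh : LB h C A) {s : ℝ} (hs : 0 < s) (hs1 : s < 1) :
    ∃ C' : ℝ, 1 ≤ C' ∧ ∀ (z : V) (Y : ℝ), 1 ≤ Y → Y ≤ ns z → |h z| ≤ C' * Y ^ (-(1 - s)) := by
  obtain ⟨C₂, hC₂, h2⟩ := log_pow_le hs A
  refine ⟨max 1 (|C| * C₂), le_max_left _ _, fun z Y hY hz => ?_⟩
  have h0 : 0 ≤ ns z := by linarith
  have h1 := hh z
  have h3 := h2 (1 + ns z) (by linarith)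
  have hx : 0 < 1 + ns z := by linarith
  have hl : 0 ≤ (1 + Real.log (1 + ns z)) ^ A := by
    have : 0 ≤ Real.log (1 + ns z) := Real.log_nonneg (by linarith)
    positivity
  calc |h z| ≤ C * (1 + Real.log (1 + ns z)) ^ A / (1 + ns z) := h1
    _ ≤ |C| * (C₂ * (1 + ns z) ^ s) / (1 + ns z) := by
      refine div_le_div_of_nonneg_right ?_ hx.le
      calc C * (1 + Real.log (1 + ns z)) ^ A ≤ |C| * (1 + Real.log (1 + ns z)) ^ A :=
            mul_le_mul_of_nonneg_right (le_abs_self C) hl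
        _ ≤ _ := mul_le_mul_of_nonneg_left h3 (abs_nonneg C)
    _ = |C| * C₂ * (1 + ns z) ^ (-(1 - s)) := by
      rw [show -(1 - s) = s - 1 by ring, Real.rpow_sub hx, Real.rpow_one]
      ring
    _ ≤ |C| * C₂ * Y ^ (-(1 - s)) := by
      refine mul_le_mul_of_nonneg_left ?_ (by positivity)
      exact Real.rpow_le_rpow_of_nonpos (by linarith) (by linarith) (by linarith)
    _ ≤ max 1 (|C| * C₂) * Y ^ (-(1 - s)) := mul_le_mul_of_nonneg_right (le_max_right _ _) (by positivity)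

end Pool.Agent.H964.DP
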