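import Pool.Agent.H964.DP.Blk4

/-! # Project DP: the lower bound for the mean of the chains -/

set_option autoImplicit false

open MeasureTheory ProbabilityTheory Filter Finset

namespace Pool.Agent.H964.DP

theorem Pn_sum {ι : Type*} (s : Finset ι) (g : ι → V → ℝ) : ∀ (n : ℕ) (x : V),
    Pn n (fun y => ∑ z ∈ s, g z y) x = ∑ z ∈ s, Pn n (g z) x
  | 0, x => rfl
  | n + 1, x => by
    have h1 : Pn n (fun y => ∑ z ∈ s, g z y) = fun y => ∑ z ∈ s, Pn n (g z) y := funext (Pn_sum s g n)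
    show avg (Pn n (fun y => ∑ z ∈ s, g z y)) x = _
    rw [h1, avg_sum]
    rfl

theorem abs_le_of_ns {z : V} {R : ℝ} (hR : 0 ≤ R) (h : ns z ≤ R ^ 2) : |(z.1 : ℝ)| ≤ R ∧ |(z.2 : ℝ)| ≤ R := by
  unfold ns at h
  constructor
  · refine abs_le_of_sq_le_sq ?_ hR
    nlinarith [sq_nonneg (z.2 : ℝ)]
  · refine abs_le_of_sq_le_sq ?_ hR
    nlinarith [sq_nonneg (z.1 : ℝ)]

/-- mass of a compactly supported function at time `2 n'` -/
theorem Pn_supp (hLC : S_LCLT) {φ : V → ℝ} {L : ℝ} (hφ : ∀ z, 0 ≤ φ z ∧ φ z ≤ 1)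
    (hs : ∀ z, φ z ≠ 0 → ns z ≤ Real.exp (2 * L)) (n : ℕ) (x : V) :
    Pn n φ x ≤ (2 * Real.exp L + 1) ^ 2 * (4 / (n + 1)) := by
  set R := ⌊Real.exp L⌋₊ with hR
  have hRle : (R : ℝ) ≤ Real.exp L := Nat.floor_le (Real.exp_pos _).le
  have h1 : ∀ y, φ y ≤ ∑ z ∈ sq R, (if y = z then (1 : ℝ) else 0) := by
    intro y
    by_cases hy : φ y = 0
    · rw [hy]
      exact Finset.sum_nonneg fun z _ => by split_ifs <;> norm_num
    · have h2 := hs y hy
      have e1 : Real.exp (2 * L) = Real.exp L ^ 2 := by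
        rw [← Real.exp_nat_mul]
        norm_num
      rw [e1] at h2
      obtain ⟨a1, a2⟩ := abs_le_of_ns (Real.exp_pos _).le h2
      have hmem : y ∈ sq R := by
        rw [mem_sq]
        constructor
        · have h3 : |y.1| ≤ (⌊Real.exp L⌋₊ : ℤ) := by
            rw [Int.natCast_floor_eq_floor (Real.exp_pos _).le, Int.le_floor]
            push_cast
            exact a1
          exact h3
        · have h3 : |y.2| ≤ (⌊Real.exp L⌋₊ : ℤ) := by
            rw [Int.natCast_floor_eq_floor (Real.exp_pos _).le, Int.le_floor]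
            push_cast
            exact a2
          exact h3
      rw [Finset.sum_ite_eq (sq R) y, if_pos hmem]
      exact (hφ y).2
  refine (Pn_mono h1 n x).trans ?_
  rw [Pn_sum]
  have h3 : ∀ z ∈ sq R, Pn n (fun y => if y = z then (1 : ℝ) else 0) x ≤ 4 / (n + 1) := fun z _ => hLC n x z
  refine (Finset.sum_le_sum h3).trans ?_
  rw [Finset.sum_const, nsmul_eq_mul, card_sq]
  push_cast
  refine mul_le_mul_of_nonneg_right ?_ (by positivity)
  refine pow_le_pow_left₀ (by positivity) (by linarith) 2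

theorem bx_zero_out {M : ℕ} {x : V} (h : bx M 0 x = 0) : (M : ℝ) ≤ |(x.1 : ℝ)| ∨ (M : ℝ) ≤ |(x.2 : ℝ)| := by
  unfold bx at h
  by_cases h1 : |x.1 - (0 : V).1| ≤ M ∧ |x.2 - (0 : V).2| ≤ M
  · rw [if_pos h1] at h
    norm_num at h
  · simp only [Prod.fst_zero, Prod.snd_zero, sub_zero] at h1
    rw [not_and_or, not_le, not_le] at h1
    rcases h1 with h1 | h1
    · left
      have : (M : ℤ) ≤ |x.1| := h1.le
      exact_mod_cast this
    · right
      have : (M : ℤ) ≤ |x.2| := h1.le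
      exact_mod_cast this

theorem g_low (hLC : S_LCLT) {f φ : V → ℝ} (hf : ∀ z, 0 ≤ f z) {S κ L : ℝ} (hS : 1 ≤ S) (hfS : ∀ z, f z ≤ S)
    (hκ : 0 < κ) (hκ1 : κ ≤ 1) (hφ : ∀ z, 0 ≤ φ z ∧ φ z ≤ 1)
    (hs : ∀ z, φ z ≠ 0 → ns z ≤ Real.exp (2 * L)) (hφ0 : 1 / 4 ≤ φ 0)
    (hsub : ∀ z, φ z ≤ avg (avg (fun y => (1 + κ * f y) * φ y)) z) {n' q M : ℕ} (hn : 1 ≤ n') (hq : 1 ≤ q)
    (hCm : ∀ x, Cm f n' x ≤ S)
    (ha : (2 * Real.exp L + 1) ^ 2 * (4 / (2 * n' + 1)) * (q * S ^ q) ≤ 1 / 16)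
    (hb : (1 + S) ^ q * (((q * n' : ℕ) : ℝ) + 1) ^ q * ((1 + S) * (((q * n' : ℕ) : ℝ) + 1)) ^ (q + 1) *
      (4 * Real.exp (-((M : ℝ) ^ 2 / (2 * ((q * n' : ℕ) : ℝ))))) ≤ 1 / 16) :
    (κ ^ q)⁻¹ / 8 ≤ G2 (bx M 0) f (q * n') q 0 0 := by
  set u := q * n' with hu
  have hu1 : 1 ≤ u := Nat.mul_pos hq hn
  have hu0 : (0 : ℝ) < u := by exact_mod_cast hu1
  have habs : (fun y => |f y|) = f := funext fun y => abs_of_nonneg (hf y)
  have h1 := Gr_low hf hκ (fun z => (hφ z).1) (fun z => (hφ z).2) hsub (n' := n')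
    (η := (2 * Real.exp L + 1) ^ 2 * (4 / (2 * n' + 1))) (G := S) (by positivity) hS
    (fun r => by
      have := Pn_supp hLC hφ hs (2 * n') r
      push_cast at this
      exact this)
    (fun r => by
      have h2 := hCm r
      rw [Cm_eq, habs] at h2
      have h3 : 0 ≤ ∑ i ∈ range n', Pn (2 * (i + 1)) f r :=
        Finset.sum_nonneg fun i _ => Pn_nonneg hf _ _
      calc κ * ∑ i ∈ range n', Pn (2 * (i + 1)) f r ≤ 1 * ∑ i ∈ range n', Pn (2 * (i + 1)) f r :=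
            mul_le_mul_of_nonneg_right hκ1 h3
        _ ≤ S := by rw [one_mul]; exact h2) q 0
  have h2 : 3 / 16 ≤ κ ^ q * Gr f (q * n') q 0 := by linarith
  set θ : ℝ := M / u with hθ
  have hθ0 : 0 ≤ θ := by positivity
  have h3 := G2_low (bx_zo M 0) hf hfS (θ := θ) (r := (M : ℝ)) (fun x hx => wf_out hθ0 0 (bx_zero_out hx))
    (N := u) (q := q) (G := (1 + S) ^ q * ((u : ℝ) + 1) ^ q)
    (by
      intro n hn k hk z
      refine (Gr_le hf hfS n k z).trans ?_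
      have e1 : (1 + S) ^ k ≤ (1 + S) ^ q := pow_le_pow_right₀ (by linarith) hk
      have e2 : ((n : ℝ) + 1) ^ k ≤ ((u : ℝ) + 1) ^ q := by
        have e3 : (n : ℝ) ≤ u := by exact_mod_cast hn
        calc ((n : ℝ) + 1) ^ k ≤ ((u : ℝ) + 1) ^ k := pow_le_pow_left₀ (by positivity) (by linarith) k
          _ ≤ ((u : ℝ) + 1) ^ q := pow_le_pow_right₀ (by linarith) hk
      exact mul_le_mul e1 e2 (by positivity) (by positivity)) u le_rfl q le_rfl 0 0
  rw [sub_zero, wf_zero] at h3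
  have h4 : -(θ * M) + u * (θ ^ 2 / 2) = -((M : ℝ) ^ 2 / (2 * u)) := by
    rw [hθ]
    field_simp
    ring
  rw [h4] at h3
  have h5 : Gr f u q 0 - G2 (bx M 0) f u q 0 0 ≤ 1 / 16 := h3.trans hb
  have h6 : 0 < κ ^ q := by positivity
  have h7 : κ ^ q ≤ 1 := pow_le_one₀ hκ.le hκ1
  have h8 : 1 ≤ (κ ^ q)⁻¹ := (one_le_inv₀ h6).2 h7
  have h9 : 3 / 16 * (κ ^ q)⁻¹ ≤ Gr f u q 0 := by
    rw [← div_eq_mul_inv, div_le_iff₀ h6]
    linarith
  linarith

end Pool.Agent.H964.DP
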