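import Pool.Agent.H964.DP.Blk5

/-! # Project DP: numbers -/

set_option autoImplicit false

open MeasureTheory ProbabilityTheory Filter Finset

namespace Pool.Agent.H964.DP

noncomputable def nN (δ L : ℝ) : ℕ := ⌈Real.exp ((2 + 2 * δ) * L)⌉₊
noncomputable def mN (δ L : ℝ) : ℕ := ⌈Real.exp ((1 + 3 * δ) * L)⌉₊
noncomputable def tN (δ L : ℝ) : ℕ := ⌈Real.exp ((2 + 10 * δ) * L)⌉₊
noncomputable def uN (δ L : ℝ) (q : ℕ) : ℕ := q * nN δ L
noncomputable def sN (δ L : ℝ) (q : ℕ) : ℕ := ⌈√((tN δ L : ℝ) + uN δ L q)⌉₊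
noncomputable def rN (δ L : ℝ) (q : ℕ) : ℕ := (⌈L⌉₊ + 1) * sN δ L q

/-- the regime of the parameters -/
structure Reg (δ L P S : ℝ) (q : ℕ) : Prop where
  d0 : 0 < δ
  d1 : δ ≤ 1 / 3
  hL : 26 ≤ L
  hP : 50000 ≤ P
  hLP : L ≤ P
  hq : 1 ≤ q
  hqL : (q : ℝ) ≤ L
  gr : P ^ (3 * q + 20) ≤ Real.exp (δ * L)
  hS : 1 ≤ S
  hSP : 16 * S ≤ P

theorem ceil_bd {x : ℝ} (hx : 1 ≤ x) : x ≤ (⌈x⌉₊ : ℝ) ∧ (⌈x⌉₊ : ℝ) ≤ 2 * x := by
  refine ⟨Nat.le_ceil x, ?_⟩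
  have := Nat.ceil_lt_add_one (by linarith : 0 ≤ x)
  linarith

theorem exp_bd {c L : ℝ} (hc : 0 ≤ c) (hL : 0 ≤ L) : 1 ≤ Real.exp (c * L) := Real.one_le_exp (by positivity)

section
variable {δ L P S : ℝ} {q : ℕ}

theorem Reg.nbd (h : Reg δ L P S q) : Real.exp ((2 + 2 * δ) * L) ≤ nN δ L ∧ (nN δ L : ℝ) ≤ 2 * Real.exp ((2 + 2 * δ) * L) :=
  ceil_bd (exp_bd (by linarith [h.d0]) (by linarith [h.hL]))

theorem Reg.mbd (h : Reg δ L P S q) : Real.exp ((1 + 3 * δ) * L) ≤ mN δ L ∧ (mN δ L : ℝ) ≤ 2 * Real.exp ((1 + 3 * δ) * L) :=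
  ceil_bd (exp_bd (by linarith [h.d0]) (by linarith [h.hL]))

theorem Reg.tbd (h : Reg δ L P S q) : Real.exp ((2 + 10 * δ) * L) ≤ tN δ L ∧ (tN δ L : ℝ) ≤ 2 * Real.exp ((2 + 10 * δ) * L) :=
  ceil_bd (exp_bd (by linarith [h.d0]) (by linarith [h.hL]))

theorem Reg.Ppos (h : Reg δ L P S q) : 0 < P := by linarith [h.hP]

theorem Reg.Epow (h : Reg δ L P S q) {k : ℕ} (hk : k ≤ 3 * q + 20) : P ^ k ≤ Real.exp (δ * L) :=
  (pow_le_pow_right₀ (by linarith [h.hP]) hk).trans h.gr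

theorem Reg.E1 (h : Reg δ L P S q) : 1 ≤ Real.exp (δ * L) := exp_bd h.d0.le (by linarith [h.hL])

theorem Reg.ubd (h : Reg δ L P S q) : Real.exp ((2 + 2 * δ) * L) ≤ uN δ L q ∧
    (uN δ L q : ℝ) ≤ 2 * L * Real.exp ((2 + 2 * δ) * L) := by
  obtain ⟨h1, h2⟩ := h.nbd
  have hq1 : (1 : ℝ) ≤ q := by exact_mod_cast h.hq
  have hx : 0 < Real.exp ((2 + 2 * δ) * L) := Real.exp_pos _
  unfold uN
  push_cast
  have hn0 : (0 : ℝ) ≤ nN δ L := Nat.cast_nonneg _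
  constructor
  · nlinarith
  · calc (q : ℝ) * nN δ L ≤ L * (2 * Real.exp ((2 + 2 * δ) * L)) := mul_le_mul h.hqL h2 hn0 (by linarith [h.hL])
      _ = _ := by ring

theorem Reg.u1 (h : Reg δ L P S q) : (1 : ℝ) ≤ uN δ L q :=
  (exp_bd (by linarith [h.d0]) (by linarith [h.hL])).trans h.ubd.1

/-- `u ≤ 2 L E^{-8} T` -/
theorem Reg.uT (h : Reg δ L P S q) : (uN δ L q : ℝ) * Real.exp (δ * L) ^ 8 ≤ 2 * L * tN δ L := by
  have h1 := h.ubd.2
  have h2 := h.tbd.1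
  have e1 : Real.exp ((2 + 2 * δ) * L) * Real.exp (δ * L) ^ 8 = Real.exp ((2 + 10 * δ) * L) := by
    rw [← Real.exp_nat_mul, ← Real.exp_add]
    congr 1
    push_cast
    ring
  have hE : 0 ≤ Real.exp (δ * L) ^ 8 := by positivity
  have hL : 0 ≤ 2 * L := by linarith [h.hL]
  calc (uN δ L q : ℝ) * Real.exp (δ * L) ^ 8 ≤ 2 * L * Real.exp ((2 + 2 * δ) * L) * Real.exp (δ * L) ^ 8 :=
        mul_le_mul_of_nonneg_right h1 hE
    _ = 2 * L * Real.exp ((2 + 10 * δ) * L) := by rw [mul_assoc, e1]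
    _ ≤ 2 * L * tN δ L := mul_le_mul_of_nonneg_left h2 hL

theorem Reg.P1 (h : Reg δ L P S q) : 1 ≤ P := by linarith [h.hP]

theorem Reg.LE (h : Reg δ L P S q) : 4 * L ≤ Real.exp (δ * L) := by
  have h1 := h.Epow (k := 2) (by omega)
  have h2 := h.hP
  have h3 := h.hLP
  nlinarith

theorem Reg.uleT (h : Reg δ L P S q) : (uN δ L q : ℝ) ≤ tN δ L := by
  have h1 := h.uT
  have h2 := h.LE
  have h3 := h.E1
  have h4 : Real.exp (δ * L) ≤ Real.exp (δ * L) ^ 8 := le_self_pow₀ h3 (by norm_num)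
  have h5 : (0 : ℝ) ≤ tN δ L := Nat.cast_nonneg _
  have h6 : (0 : ℝ) ≤ uN δ L q := Nat.cast_nonneg _
  have hL := h.hL
  have h7 : (uN δ L q : ℝ) * (2 * L) ≤ (uN δ L q : ℝ) * Real.exp (δ * L) ^ 8 :=
    mul_le_mul_of_nonneg_left (by linarith) h6
  have h8 : (uN δ L q : ℝ) * (2 * L) ≤ (tN δ L : ℝ) * (2 * L) := by linarith
  exact le_of_mul_le_mul_right h8 (by linarith)

theorem Reg.t1 (h : Reg δ L P S q) : (1 : ℝ) ≤ tN δ L :=
  (exp_bd (by linarith [h.d0]) (by linarith [h.hL])).trans h.tbd.1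

/-- the length of a block -/
theorem Reg.lbd (h : Reg δ L P S q) : ((tN δ L : ℝ) + uN δ L q) ≤ Real.exp ((2 + 12 * δ) * L) := by
  have h1 := h.uleT
  have h2 := h.tbd.2
  have h3 : 4 ≤ Real.exp (2 * δ * L) := by
    have h4 := h.Epow (k := 1) (by omega)
    have h5 := h.hP
    have h6 : Real.exp (δ * L) ≤ Real.exp (2 * δ * L) := Real.exp_le_exp.2 (by nlinarith [h.d0, h.hL])
    rw [pow_one] at h4
    linarith
  have e1 : Real.exp ((2 + 12 * δ) * L) = Real.exp ((2 + 10 * δ) * L) * Real.exp (2 * δ * L) := by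
    rw [← Real.exp_add]
    congr 1
    ring
  rw [e1]
  have h7 := Real.exp_pos ((2 + 10 * δ) * L)
  nlinarith

theorem Reg.sbd (h : Reg δ L P S q) : ((tN δ L : ℝ) + uN δ L q) ≤ (sN δ L q : ℝ) ^ 2 ∧
    (sN δ L q : ℝ) ^ 2 ≤ 8 * tN δ L := by
  have h1 := h.t1
  have h2 := h.uleT
  have h3 : (0 : ℝ) ≤ uN δ L q := Nat.cast_nonneg _
  have h4 : 1 ≤ √((tN δ L : ℝ) + uN δ L q) := by
    rw [Real.one_le_sqrt]
    linarith
  obtain ⟨h5, h6⟩ := ceil_bd h4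
  have h7 : √((tN δ L : ℝ) + uN δ L q) ^ 2 = (tN δ L : ℝ) + uN δ L q := Real.sq_sqrt (by linarith)
  constructor
  · rw [← h7]
    exact pow_le_pow_left₀ (Real.sqrt_nonneg _) h5 2
  · calc (sN δ L q : ℝ) ^ 2 ≤ (2 * √((tN δ L : ℝ) + uN δ L q)) ^ 2 := pow_le_pow_left₀ (Nat.cast_nonneg _) h6 2
      _ = 4 * ((tN δ L : ℝ) + uN δ L q) := by rw [mul_pow, h7]; norm_num
      _ ≤ 8 * tN δ L := by linarith

theorem Reg.s1 (h : Reg δ L P S q) : 1 ≤ sN δ L q := by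
  have h1 := h.sbd.1
  have h2 := h.t1
  have h3 : (0 : ℝ) ≤ uN δ L q := Nat.cast_nonneg _
  by_contra h4
  have h5 : sN δ L q = 0 := by omega
  rw [h5] at h1
  norm_num at h1
  linarith

theorem Reg.sr (_h : Reg δ L P S q) : sN δ L q ≤ rN δ L q := by
  unfold rN
  nlinarith [_h.s1]

theorem Reg.rr (_h : Reg δ L P S q) : (rN δ L q : ℝ) - sN δ L q = ⌈L⌉₊ * sN δ L q := by
  unfold rN
  push_cast
  ring

theorem Reg.rcard (h : Reg δ L P S q) : ((sq (rN δ L q)).card : ℝ) ≤ 648 * L ^ 2 * tN δ L := by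
  rw [card_sq]
  have h1 := h.s1
  have h2 := h.sr
  have h3 : (1 : ℝ) ≤ rN δ L q := by exact_mod_cast h1.trans h2
  have hL := h.hL
  have h4 : (⌈L⌉₊ : ℝ) + 1 ≤ 3 * L := by
    have := Nat.ceil_lt_add_one (by linarith : 0 ≤ L)
    linarith
  have h5 := h.sbd.2
  have h6 : (rN δ L q : ℝ) = ((⌈L⌉₊ : ℝ) + 1) * sN δ L q := by
    unfold rN
    push_cast
    ring
  push_cast
  calc (2 * (rN δ L q : ℝ) + 1) ^ 2 ≤ (3 * (rN δ L q : ℝ)) ^ 2 := pow_le_pow_left₀ (by positivity) (by linarith) 2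
    _ = 9 * (((⌈L⌉₊ : ℝ) + 1) ^ 2 * (sN δ L q : ℝ) ^ 2) := by rw [h6]; ring
    _ ≤ 9 * ((3 * L) ^ 2 * (8 * tN δ L)) := by
      refine mul_le_mul_of_nonneg_left ?_ (by norm_num)
      exact mul_le_mul (pow_le_pow_left₀ (by positivity) h4 2) h5 (by positivity) (by positivity)
    _ = _ := by ring

theorem Reg.mcard (h : Reg δ L P S q) : ((sq (3 * mN δ L)).card : ℝ) ≤ 196 * Real.exp ((2 + 6 * δ) * L) := by
  rw [card_sq]
  obtain ⟨h1, h2⟩ := h.mbd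
  have h3 : 1 ≤ Real.exp ((1 + 3 * δ) * L) := exp_bd (by linarith [h.d0]) (by linarith [h.hL])
  push_cast
  have e1 : Real.exp ((2 + 6 * δ) * L) = Real.exp ((1 + 3 * δ) * L) ^ 2 := by
    rw [← Real.exp_nat_mul]
    congr 1
    push_cast
    ring
  rw [e1]
  calc (2 * (3 * (mN δ L : ℝ)) + 1) ^ 2 ≤ (14 * Real.exp ((1 + 3 * δ) * L)) ^ 2 :=
        pow_le_pow_left₀ (by positivity) (by linarith) 2
    _ = _ := by ring

/-- all scales are at most `exp (8 L)` -/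
theorem Reg.Nbd (h : Reg δ L P S q) : 1 + Real.log (1 + ((2 * rN δ L q + 2 * uN δ L q : ℕ) : ℝ)) ≤ 9 * L := by
  have hL := h.hL
  have hd := h.d1
  have hd0 := h.d0
  have h1 := h.tbd.2
  have h2 := h.ubd.2
  have h3 := h.sbd.2
  have hLe : L ≤ Real.exp L := by linarith [Real.add_one_le_exp L]
  have e6 : Real.exp ((2 + 10 * δ) * L) ≤ Real.exp (6 * L) := Real.exp_le_exp.2 (by nlinarith)
  have e3 : Real.exp ((2 + 2 * δ) * L) ≤ Real.exp (3 * L) := Real.exp_le_exp.2 (by nlinarith)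
  have e63 : Real.exp (6 * L) = Real.exp (3 * L) ^ 2 := by
    rw [← Real.exp_nat_mul]
    congr 1
    push_cast
    ring
  have e4 : Real.exp (4 * L) = Real.exp L * Real.exp (3 * L) := by
    rw [← Real.exp_add]
    congr 1
    ring
  have h4 : (sN δ L q : ℝ) ≤ 4 * Real.exp (3 * L) := by
    refine (pow_le_pow_iff_left₀ (Nat.cast_nonneg _) (by positivity) two_ne_zero).1 ?_
    nlinarith
  have hp3 : 0 < Real.exp (3 * L) := Real.exp_pos _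
  have h5 : (⌈L⌉₊ : ℝ) + 1 ≤ 3 * L := by
    have := Nat.ceil_lt_add_one (by linarith : 0 ≤ L)
    linarith
  have h6 : (rN δ L q : ℝ) ≤ 12 * Real.exp (4 * L) := by
    have : (rN δ L q : ℝ) = ((⌈L⌉₊ : ℝ) + 1) * sN δ L q := by
      unfold rN
      push_cast
      ring
    rw [this]
    calc ((⌈L⌉₊ : ℝ) + 1) * sN δ L q ≤ (3 * Real.exp L) * (4 * Real.exp (3 * L)) :=
          mul_le_mul (by linarith) h4 (Nat.cast_nonneg _) (by positivity)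
      _ = _ := by rw [e4]; ring
  have h7 : (uN δ L q : ℝ) ≤ 2 * Real.exp (4 * L) := by
    calc (uN δ L q : ℝ) ≤ 2 * L * Real.exp ((2 + 2 * δ) * L) := h2
      _ ≤ 2 * Real.exp L * Real.exp (3 * L) := mul_le_mul (by linarith) e3 (Real.exp_pos _).le (by positivity)
      _ = _ := by rw [e4]; ring
  have h8 : (29 : ℝ) ≤ Real.exp (4 * L) := by linarith [Real.add_one_le_exp (4 * L)]
  have h9 : 1 + ((2 * rN δ L q + 2 * uN δ L q : ℕ) : ℝ) ≤ Real.exp (8 * L) := by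
    have e8 : Real.exp (8 * L) = Real.exp (4 * L) * Real.exp (4 * L) := by
      rw [← Real.exp_add]
      congr 1
      ring
    rw [e8]
    push_cast
    nlinarith
  have h10 : Real.log (1 + ((2 * rN δ L q + 2 * uN δ L q : ℕ) : ℝ)) ≤ 8 * L := by
    rw [← Real.log_exp (8 * L)]
    exact Real.log_le_log (by positivity) h9
  linarith

end

end Pool.Agent.H964.DP
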