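import Pool.Agent.H964.DP.Blk6

/-! # Project DP: numbers, second part -/

set_option autoImplicit false

open MeasureTheory ProbabilityTheory Filter Finset

namespace Pool.Agent.H964.DP

section
variable {δ L P S : ℝ} {q : ℕ}

theorem Reg.eL (h : Reg δ L P S q) : 50000 ≤ Real.exp L := by
  have h1 := h.Epow (k := 1) (by omega)
  have h2 : Real.exp (δ * L) ≤ Real.exp L := Real.exp_le_exp.2 (by nlinarith [h.d0, h.d1, h.hL])
  rw [pow_one] at h1
  linarith [h.hP]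

theorem Reg.PeL (h : Reg δ L P S q) : P ≤ Real.exp L := by
  have h1 := h.Epow (k := 1) (by omega)
  have h2 : Real.exp (δ * L) ≤ Real.exp L := Real.exp_le_exp.2 (by nlinarith [h.d0, h.d1, h.hL])
  rw [pow_one] at h1
  linarith

theorem Reg.small (h : Reg δ L P S q) : Real.exp (-(7 * L)) ≤ (L ^ 6)⁻¹ / 1000 := by
  have hL := h.hL
  have h1 := h.eL
  have h2 : L ≤ Real.exp L := by linarith [Real.add_one_le_exp L]
  have h3 : L ^ 6 ≤ Real.exp L ^ 6 := pow_le_pow_left₀ (by linarith) h2 6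
  have h4 : Real.exp (7 * L) = Real.exp L ^ 7 := by
    rw [← Real.exp_nat_mul]
    congr 1
  have hL6 : 0 < L ^ 6 := by positivity
  rw [Real.exp_neg, div_eq_mul_inv, ← mul_inv]
  refine inv_anti₀ (by positivity) ?_
  rw [h4]
  have h5 : 0 < Real.exp L ^ 6 := by positivity
  calc L ^ 6 * 1000 ≤ Real.exp L ^ 6 * Real.exp L := mul_le_mul h3 (by linarith) (by norm_num) h5.le
    _ = _ := by ring

noncomputable def ZZ (δ L : ℝ) (q : ℕ) : ℝ := (mN δ L : ℝ) ^ 2 / (2 * (uN δ L q : ℝ))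

theorem Reg.Z (h : Reg δ L P S q) : (12 * q + 27) * L ≤ ZZ δ L q := by
  have hL := h.hL
  have h1 := h.mbd.1
  have h2 := h.ubd.2
  have hu := h.u1
  have hE := h.E1
  have hLE := h.LE
  have e1 : Real.exp ((1 + 3 * δ) * L) ^ 2 = Real.exp ((2 + 2 * δ) * L) * Real.exp (δ * L) ^ 4 := by
    rw [← Real.exp_nat_mul, ← Real.exp_nat_mul, ← Real.exp_add]
    congr 1
    push_cast
    ring
  have h3 : Real.exp (δ * L) ^ 3 ≤ ZZ δ L q := by
    unfold ZZ
    rw [le_div_iff₀ (by linarith)]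
    have h4 : Real.exp ((1 + 3 * δ) * L) ^ 2 ≤ (mN δ L : ℝ) ^ 2 := pow_le_pow_left₀ (Real.exp_pos _).le h1 2
    refine le_trans ?_ h4
    rw [e1]
    have hx := Real.exp_pos ((2 + 2 * δ) * L)
    have hE3 : 0 < Real.exp (δ * L) ^ 3 := by positivity
    calc Real.exp (δ * L) ^ 3 * (2 * uN δ L q) ≤ Real.exp (δ * L) ^ 3 * (Real.exp (δ * L) * Real.exp ((2 + 2 * δ) * L)) := by
          refine mul_le_mul_of_nonneg_left ?_ hE3.le
          calc 2 * (uN δ L q : ℝ) ≤ 4 * L * Real.exp ((2 + 2 * δ) * L) := by linarith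
            _ ≤ _ := mul_le_mul_of_nonneg_right hLE hx.le
      _ = _ := by ring
  have h5 : P ^ 3 ≤ Real.exp (δ * L) ^ 3 := (h.Epow (k := 3) (by omega)).trans (le_self_pow₀ hE (by norm_num))
  have h6 : (12 * q + 27) * L ≤ P ^ 3 := by
    have hq := h.hqL
    have hP := h.hP
    have hLP := h.hLP
    have h7 : (12 * q + 27) * L ≤ (12 * P + 27) * P := mul_le_mul (by linarith) hLP (by linarith) (by linarith)
    have h8 : 12 * P + 27 ≤ P ^ 2 := by nlinarith
    calc (12 * q + 27) * L ≤ (12 * P + 27) * P := h7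
      _ ≤ P ^ 2 * P := mul_le_mul_of_nonneg_right h8 (by linarith)
      _ = P ^ 3 := by ring
  linarith

theorem Reg.small2 (h : Reg δ L P S q) {c : ℝ} (hc : c ≤ -(7 * L)) : Real.exp c ≤ (L ^ 6)⁻¹ / 1000 :=
  (Real.exp_le_exp.2 hc).trans h.small

theorem Reg.inv6 (h : Reg δ L P S q) : 0 < (L ^ 6)⁻¹ := by
  have := h.hL
  positivity

/-- exit from the large box -/
theorem Reg.term1 (h : Reg δ L P S q) : ((tN δ L : ℝ) + 1) * (4 * Real.exp (-((((rN δ L q : ℝ) - sN δ L q) / tN δ L) *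
    ((rN δ L q : ℝ) - sN δ L q)) + tN δ L * ((((rN δ L q : ℝ) - sN δ L q) / tN δ L) ^ 2 / 2))) ≤ (L ^ 6)⁻¹ / 8 := by
  have hL := h.hL
  have hT := h.t1
  have hT2 := h.tbd.2
  have hd := h.d1
  have hd0 := h.d0
  set R := (rN δ L q : ℝ) - sN δ L q with hR
  have e1 : -((R / tN δ L) * R) + tN δ L * ((R / tN δ L) ^ 2 / 2) = -(R ^ 2 / (2 * tN δ L)) := by
    field_simp
    ring
  rw [e1]
  have h1 : L ^ 2 / 2 ≤ R ^ 2 / (2 * tN δ L) := by
    rw [div_le_div_iff₀ (by norm_num) (by positivity)]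
    rw [hR, h.rr]
    have h2 := h.sbd.1
    have h3 : (0 : ℝ) ≤ uN δ L q := Nat.cast_nonneg _
    have h4 : L ^ 2 ≤ (⌈L⌉₊ : ℝ) ^ 2 := pow_le_pow_left₀ (by linarith) (Nat.le_ceil L) 2
    calc L ^ 2 * (2 * tN δ L) ≤ (⌈L⌉₊ : ℝ) ^ 2 * (2 * (sN δ L q : ℝ) ^ 2) :=
          mul_le_mul h4 (by linarith) (by positivity) (by positivity)
      _ = _ := by ring
  have h5 : Real.exp (-(R ^ 2 / (2 * tN δ L))) ≤ Real.exp (-(13 * L)) := by
    refine Real.exp_le_exp.2 ?_
    have : 13 * L ≤ L ^ 2 / 2 := by nlinarith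
    linarith
  have e6 : Real.exp ((2 + 10 * δ) * L) ≤ Real.exp (6 * L) := Real.exp_le_exp.2 (by nlinarith)
  have h6 : (tN δ L : ℝ) + 1 ≤ 4 * Real.exp (6 * L) := by linarith
  calc ((tN δ L : ℝ) + 1) * (4 * Real.exp (-(R ^ 2 / (2 * tN δ L)))) ≤
      4 * Real.exp (6 * L) * (4 * Real.exp (-(13 * L))) :=
        mul_le_mul h6 (mul_le_mul_of_nonneg_left h5 (by norm_num)) (by positivity) (by positivity)
    _ = 16 * Real.exp (-(7 * L)) := by
      rw [show -(7 * L) = 6 * L + -(13 * L) by ring, Real.exp_add]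
      ring
    _ ≤ 16 * ((L ^ 6)⁻¹ / 1000) := mul_le_mul_of_nonneg_left h.small (by norm_num)
    _ ≤ _ := by linarith [h.inv6]

theorem Reg.u4 (h : Reg δ L P S q) : (uN δ L q : ℝ) + 1 ≤ Real.exp (5 * L) := by
  have hL := h.hL
  have hd := h.d1
  have hd0 := h.d0
  have h1 := h.ubd.2
  have h0 := h.u1
  have e3 : Real.exp ((2 + 2 * δ) * L) ≤ Real.exp (3 * L) := Real.exp_le_exp.2 (by nlinarith)
  have h2 : L ≤ Real.exp L := by linarith [Real.add_one_le_exp L]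
  have h3 := h.eL
  have e5 : Real.exp (5 * L) = Real.exp L * (Real.exp L * Real.exp (3 * L)) := by
    rw [← Real.exp_add, ← Real.exp_add]
    congr 1
    ring
  have h4 : (uN δ L q : ℝ) ≤ 2 * (Real.exp L * Real.exp (3 * L)) := by
    calc (uN δ L q : ℝ) ≤ 2 * L * Real.exp ((2 + 2 * δ) * L) := h1
      _ ≤ 2 * Real.exp L * Real.exp (3 * L) := mul_le_mul (by linarith) e3 (Real.exp_pos _).le (by positivity)
      _ = _ := by ring
  have h5 : 0 < Real.exp L * Real.exp (3 * L) := by positivity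
  rw [e5]
  nlinarith

/-- exit from the small boxes -/
theorem Reg.term2 (h : Reg δ L P S q) : (tN δ L : ℝ) * (((uN δ L q : ℝ) + 1) * (4 * Real.exp (-(((mN δ L : ℝ) / uN δ L q) *
    mN δ L) + uN δ L q * (((mN δ L : ℝ) / uN δ L q) ^ 2 / 2)))) ≤ (L ^ 6)⁻¹ / 8 := by
  have hL := h.hL
  have hT := h.t1
  have hu := h.u1
  have hT2 := h.tbd.2
  have hd := h.d1
  have hd0 := h.d0
  have e1 : -(((mN δ L : ℝ) / uN δ L q) * mN δ L) + uN δ L q * (((mN δ L : ℝ) / uN δ L q) ^ 2 / 2) = -(ZZ δ L q) := by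
    unfold ZZ
    field_simp
    ring
  rw [e1]
  have hZ := h.Z
  have hq : (1 : ℝ) ≤ q := by exact_mod_cast h.hq
  have h5 : Real.exp (-(ZZ δ L q)) ≤ Real.exp (-(27 * L)) := by
    refine Real.exp_le_exp.2 ?_
    nlinarith
  have e6 : Real.exp ((2 + 10 * δ) * L) ≤ Real.exp (6 * L) := Real.exp_le_exp.2 (by nlinarith)
  calc (tN δ L : ℝ) * (((uN δ L q : ℝ) + 1) * (4 * Real.exp (-(ZZ δ L q)))) ≤
      2 * Real.exp (6 * L) * (Real.exp (5 * L) * (4 * Real.exp (-(27 * L)))) := by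
        refine mul_le_mul (by linarith) ?_ (by positivity) (by positivity)
        exact mul_le_mul h.u4 (mul_le_mul_of_nonneg_left h5 (by norm_num)) (by positivity) (by positivity)
    _ = 8 * Real.exp (-(16 * L)) := by
      rw [show -(16 * L) = 6 * L + (5 * L + -(27 * L)) by ring, Real.exp_add, Real.exp_add]
      ring
    _ ≤ 8 * ((L ^ 6)⁻¹ / 1000) := mul_le_mul_of_nonneg_left (h.small2 (by linarith)) (by norm_num)
    _ ≤ _ := by linarith [h.inv6]

/-- the error from the killing -/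
theorem Reg.hb (h : Reg δ L P S q) : (1 + S) ^ q * (((q * nN δ L : ℕ) : ℝ) + 1) ^ q *
    ((1 + S) * (((q * nN δ L : ℕ) : ℝ) + 1)) ^ (q + 1) *
      (4 * Real.exp (-((mN δ L : ℝ) ^ 2 / (2 * ((q * nN δ L : ℕ) : ℝ))))) ≤ 1 / 16 := by
  have hL := h.hL
  have hS := h.hS
  have hSP := h.hSP
  have hP := h.PeL
  have hu := h.u4
  have hu1 := h.u1
  have e1 : -((mN δ L : ℝ) ^ 2 / (2 * ((q * nN δ L : ℕ) : ℝ))) = -(ZZ δ L q) := rfl
  rw [e1]
  have e2 : ((q * nN δ L : ℕ) : ℝ) = (uN δ L q : ℝ) := rfl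
  rw [e2]
  have h1 : (1 + S) * ((uN δ L q : ℝ) + 1) ≤ Real.exp (6 * L) := by
    have : Real.exp (6 * L) = Real.exp L * Real.exp (5 * L) := by
      rw [← Real.exp_add]
      congr 1
      ring
    rw [this]
    exact mul_le_mul (by linarith) hu (by linarith) (Real.exp_pos _).le
  have h2 : (1 + S) ^ q * ((uN δ L q : ℝ) + 1) ^ q * ((1 + S) * ((uN δ L q : ℝ) + 1)) ^ (q + 1) ≤
      Real.exp ((12 * q + 6) * L) := by
    have e3 : (1 + S) ^ q * ((uN δ L q : ℝ) + 1) ^ q * ((1 + S) * ((uN δ L q : ℝ) + 1)) ^ (q + 1) =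
        ((1 + S) * ((uN δ L q : ℝ) + 1)) ^ (2 * q + 1) := by
      rw [← mul_pow]
      ring
    rw [e3]
    calc ((1 + S) * ((uN δ L q : ℝ) + 1)) ^ (2 * q + 1) ≤ Real.exp (6 * L) ^ (2 * q + 1) :=
          pow_le_pow_left₀ (by positivity) h1 _
      _ = _ := by
        rw [← Real.exp_nat_mul]
        congr 1
        push_cast
        ring
  have hZ := h.Z
  have h3 : Real.exp ((12 * q + 6) * L) * Real.exp (-(ZZ δ L q)) ≤ Real.exp (-(7 * L)) := by
    rw [← Real.exp_add]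
    refine Real.exp_le_exp.2 ?_
    linarith
  have h4 := h.small
  have h5 : (L ^ 6)⁻¹ ≤ 1 := by
    refine inv_le_one_of_one_le₀ ?_
    exact one_le_pow₀ (by linarith)
  calc (1 + S) ^ q * ((uN δ L q : ℝ) + 1) ^ q * ((1 + S) * ((uN δ L q : ℝ) + 1)) ^ (q + 1) *
      (4 * Real.exp (-(ZZ δ L q))) ≤ Real.exp ((12 * q + 6) * L) * (4 * Real.exp (-(ZZ δ L q))) :=
        mul_le_mul_of_nonneg_right h2 (by positivity)
    _ = 4 * (Real.exp ((12 * q + 6) * L) * Real.exp (-(ZZ δ L q))) := by ring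
    _ ≤ 1 / 16 := by linarith

/-- mass outside -/
theorem Reg.ha (h : Reg δ L P S q) : (2 * Real.exp L + 1) ^ 2 * (4 / (2 * (nN δ L : ℝ) + 1)) * (q * S ^ q) ≤ 1 / 16 := by
  have hL := h.hL
  have hS := h.hS
  have hSP := h.hSP
  have hP := h.hP
  have hE := h.E1
  obtain ⟨n1, n2⟩ := h.nbd
  have e1 : Real.exp ((2 + 2 * δ) * L) = Real.exp L ^ 2 * Real.exp (δ * L) ^ 2 := by
    rw [← Real.exp_nat_mul, ← Real.exp_nat_mul, ← Real.exp_add]
    congr 1
    push_cast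
    ring
  have h1 : (2 * Real.exp L + 1) ^ 2 ≤ 9 * Real.exp L ^ 2 := by
    have : 1 ≤ Real.exp L := Real.one_le_exp (by linarith)
    nlinarith
  have h2 : 4 / (2 * (nN δ L : ℝ) + 1) ≤ 2 / (Real.exp L ^ 2 * Real.exp (δ * L) ^ 2) := by
    rw [← e1, div_le_div_iff₀ (by positivity) (Real.exp_pos _)]
    linarith
  have h3 : (q : ℝ) * S ^ q ≤ P ^ (q + 1) := by
    rw [pow_succ']
    exact mul_le_mul (h.hqL.trans h.hLP) (pow_le_pow_left₀ (by linarith) (by linarith) q) (by positivity) (by linarith)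
  have h4 : P ^ (q + 2) ≤ Real.exp (δ * L) := h.Epow (by omega)
  have h5 : 0 < Real.exp L ^ 2 := by positivity
  have h6 : 0 < Real.exp (δ * L) := Real.exp_pos _
  calc (2 * Real.exp L + 1) ^ 2 * (4 / (2 * (nN δ L : ℝ) + 1)) * (q * S ^ q) ≤
      9 * Real.exp L ^ 2 * (2 / (Real.exp L ^ 2 * Real.exp (δ * L) ^ 2)) * P ^ (q + 1) := by
        refine mul_le_mul (mul_le_mul h1 h2 (by positivity) (by positivity)) h3 (by positivity) (by positivity)
    _ = 18 * P ^ (q + 1) / Real.exp (δ * L) ^ 2 := by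
      field_simp
      ring
    _ ≤ 1 / 16 := by
      rw [div_le_div_iff₀ (by positivity) (by norm_num)]
      have h7 : 50000 * P ^ (q + 1) ≤ Real.exp (δ * L) := by
        refine le_trans ?_ h4
        rw [pow_succ P (q + 1)]
        have : 0 < P ^ (q + 1) := by positivity
        nlinarith
      have h8 : Real.exp (δ * L) ≤ Real.exp (δ * L) ^ 2 := le_self_pow₀ hE (by norm_num)
      have h9 : 0 < P ^ (q + 1) := pow_pos h.Ppos _
      linarith

end

end Pool.Agent.H964.DP
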