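import Pool.Agent.H964.DP.Blk7

/-! # Project DP: numbers, third part -/

set_option autoImplicit false

open MeasureTheory ProbabilityTheory Filter Finset

namespace Pool.Agent.H964.DP

section
variable {δ L P S : ℝ} {q : ℕ}

/-- the physical parameters -/
structure Phy (β f0 c₀ lam κ L P S : ℝ) (q : ℕ) : Prop where
  β0 : 0 < β
  β1 : β ≤ 1
  βP : (β ^ 2)⁻¹ ≤ P
  f00 : 0 < f0
  f0P : f0⁻¹ ≤ P
  c0 : 0 < c₀
  c0P : c₀⁻¹ ≤ P
  l0 : 0 < lam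
  lP : (lam ^ 2)⁻¹ ≤ P
  κ0 : 0 < κ
  κ1 : κ ≤ 1
  ρ : 8 * (P ^ 9 * (κ ^ 2 / (lam ^ 2 * β ^ 2)) ^ q) ≤ (L ^ 6)⁻¹

variable {β f0 c₀ lam κ : ℝ}

/-- inverse of the squared threshold -/
theorem vinv (h : Reg δ L P S q) (hp : Phy β f0 c₀ lam κ L P S q) {X : ℝ} (hX : 0 ≤ X) :
    X / (tN δ L * (β * f0 * (β ^ q * ((κ ^ q)⁻¹ / 8))) / 4) ^ 2 ≤ 1024 * P ^ (q + 3) * X / (tN δ L : ℝ) ^ 2 := by
  have hT := h.t1
  have h1 := hp.β0
  have h2 := hp.f00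
  have h3 := hp.κ0
  have h4 : 1 ≤ (κ ^ q)⁻¹ := (one_le_inv₀ (by positivity)).2 (pow_le_one₀ h3.le hp.κ1)
  have e1 : X / (tN δ L * (β * f0 * (β ^ q * ((κ ^ q)⁻¹ / 8))) / 4) ^ 2 =
      1024 * ((β ^ 2)⁻¹ * (f0⁻¹) ^ 2 * ((β ^ 2)⁻¹) ^ q * (κ ^ q) ^ 2) * X / (tN δ L : ℝ) ^ 2 := by
    have e0 : ((β ^ 2)⁻¹) ^ q = ((β ^ q) ^ 2)⁻¹ := by rw [inv_pow, ← pow_mul, ← pow_mul, mul_comm]
    rw [e0]
    have p1 : 0 < β ^ q := by positivity
    have p2 : 0 < κ ^ q := by positivity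
    field_simp
    ring
  rw [e1]
  refine div_le_div_of_nonneg_right ?_ (by positivity)
  refine mul_le_mul_of_nonneg_right ?_ hX
  refine mul_le_mul_of_nonneg_left ?_ (by norm_num)
  have hP := h.Ppos
  have a1 : (f0⁻¹) ^ 2 ≤ P ^ 2 := pow_le_pow_left₀ (by positivity) hp.f0P 2
  have a2 : ((β ^ 2)⁻¹) ^ q ≤ P ^ q := pow_le_pow_left₀ (by positivity) hp.βP q
  have a3 : (κ ^ q) ^ 2 ≤ 1 := pow_le_one₀ (by positivity) (pow_le_one₀ h3.le hp.κ1)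
  calc (β ^ 2)⁻¹ * (f0⁻¹) ^ 2 * ((β ^ 2)⁻¹) ^ q * (κ ^ q) ^ 2 ≤ P * P ^ 2 * P ^ q * 1 :=
        mul_le_mul (mul_le_mul (mul_le_mul hp.βP a1 (by positivity) hP.le) a2 (by positivity) (by positivity)) a3
          (by positivity) (by positivity)
    _ = P ^ (q + 3) := by ring

/-- fluctuations along the path -/
theorem term3 (h : Reg δ L P S q) (hp : Phy β f0 c₀ lam κ L P S q) :
    8 * ((uN δ L q : ℝ) + 1) * (β * f0 * (2 * (((16 * S)⁻¹) ^ q)⁻¹)) ^ 2 /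
      (tN δ L * (β * f0 * (β ^ q * ((κ ^ q)⁻¹ / 8))) ^ 2) ≤ (L ^ 6)⁻¹ / 8 := by
  have hT := h.t1
  have h1 := hp.β0
  have h2 := hp.f00
  have h3 := hp.κ0
  have hS := h.hS
  have hL := h.hL
  have hu := h.u1
  have hP := h.Ppos
  have e1 : 8 * ((uN δ L q : ℝ) + 1) * (β * f0 * (2 * (((16 * S)⁻¹) ^ q)⁻¹)) ^ 2 /
      (tN δ L * (β * f0 * (β ^ q * ((κ ^ q)⁻¹ / 8))) ^ 2) =
      2048 * (((uN δ L q : ℝ) + 1) / tN δ L) * ((16 * S) ^ (2 * q) * ((β ^ 2)⁻¹) ^ q * (κ ^ q) ^ 2) := by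
    have e0 : ((β ^ 2)⁻¹) ^ q = ((β ^ q) ^ 2)⁻¹ := by rw [inv_pow, ← pow_mul, ← pow_mul, mul_comm]
    have e2 : (((16 * S)⁻¹) ^ q)⁻¹ = (16 * S) ^ q := by rw [inv_pow, inv_inv]
    have e3 : (16 * S) ^ (2 * q) = ((16 * S) ^ q) ^ 2 := by rw [← pow_mul, mul_comm q 2]
    rw [e0, e2, e3]
    have p1 : 0 < β ^ q := by positivity
    have p2 : 0 < κ ^ q := by positivity
    have p3 : 0 < (16 * S) ^ q := by positivity
    generalize (16 * S) ^ q = s1 at *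
    generalize β ^ q = s2 at *
    generalize κ ^ q = s3 at *
    field_simp
    ring
  rw [e1]
  have a1 : (16 * S) ^ (2 * q) ≤ P ^ (2 * q) := pow_le_pow_left₀ (by positivity) h.hSP _
  have a2 : ((β ^ 2)⁻¹) ^ q ≤ P ^ q := pow_le_pow_left₀ (by positivity) hp.βP q
  have a3 : (κ ^ q) ^ 2 ≤ 1 := pow_le_one₀ (by positivity) (pow_le_one₀ h3.le hp.κ1)
  have a4 : (16 * S) ^ (2 * q) * ((β ^ 2)⁻¹) ^ q * (κ ^ q) ^ 2 ≤ P ^ (3 * q) := by
    calc (16 * S) ^ (2 * q) * ((β ^ 2)⁻¹) ^ q * (κ ^ q) ^ 2 ≤ P ^ (2 * q) * P ^ q * 1 :=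
          mul_le_mul (mul_le_mul a1 a2 (by positivity) (by positivity)) a3 (by positivity) (by positivity)
      _ = _ := by ring
  have hE := h.E1
  have hE8 : 0 < Real.exp (δ * L) ^ 8 := by positivity
  have a5 : ((uN δ L q : ℝ) + 1) / tN δ L ≤ 4 * P / Real.exp (δ * L) ^ 8 := by
    rw [div_le_div_iff₀ (by positivity) hE8]
    have h5 := h.uT
    have h6 := h.hLP
    have h7 : ((uN δ L q : ℝ) + 1) * Real.exp (δ * L) ^ 8 ≤ 2 * ((uN δ L q : ℝ) * Real.exp (δ * L) ^ 8) := by nlinarith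
    have h8 : L * tN δ L ≤ P * tN δ L := mul_le_mul_of_nonneg_right h6 (by positivity)
    linarith
  have a6 := h.Epow (k := 3 * q + 20) le_rfl
  have hL6 : 0 < L ^ 6 := by positivity
  calc 2048 * (((uN δ L q : ℝ) + 1) / tN δ L) * ((16 * S) ^ (2 * q) * ((β ^ 2)⁻¹) ^ q * (κ ^ q) ^ 2) ≤
      2048 * (4 * P / Real.exp (δ * L) ^ 8) * P ^ (3 * q) :=
        mul_le_mul (mul_le_mul_of_nonneg_left a5 (by norm_num)) a4 (by positivity) (by positivity)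
    _ = 8192 * P ^ (3 * q + 1) / Real.exp (δ * L) ^ 8 := by ring
    _ ≤ (L ^ 6)⁻¹ / 8 := by
      rw [div_le_iff₀ hE8, div_mul_eq_mul_div, le_div_iff₀ (by norm_num), ← div_eq_inv_mul, le_div_iff₀ hL6]
      have b1 : Real.exp (δ * L) ≤ Real.exp (δ * L) ^ 8 := le_self_pow₀ hE (by norm_num)
      refine le_trans (le_trans ?_ a6) b1
      have b2 : L ^ 6 ≤ P ^ 6 := pow_le_pow_left₀ (by linarith) h.hLP 6
      have b3 : (65536 : ℝ) ≤ P ^ 2 := by nlinarith [h.hP]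
      have b4 : P ^ (3 * q + 9) ≤ P ^ (3 * q + 20) := pow_le_pow_right₀ h.P1 (by omega)
      refine le_trans ?_ b4
      calc 8192 * P ^ (3 * q + 1) * 8 * L ^ 6 = 65536 * P ^ (3 * q + 1) * L ^ 6 := by ring
        _ ≤ P ^ 2 * P ^ (3 * q + 1) * P ^ 6 :=
          mul_le_mul (mul_le_mul_of_nonneg_right b3 (by positivity)) b2 (by positivity) (by positivity)
        _ = _ := by ring

/-- the main term -/
theorem term4a (h : Reg δ L P S q) (hp : Phy β f0 c₀ lam κ L P S q) :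
    2 * ((tN δ L : ℝ) * ((sq (rN δ L q)).card * S * Γ₁ lam c₀ q)) /
      (tN δ L * (β * f0 * (β ^ q * ((κ ^ q)⁻¹ / 8))) / 4) ^ 2 ≤ (L ^ 6)⁻¹ / 8 := by
  have hT := h.t1
  have h1 := hp.β0
  have h2 := hp.f00
  have h3 := hp.κ0
  have h4 := hp.c0
  have h5 := hp.l0
  have hS := h.hS
  have hL := h.hL
  have hP := h.Ppos
  have hP1 := h.hP
  have e1 : 2 * ((tN δ L : ℝ) * ((sq (rN δ L q)).card * S * Γ₁ lam c₀ q)) /
      (tN δ L * (β * f0 * (β ^ q * ((κ ^ q)⁻¹ / 8))) / 4) ^ 2 =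
      4096 * (((sq (rN δ L q)).card : ℝ) / tN δ L) * (S * c₀⁻¹ * (β ^ 2)⁻¹ * (f0⁻¹) ^ 2) *
        (κ ^ 2 / (lam ^ 2 * β ^ 2)) ^ q := by
    unfold Γ₁
    have e0 : (κ ^ 2 / (lam ^ 2 * β ^ 2)) ^ q = (κ ^ q) ^ 2 / ((lam ^ q) ^ 2 * (β ^ q) ^ 2) := by
      rw [div_pow, mul_pow, ← pow_mul, ← pow_mul, ← pow_mul, ← pow_mul, ← pow_mul, ← pow_mul, mul_comm 2 q]
    have e2 : lam ^ (q + q) = (lam ^ q) ^ 2 := by rw [pow_add, pow_two]
    rw [e0, e2]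
    have p1 : 0 < β ^ q := by positivity
    have p2 : 0 < κ ^ q := by positivity
    have p3 : 0 < lam ^ q := by positivity
    generalize lam ^ q = s1 at *
    generalize β ^ q = s2 at *
    generalize κ ^ q = s3 at *
    field_simp
    ring
  rw [e1]
  have a1 : ((sq (rN δ L q)).card : ℝ) / tN δ L ≤ 648 * L ^ 2 := by
    rw [div_le_iff₀ (by linarith)]
    exact h.rcard
  have a2 : S * c₀⁻¹ * (β ^ 2)⁻¹ * (f0⁻¹) ^ 2 ≤ P * P * P * P ^ 2 := by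
    refine mul_le_mul (mul_le_mul (mul_le_mul ?_ hp.c0P (by positivity) hP.le) hp.βP (by positivity) (by positivity))
      (pow_le_pow_left₀ (by positivity) hp.f0P 2) (by positivity) (by positivity)
    linarith [h.hSP]
  have a3 : 0 ≤ (κ ^ 2 / (lam ^ 2 * β ^ 2)) ^ q := by positivity
  have a4 : L ^ 2 ≤ P ^ 2 := pow_le_pow_left₀ (by linarith) h.hLP 2
  have a5 : (2654208 : ℝ) ≤ P ^ 2 := by nlinarith
  calc 4096 * (((sq (rN δ L q)).card : ℝ) / tN δ L) * (S * c₀⁻¹ * (β ^ 2)⁻¹ * (f0⁻¹) ^ 2) *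
        (κ ^ 2 / (lam ^ 2 * β ^ 2)) ^ q ≤ 4096 * (648 * L ^ 2) * (P * P * P * P ^ 2) * (κ ^ 2 / (lam ^ 2 * β ^ 2)) ^ q := by
        refine mul_le_mul_of_nonneg_right ?_ a3
        exact mul_le_mul (mul_le_mul_of_nonneg_left a1 (by norm_num)) a2 (by positivity) (by positivity)
    _ = (2654208 * L ^ 2) * P ^ 5 * (κ ^ 2 / (lam ^ 2 * β ^ 2)) ^ q := by ring
    _ ≤ (P ^ 2 * P ^ 2) * P ^ 5 * (κ ^ 2 / (lam ^ 2 * β ^ 2)) ^ q := by
        refine mul_le_mul_of_nonneg_right ?_ a3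
        refine mul_le_mul_of_nonneg_right ?_ (by positivity)
        exact mul_le_mul a5 a4 (by positivity) (by positivity)
    _ = P ^ 9 * (κ ^ 2 / (lam ^ 2 * β ^ 2)) ^ q := by ring
    _ ≤ (L ^ 6)⁻¹ / 8 := by linarith [hp.ρ]

theorem term4b (h : Reg δ L P S q) (hp : Phy β f0 c₀ lam κ L P S q) :
    2 * ((tN δ L : ℝ) * (2 * ((sq (3 * mN δ L)).card * S * Γ₂ ((16 * S)⁻¹) q))) /
      (tN δ L * (β * f0 * (β ^ q * ((κ ^ q)⁻¹ / 8))) / 4) ^ 2 ≤ (L ^ 6)⁻¹ / 8 := by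
  have hT := h.t1
  have hS := h.hS
  have hL := h.hL
  have hP := h.Ppos
  have hP1 := h.hP
  have hE := h.E1
  have a1 : Γ₂ ((16 * S)⁻¹) q ≤ 2 * P ^ (2 * q) := by
    unfold Γ₂
    rw [inv_pow, inv_inv, ← two_mul]
    exact mul_le_mul_of_nonneg_left (pow_le_pow_left₀ (by positivity) h.hSP _) (by norm_num)
  have a0 : 0 ≤ Γ₂ ((16 * S)⁻¹) q := by
    unfold Γ₂
    positivity
  refine (vinv h hp (X := 2 * ((tN δ L : ℝ) * (2 * ((sq (3 * mN δ L)).card * S * Γ₂ ((16 * S)⁻¹) q))))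
    (by positivity)).trans ?_
  have a2 : ((sq (3 * mN δ L)).card : ℝ) * S * Γ₂ ((16 * S)⁻¹) q ≤ 196 * Real.exp ((2 + 6 * δ) * L) * P * (2 * P ^ (2 * q)) :=
    mul_le_mul (mul_le_mul h.mcard (by linarith [h.hSP]) (by positivity) (by positivity)) a1 a0 (by positivity)
  have e1 : Real.exp ((2 + 6 * δ) * L) * Real.exp (δ * L) ^ 4 = Real.exp ((2 + 10 * δ) * L) := by
    rw [← Real.exp_nat_mul, ← Real.exp_add]
    congr 1
    push_cast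
    ring
  have a3 : Real.exp ((2 + 6 * δ) * L) * Real.exp (δ * L) ^ 4 ≤ tN δ L := by
    rw [e1]
    exact h.tbd.1
  have hE4 : 0 < Real.exp (δ * L) ^ 4 := by positivity
  have a4 : Real.exp ((2 + 6 * δ) * L) / tN δ L ≤ 1 / Real.exp (δ * L) ^ 4 := by
    rw [div_le_div_iff₀ (by positivity) hE4]
    linarith
  have hL6 : 0 < L ^ 6 := by positivity
  calc 1024 * P ^ (q + 3) * (2 * ((tN δ L : ℝ) * (2 * ((sq (3 * mN δ L)).card * S * Γ₂ ((16 * S)⁻¹) q)))) / (tN δ L : ℝ) ^ 2 =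
      4096 * P ^ (q + 3) * (((sq (3 * mN δ L)).card * S * Γ₂ ((16 * S)⁻¹) q) / tN δ L) := by
        field_simp
        ring
    _ ≤ 4096 * P ^ (q + 3) * ((196 * Real.exp ((2 + 6 * δ) * L) * P * (2 * P ^ (2 * q))) / tN δ L) := by
        refine mul_le_mul_of_nonneg_left ?_ (by positivity)
        exact div_le_div_of_nonneg_right a2 (by positivity)
    _ = 1605632 * P ^ (3 * q + 4) * (Real.exp ((2 + 6 * δ) * L) / tN δ L) := by ring
    _ ≤ 1605632 * P ^ (3 * q + 4) * (1 / Real.exp (δ * L) ^ 4) := mul_le_mul_of_nonneg_left a4 (by positivity)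
    _ = 1605632 * P ^ (3 * q + 4) / Real.exp (δ * L) ^ 4 := by ring
    _ ≤ (L ^ 6)⁻¹ / 8 := by
      rw [div_le_iff₀ hE4, div_mul_eq_mul_div, le_div_iff₀ (by norm_num), ← div_eq_inv_mul, le_div_iff₀ hL6]
      have b1 : Real.exp (δ * L) ≤ Real.exp (δ * L) ^ 4 := le_self_pow₀ hE (by norm_num)
      have a6 := h.Epow (k := 3 * q + 20) le_rfl
      refine le_trans (le_trans ?_ a6) b1
      have b2 : L ^ 6 ≤ P ^ 6 := pow_le_pow_left₀ (by linarith) h.hLP 6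
      have b3 : (12845056 : ℝ) ≤ P ^ 2 := by nlinarith [h.hP]
      have b4 : P ^ (3 * q + 12) ≤ P ^ (3 * q + 20) := pow_le_pow_right₀ h.P1 (by omega)
      refine le_trans ?_ b4
      calc 1605632 * P ^ (3 * q + 4) * 8 * L ^ 6 = 12845056 * P ^ (3 * q + 4) * L ^ 6 := by ring
        _ ≤ P ^ 2 * P ^ (3 * q + 4) * P ^ 6 :=
          mul_le_mul (mul_le_mul_of_nonneg_right b3 (by positivity)) b2 (by positivity) (by positivity)
        _ = _ := by ring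

theorem term4c (h : Reg δ L P S q) (hp : Phy β f0 c₀ lam κ L P S q) :
    2 * (2 * (uN δ L q : ℝ) + 1) * ((tN δ L : ℝ) * ((β * S) ^ 2 * (Γ₁ lam c₀ q + Γ₂ ((16 * S)⁻¹) q))) /
      (tN δ L * (β * f0 * (β ^ q * ((κ ^ q)⁻¹ / 8))) / 4) ^ 2 ≤ (L ^ 6)⁻¹ / 8 := by
  have hT := h.t1
  have hS := h.hS
  have hL := h.hL
  have hP := h.Ppos
  have hP1 := h.hP
  have hE := h.E1
  have hu := h.u1
  have hβ := hp.β0
  have hβ1 := hp.β1
  have hc := hp.c0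
  have hl := hp.l0
  have a1 : Γ₂ ((16 * S)⁻¹) q ≤ 2 * P ^ (2 * q) := by
    unfold Γ₂
    rw [inv_pow, inv_inv, ← two_mul]
    exact mul_le_mul_of_nonneg_left (pow_le_pow_left₀ (by positivity) h.hSP _) (by norm_num)
  have a0 : 0 ≤ Γ₂ ((16 * S)⁻¹) q := by
    unfold Γ₂
    positivity
  have a1' : Γ₁ lam c₀ q ≤ 2 * P * P ^ q := by
    unfold Γ₁
    have e1 : 2 / c₀ * (lam ^ (q + q))⁻¹ = 2 * c₀⁻¹ * ((lam ^ 2)⁻¹) ^ q := by
      rw [← two_mul, pow_mul, inv_pow, div_eq_mul_inv]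
    rw [e1]
    exact mul_le_mul (mul_le_mul_of_nonneg_left hp.c0P (by norm_num)) (pow_le_pow_left₀ (by positivity) hp.lP q)
      (by positivity) (by positivity)
  have a0' : 0 ≤ Γ₁ lam c₀ q := by
    unfold Γ₁
    positivity
  have a2 : Γ₁ lam c₀ q + Γ₂ ((16 * S)⁻¹) q ≤ 4 * P ^ (2 * q + 1) := by
    have b1 : P * P ^ q ≤ P ^ (2 * q + 1) := by
      rw [← pow_succ']
      exact pow_le_pow_right₀ h.P1 (by omega)
    have b2 : P ^ (2 * q) ≤ P ^ (2 * q + 1) := pow_le_pow_right₀ h.P1 (by omega)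
    nlinarith
  have a3 : (β * S) ^ 2 ≤ P ^ 2 := by
    refine pow_le_pow_left₀ (by positivity) ?_ 2
    have : β * S ≤ 1 * S := mul_le_mul_of_nonneg_right hβ1 (by linarith)
    linarith [h.hSP]
  refine (vinv h hp (X := 2 * (2 * (uN δ L q : ℝ) + 1) * ((tN δ L : ℝ) * ((β * S) ^ 2 * (Γ₁ lam c₀ q + Γ₂ ((16 * S)⁻¹) q))))
    (by positivity)).trans ?_
  have hE8 : 0 < Real.exp (δ * L) ^ 8 := by positivity
  have a5 : 2 * (2 * (uN δ L q : ℝ) + 1) / tN δ L ≤ 12 * P / Real.exp (δ * L) ^ 8 := by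
    rw [div_le_div_iff₀ (by positivity) hE8]
    have h5 := h.uT
    have h6 := h.hLP
    have h7 : 2 * (2 * (uN δ L q : ℝ) + 1) * Real.exp (δ * L) ^ 8 ≤ 6 * ((uN δ L q : ℝ) * Real.exp (δ * L) ^ 8) := by nlinarith
    have h8 : L * tN δ L ≤ P * tN δ L := mul_le_mul_of_nonneg_right h6 (by positivity)
    linarith
  have hL6 : 0 < L ^ 6 := by positivity
  calc 1024 * P ^ (q + 3) * (2 * (2 * (uN δ L q : ℝ) + 1) * ((tN δ L : ℝ) * ((β * S) ^ 2 * (Γ₁ lam c₀ q + Γ₂ ((16 * S)⁻¹) q)))) /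
        (tN δ L : ℝ) ^ 2 =
      1024 * P ^ (q + 3) * ((2 * (2 * (uN δ L q : ℝ) + 1) / tN δ L) * ((β * S) ^ 2 * (Γ₁ lam c₀ q + Γ₂ ((16 * S)⁻¹) q))) := by
        field_simp
    _ ≤ 1024 * P ^ (q + 3) * ((12 * P / Real.exp (δ * L) ^ 8) * (P ^ 2 * (4 * P ^ (2 * q + 1)))) := by
        refine mul_le_mul_of_nonneg_left ?_ (by positivity)
        exact mul_le_mul a5 (mul_le_mul a3 a2 (by positivity) (by positivity)) (by positivity) (by positivity)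
    _ = 49152 * P ^ (3 * q + 7) / Real.exp (δ * L) ^ 8 := by ring
    _ ≤ (L ^ 6)⁻¹ / 8 := by
      rw [div_le_iff₀ hE8, div_mul_eq_mul_div, le_div_iff₀ (by norm_num), ← div_eq_inv_mul, le_div_iff₀ hL6]
      have b1 : Real.exp (δ * L) ≤ Real.exp (δ * L) ^ 8 := le_self_pow₀ hE (by norm_num)
      have a6 := h.Epow (k := 3 * q + 20) le_rfl
      refine le_trans (le_trans ?_ a6) b1
      have b2 : L ^ 6 ≤ P ^ 6 := pow_le_pow_left₀ (by linarith) h.hLP 6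
      have b3 : (393216 : ℝ) ≤ P ^ 2 := by nlinarith [h.hP]
      have b4 : P ^ (3 * q + 15) ≤ P ^ (3 * q + 20) := pow_le_pow_right₀ h.P1 (by omega)
      refine le_trans ?_ b4
      calc 49152 * P ^ (3 * q + 7) * 8 * L ^ 6 = 393216 * P ^ (3 * q + 7) * L ^ 6 := by ring
        _ ≤ P ^ 2 * P ^ (3 * q + 7) * P ^ 6 :=
          mul_le_mul (mul_le_mul_of_nonneg_right b3 (by positivity)) b2 (by positivity) (by positivity)
        _ = _ := by ring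

end

end Pool.Agent.H964.DP
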