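import Pool.Agent.H964.DP.Blk8

/-! # Project DP: the parameters satisfy the hypotheses of the one-block estimate -/

set_option autoImplicit false

open MeasureTheory ProbabilityTheory Filter Finset

namespace Pool.Agent.H964.DP

/-- bounds for sums of a correlation function -/
def Sums (f : V → ℝ) (C : ℝ) (A : ℕ) : Prop := ∀ N : ℕ,
      (∀ z, |f z| ≤ C * (1 + Real.log (1 + N)) ^ A) ∧
      (∀ σ : ℕ → V, ∀ n ≤ N, ∀ j x, Am (fun k y => f (y - σ k)) n j x ≤ C * (1 + Real.log (1 + N)) ^ A) ∧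
      (∀ n ≤ N, ∀ x, Cm f n x ≤ C * (1 + Real.log (1 + N)) ^ A) ∧
      (∀ F : Finset V, (∀ y ∈ F, |y.1| ≤ N ∧ |y.2| ≤ N) → ∑ y ∈ F, |f y| ≤ C * (1 + Real.log (1 + N)) ^ A)

theorem Sums.mono {f : V → ℝ} {C C' : ℝ} {A A' : ℕ} (h : Sums f C A) (hC0 : 0 ≤ C) (hC : C ≤ C') (hA : A ≤ A') :
    Sums f C' A' := by
  intro N
  have h1 : C * (1 + Real.log (1 + N)) ^ A ≤ C' * (1 + Real.log (1 + N)) ^ A' := by
    have h2 : 0 ≤ Real.log (1 + (N : ℝ)) := Real.log_nonneg (by have : (0 : ℝ) ≤ N := Nat.cast_nonneg N; linarith)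
    have h3 : (1 + Real.log (1 + (N : ℝ))) ^ A ≤ (1 + Real.log (1 + (N : ℝ))) ^ A' := pow_le_pow_right₀ (by linarith) hA
    exact mul_le_mul hC h3 (by positivity) (by linarith)
  obtain ⟨a1, a2, a3, a4⟩ := h N
  exact ⟨fun z => (a1 z).trans h1, fun σ n hn j x => (a2 σ n hn j x).trans h1, fun n hn x => (a3 n hn x).trans h1,
    fun F hF => (a4 F hF).trans h1⟩

section
variable {δ L P S : ℝ} {q : ℕ} {β c₀ lam κ : ℝ} {f f2 : V → ℝ}

/-- decay outside the small boxes -/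
noncomputable def et (Cf δ L : ℝ) : ℝ := Cf * Real.exp (-((2 + 4 * δ) * L))

theorem far_et {Cf : ℝ} (hCf : 1 ≤ Cf) (h : Reg δ L P S q) {g : V → ℝ}
    (hg : ∀ (z : V) (Y : ℝ), 1 ≤ Y → Y ≤ ns z → |g z| ≤ Cf * Y ^ (-(1 - δ / 2))) {z : V}
    (hz : ((mN δ L : ℕ) : ℤ) < |z.1| ∨ ((mN δ L : ℕ) : ℤ) < |z.2|) : |g z| ≤ et Cf δ L := by
  have hM := h.mbd.1
  have hd := h.d0
  have hd1 := h.d1
  have hL := h.hL
  have e0 : Real.exp ((2 + 6 * δ) * L) = Real.exp ((1 + 3 * δ) * L) ^ 2 := by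
    rw [← Real.exp_nat_mul]
    congr 1
    push_cast
    ring
  have h1 : Real.exp ((2 + 6 * δ) * L) ≤ ns z := by
    rw [e0]
    have h2 : Real.exp ((1 + 3 * δ) * L) ^ 2 ≤ (mN δ L : ℝ) ^ 2 := pow_le_pow_left₀ (Real.exp_pos _).le hM 2
    unfold ns
    rcases hz with hz | hz
    · have h3 : (mN δ L : ℝ) ≤ |(z.1 : ℝ)| := by
        have : ((mN δ L : ℕ) : ℤ) ≤ |z.1| := hz.le
        exact_mod_cast this
      have h4 : (mN δ L : ℝ) ^ 2 ≤ |(z.1 : ℝ)| ^ 2 := pow_le_pow_left₀ (Nat.cast_nonneg _) h3 2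
      rw [sq_abs] at h4
      nlinarith [sq_nonneg (z.2 : ℝ)]
    · have h3 : (mN δ L : ℝ) ≤ |(z.2 : ℝ)| := by
        have : ((mN δ L : ℕ) : ℤ) ≤ |z.2| := hz.le
        exact_mod_cast this
      have h4 : (mN δ L : ℝ) ^ 2 ≤ |(z.2 : ℝ)| ^ 2 := pow_le_pow_left₀ (Nat.cast_nonneg _) h3 2
      rw [sq_abs] at h4
      nlinarith [sq_nonneg (z.1 : ℝ)]
  refine (hg z _ (exp_bd (by linarith) (by linarith)) h1).trans ?_
  unfold et
  refine mul_le_mul_of_nonneg_left ?_ (by linarith)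
  rw [← Real.exp_mul]
  refine Real.exp_le_exp.2 ?_
  have h5 : 0 ≤ δ * (1 - 3 * δ) := mul_nonneg hd.le (by linarith)
  nlinarith [mul_nonneg h5 (by linarith : 0 ≤ L)]

theorem et_u {Cf : ℝ} (hCf : 1 ≤ Cf) (hCP : Cf ≤ P) (h : Reg δ L P S q) : et Cf δ L * uN δ L q ≤ 1 / 8 := by
  have h1 := h.ubd.2
  have hL := h.hL
  have hLP := h.hLP
  have hP := h.hP
  have hE := h.E1
  unfold et
  have e1 : Real.exp (-((2 + 4 * δ) * L)) * Real.exp ((2 + 2 * δ) * L) * Real.exp (δ * L) ^ 2 = 1 := by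
    rw [← Real.exp_nat_mul, ← Real.exp_add, ← Real.exp_add]
    rw [show -((2 + 4 * δ) * L) + (2 + 2 * δ) * L + ((2 : ℕ) : ℝ) * (δ * L) = 0 by push_cast; ring]
    exact Real.exp_zero
  have h2 : P ^ 3 ≤ Real.exp (δ * L) ^ 2 := (h.Epow (k := 3) (by omega)).trans (le_self_pow₀ hE (by norm_num))
  have hE2 : 0 < Real.exp (δ * L) ^ 2 := by positivity
  have h3 : Cf * Real.exp (-((2 + 4 * δ) * L)) * uN δ L q ≤ 2 * P ^ 2 / Real.exp (δ * L) ^ 2 := by
    rw [le_div_iff₀ hE2]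
    calc Cf * Real.exp (-((2 + 4 * δ) * L)) * uN δ L q * Real.exp (δ * L) ^ 2 ≤
        P * Real.exp (-((2 + 4 * δ) * L)) * (2 * L * Real.exp ((2 + 2 * δ) * L)) * Real.exp (δ * L) ^ 2 := by
          refine mul_le_mul_of_nonneg_right ?_ hE2.le
          exact mul_le_mul (mul_le_mul_of_nonneg_right hCP (Real.exp_pos _).le) h1 (Nat.cast_nonneg _)
            (mul_nonneg (by linarith) (Real.exp_pos _).le)
      _ = 2 * (P * L) * (Real.exp (-((2 + 4 * δ) * L)) * Real.exp ((2 + 2 * δ) * L) * Real.exp (δ * L) ^ 2) := by ring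
      _ = 2 * (P * L) := by rw [e1, mul_one]
      _ ≤ 2 * P ^ 2 := by nlinarith
  refine h3.trans ?_
  rw [div_le_div_iff₀ hE2 (by norm_num)]
  have h4 : 16 * P ^ 2 ≤ P ^ 3 := by
    have : 0 < P ^ 2 := by positivity
    nlinarith
  linarith

theorem sum_shift (s : V) {R N : ℕ} (hs : s ∈ sq R) (hN : 2 * R ≤ N) {C : ℝ} (hf : ∀ F : Finset V, (∀ y ∈ F, |y.1| ≤ N ∧ |y.2| ≤ N) →
    ∑ y ∈ F, |f y| ≤ C) : ∑ x ∈ sq R, |f (x - s)| ≤ C ∧ ∑ x ∈ sq R, |f (s - x)| ≤ C := by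
  obtain ⟨s1, s2⟩ := mem_sq.1 hs
  constructor
  · have h1 : ∑ x ∈ sq R, |f (x - s)| = ∑ y ∈ (sq R).image (fun x => x - s), |f y| := by
      rw [Finset.sum_image]
      intro x _ y _ hxy
      exact sub_left_injective hxy
    rw [h1]
    refine hf _ fun y hy => ?_
    obtain ⟨x, hx, rfl⟩ := Finset.mem_image.1 hy
    obtain ⟨x1, x2⟩ := mem_sq.1 hx
    simp only [Prod.fst_sub, Prod.snd_sub, abs_le] at *
    omega
  · have h1 : ∑ x ∈ sq R, |f (s - x)| = ∑ y ∈ (sq R).image (fun x => s - x), |f y| := by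
      rw [Finset.sum_image]
      intro x _ y _ hxy
      exact sub_right_injective hxy
    rw [h1]
    refine hf _ fun y hy => ?_
    obtain ⟨x, hx, rfl⟩ := Finset.mem_image.1 hy
    obtain ⟨x1, x2⟩ := mem_sq.1 hx
    simp only [Prod.fst_sub, Prod.snd_sub, abs_le] at *
    omega

theorem mkPar (hLC : S_LCLT) {C : ℝ} {A : ℕ} (hC : 1 ≤ C) (hS : S = C * (9 * L) ^ A) (hs1 : Sums f C A)
    (hs2 : Sums f2 C A) (hf : ∀ z, 0 ≤ f z) (h : Reg δ L P S q) (hp : Phy β (f 0) c₀ lam κ L P S q)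
    {Cf : ℝ} (hCf : 1 ≤ Cf) (hCP : Cf ≤ P)
    (hg1 : ∀ (z : V) (Y : ℝ), 1 ≤ Y → Y ≤ ns z → |f z| ≤ Cf * Y ^ (-(1 - δ / 2)))
    (hg2 : ∀ (z : V) (Y : ℝ), 1 ≤ Y → Y ≤ ns z → |f2 z| ≤ Cf * Y ^ (-(1 - δ / 2)))
    (hl1 : lam ≤ 1) {φ₂ : V → ℝ} (hφ₂ : ∀ z, 0 ≤ φ₂ z ∧ φ₂ z ≤ 1)
    (hφ₂c : ∀ z, ns z ≤ Real.exp (2 * ((1 + 4 * δ) * L)) → c₀ ≤ φ₂ z)
    (hφ₂s : ∀ z, ns z ≤ Real.exp (2 * ((1 + 4 * δ) * L)) → avg (avg (fun y => Real.exp (lam ^ 2 * |f2 y|) * φ₂ y)) z ≤ φ₂ z)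
    {φ : V → ℝ} (hφ : ∀ z, 0 ≤ φ z ∧ φ z ≤ 1) (hφs : ∀ z, φ z ≠ 0 → ns z ≤ Real.exp (2 * L)) (hφ0 : 1 / 4 ≤ φ 0)
    (hsub : ∀ z, φ z ≤ avg (avg (fun y => (1 + κ * f y) * φ y)) z) :
    Par f f2 β q (uN δ L q) (mN δ L) (tN δ L) (sN δ L q) (rN δ L q) lam ((16 * S)⁻¹) c₀ (et Cf δ L) (et Cf δ L) S
      ((κ ^ q)⁻¹ / 8) := by
  have hS1 := h.hS
  have hβ := hp.β0
  have hβ1 := hp.β1
  set N := 2 * rN δ L q + 2 * uN δ L q with hN
  have hSN : C * (1 + Real.log (1 + (N : ℝ))) ^ A ≤ S := by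
    rw [hS]
    refine mul_le_mul_of_nonneg_left ?_ (by linarith)
    refine pow_le_pow_left₀ ?_ h.Nbd A
    have : 0 ≤ Real.log (1 + (N : ℝ)) := Real.log_nonneg (by have : (0 : ℝ) ≤ N := Nat.cast_nonneg N; linarith)
    linarith
  obtain ⟨a1, a2, a3, a4⟩ := hs1 N
  obtain ⟨b1, b2, b3, b4⟩ := hs2 N
  have hη0 : 0 ≤ et Cf δ L := mul_nonneg (by linarith) (Real.exp_pos _).le
  have hηu := et_u hCf hCP h
  have hu1 := h.u1
  have hη1 : et Cf δ L ≤ 1 := by nlinarith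
  have hl0 := hp.l0
  have hnu : nN δ L ≤ uN δ L q := by
    unfold uN
    exact Nat.le_mul_of_pos_left _ h.hq
  have hn1 : 1 ≤ nN δ L := by
    have := h.nbd.1
    have h2 := exp_bd (c := 2 + 2 * δ) (L := L) (by linarith [h.d0]) (by linarith [h.hL])
    by_contra h3
    have h4 : nN δ L = 0 := by omega
    rw [h4] at this
    norm_num at this
    linarith
  refine
    { hβ := hβ
      hT := by exact_mod_cast h.t1
      hS := hS1
      f_nonneg := hf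
      f_zero := hp.f00
      f_le := fun z => (le_abs_self _).trans ((a1 z).trans hSN)
      f2_le := fun z => (b1 z).trans hSN
      am := fun σ n hn j x => (a2 σ n (by omega) j x).trans hSN
      cm := fun n hn x => (b3 n (by omega) x).trans hSN
      sum1 := ?_
      sum2 := fun s hs => (sum_shift s hs (by omega) b4).1.trans hSN
      sum2' := fun s hs => (sum_shift s hs (by omega) b4).2.trans hSN
      lam2_pos := by positivity
      lam2_a := ?_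
      lam2_b := ?_
      lam_pos := hl0
      eta := hη0
      eta2 := hη0
      lam_a := ?_
      lam_b := ?_
      far := ?_
      c_pos := hp.c0
      c_le := ?_
      sup := ?_
      g_pos := ?_
      g_le := ?_ }
  · intro s hs
    refine le_trans (Finset.sum_le_sum fun x _ => le_abs_self _) ((sum_shift s hs (by omega) a4).1.trans hSN)
  · have : (16 * S)⁻¹ * (β * S) = β / 16 := by field_simp
    rw [this]
    linarith
  · have : ((16 * S)⁻¹) ^ 2 * S = 1 / (256 * S) := by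
      field_simp
      norm_num
    rw [this, div_le_div_iff₀ (by positivity) (by norm_num)]
    linarith
  · have h1 : lam * et Cf δ L * uN δ L q = lam * (et Cf δ L * uN δ L q) := by ring
    rw [h1]
    have h2 : lam * (et Cf δ L * uN δ L q) ≤ 1 * (1 / 8) := mul_le_mul hl1 hηu (by positivity) (by norm_num)
    linarith
  · have h1 : 2 * (lam * et Cf δ L) + lam ^ 2 * (et Cf δ L + et Cf δ L * et Cf δ L) ≤ 4 * et Cf δ L := by
      have h2 : lam * et Cf δ L ≤ 1 * et Cf δ L := mul_le_mul_of_nonneg_right hl1 hη0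
      have h3 : lam ^ 2 ≤ 1 := pow_le_one₀ hl0.le hl1
      have h4 : et Cf δ L * et Cf δ L ≤ et Cf δ L * 1 := mul_le_mul_of_nonneg_left hη1 hη0
      have h5 : lam ^ 2 * (et Cf δ L + et Cf δ L * et Cf δ L) ≤ 1 * (et Cf δ L + et Cf δ L * et Cf δ L) :=
        mul_le_mul_of_nonneg_right h3 (by positivity)
      linarith
    calc _ ≤ 4 * et Cf δ L * uN δ L q := mul_le_mul_of_nonneg_right h1 (by linarith)
      _ = 4 * (et Cf δ L * uN δ L q) := by ring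
      _ ≤ 1 / 2 := by linarith
  · intro z hz
    have h1 := far_et hCf h hg1 hz
    have h2 := far_et hCf h hg2 hz
    refine ⟨?_, h2⟩
    rw [abs_of_nonneg (hf z)] at h1
    calc β * f z ≤ 1 * f z := mul_le_mul_of_nonneg_right hβ1 (hf z)
      _ ≤ _ := by rw [one_mul]; exact h1
  · have h1 := hφ₂c 0 (by unfold ns; simp; positivity)
    exact h1.trans (hφ₂ 0).2
  · refine ⟨φ₂, hφ₂, fun z hz1 hz2 => ?_⟩
    have hreg : ns z ≤ Real.exp (2 * ((1 + 4 * δ) * L)) := by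
      have hM := h.mbd.2
      have e0 : Real.exp (2 * ((1 + 4 * δ) * L)) = Real.exp ((1 + 3 * δ) * L) ^ 2 * Real.exp (δ * L) ^ 2 := by
        rw [← Real.exp_nat_mul, ← Real.exp_nat_mul, ← Real.exp_add]
        congr 1
        push_cast
        ring
      rw [e0]
      have z1 : |(z.1 : ℝ)| ≤ 12 * Real.exp ((1 + 3 * δ) * L) := by
        have : |(z.1 : ℝ)| ≤ 6 * (mN δ L : ℝ) := by exact_mod_cast hz1
        linarith
      have z2 : |(z.2 : ℝ)| ≤ 12 * Real.exp ((1 + 3 * δ) * L) := by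
        have : |(z.2 : ℝ)| ≤ 6 * (mN δ L : ℝ) := by exact_mod_cast hz2
        linarith
      have z3 : (z.1 : ℝ) ^ 2 ≤ (12 * Real.exp ((1 + 3 * δ) * L)) ^ 2 := by
        rw [← sq_abs (z.1 : ℝ)]
        exact pow_le_pow_left₀ (abs_nonneg _) z1 2
      have z4 : (z.2 : ℝ) ^ 2 ≤ (12 * Real.exp ((1 + 3 * δ) * L)) ^ 2 := by
        rw [← sq_abs (z.2 : ℝ)]
        exact pow_le_pow_left₀ (abs_nonneg _) z2 2
      have z5 : 288 ≤ Real.exp (δ * L) ^ 2 := by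
        have h1 := h.Epow (k := 1) (by omega)
        rw [pow_one] at h1
        have h2 : Real.exp (δ * L) ≤ Real.exp (δ * L) ^ 2 := le_self_pow₀ h.E1 (by norm_num)
        linarith [h.hP]
      unfold ns
      have z6 : 0 < Real.exp ((1 + 3 * δ) * L) ^ 2 := by positivity
      nlinarith
    exact ⟨hφ₂c z hreg, hφ₂s z hreg⟩
  · have := hp.κ0
    positivity
  · unfold uN
    refine g_low hLC hf hS1 (fun z => (le_abs_self _).trans ((a1 z).trans hSN)) hp.κ0 hp.κ1 hφ hφs hφ0 hsub hn1 h.hq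
      (fun x => (a3 _ (by omega) x).trans hSN) h.ha h.hb

end

end Pool.Agent.H964.DP
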