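import Pool.Agent.H964.DP.Trl

/-! # Project DP: the case `a = 0` (profile `cos (π y / 2)`) and the form of the conclusion -/

set_option autoImplicit false

open MeasureTheory ProbabilityTheory Filter Finset Topology

namespace Pool.Agent.H964.DP

theorem prof_cos : Prof 0 (Real.pi ^ 2 / 4) (fun y => Real.cos (Real.pi / 2 * y))
    (fun y => -(Real.pi / 2 * Real.sin (Real.pi / 2 * y))) := by
  have hpi := Real.pi_pos
  have hd : ∀ y : ℝ, HasDerivAt (fun y : ℝ => Real.pi / 2 * y) (Real.pi / 2) y := fun y => by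
    simpa using (hasDerivAt_id y).const_mul (Real.pi / 2)
  refine ⟨by positivity, (Real.continuous_cos.comp (continuous_const.mul continuous_id)).continuousOn, ?_, ?_, ?_, ?_, ?_, ?_, ?_⟩
  · show Real.cos (Real.pi / 2 * 0) = 1
    rw [mul_zero, Real.cos_zero]
  · show Real.cos (Real.pi / 2 * 1) = 0
    rw [mul_one, Real.cos_pi_div_two]
  · intro y h0 h1
    refine Real.cos_pos_of_mem_Ioo ⟨?_, ?_⟩
    · have : 0 ≤ Real.pi / 2 * y := by positivity
      linarith
    · nlinarith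
  · intro y _ _
    have h1 := (Real.hasDerivAt_cos (Real.pi / 2 * y)).comp y (hd y)
    have e : -Real.sin (Real.pi / 2 * y) * (Real.pi / 2) = -(Real.pi / 2 * Real.sin (Real.pi / 2 * y)) := by ring
    rw [e] at h1
    exact h1
  · intro y _ _
    have h1 := (((Real.hasDerivAt_sin (Real.pi / 2 * y)).comp y (hd y)).const_mul (Real.pi / 2)).neg
    have e : -(Real.pi / 2 * (Real.cos (Real.pi / 2 * y) * (Real.pi / 2))) =
        -(Real.pi ^ 2 / 4 * y ^ (0 : ℝ) * Real.cos (Real.pi / 2 * y)) := by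
      rw [Real.rpow_zero]
      ring
    rw [e] at h1
    exact h1
  · intro y h0 h1
    have h2 : 0 ≤ Real.sin (Real.pi / 2 * y) := Real.sin_nonneg_of_nonneg_of_le_pi (by positivity) (by nlinarith)
    have h3 : 0 ≤ Real.pi / 2 * Real.sin (Real.pi / 2 * y) := by positivity
    show -(Real.pi / 2 * Real.sin (Real.pi / 2 * y)) ≤ 0
    linarith
  · refine ⟨Real.pi / 2 * (Real.pi / 2), fun y h0 _ => ?_⟩
    show |-(Real.pi / 2 * Real.sin (Real.pi / 2 * y))| ≤ _
    rw [abs_neg, abs_mul, abs_of_pos (by positivity : 0 < Real.pi / 2), zero_add, Real.rpow_one, mul_assoc]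
    refine mul_le_mul_of_nonneg_left ?_ (by positivity)
    have := Real.abs_sin_le_abs (x := Real.pi / 2 * y)
    rwa [abs_of_pos (by positivity : 0 < Real.pi / 2 * y)] at this

theorem sup_cos : Sup 0 (Real.pi ^ 2 / 4) := Pool.Agent.H294.DP.t_HSUP 0 _ _ _ (by norm_num) prof_cos

theorem sub_cos : Sub 0 (Real.pi ^ 2 / 4) := Pool.Agent.H294.DP.t_HSUB 0 _ _ _ (by norm_num) prof_cos

theorem const_cos : 2 * (Real.pi ^ 2 / 4 / 2) ^ (1 / ((0 : ℝ) + 2)) = Real.pi / √2 := by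
  have hpi := Real.pi_pos
  have e1 : Real.pi ^ 2 / 4 / 2 = (Real.pi / (2 * √2)) ^ 2 := by
    rw [div_pow, mul_pow, Real.sq_sqrt (by norm_num)]
    ring
  have e2 : 1 / ((0 : ℝ) + 2) = 1 / 2 := by norm_num
  rw [e1, e2, ← Real.sqrt_eq_rpow, Real.sqrt_sq (by positivity)]
  field_simp

/-- from the limit to the form `exp (-(c / β)^s (1 + o(1)))` -/
theorem exp_form {s c : ℝ} (hc : 0 < c) {p : ℝ → ℝ} (h1 : ∀ᶠ β in 𝓝[>] (0 : ℝ), p β < 0)
    (h2 : Tendsto (fun β : ℝ => β ^ s * Real.log (-p β)) (𝓝[>] 0) (𝓝 (-(c ^ s)))) :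
    ∃ r : ℝ → ℝ, Tendsto r (𝓝[>] 0) (𝓝 0) ∧ ∀ᶠ β in 𝓝[>] (0 : ℝ), -p β = Real.exp (-((c / β) ^ s * (1 + r β))) := by
  have hcs : 0 < c ^ s := by positivity
  refine ⟨fun β => -(β ^ s * Real.log (-p β)) / c ^ s - 1, ?_, ?_⟩
  · have h3 := ((h2.neg).div_const (c ^ s)).sub_const 1
    rw [neg_neg, div_self hcs.ne', sub_self] at h3
    exact h3
  · filter_upwards [h1, self_mem_nhdsWithin] with β h4 h5
    have h5' : 0 < β := h5
    have hβs : 0 < β ^ s := by positivity
    have e1 : -((c / β) ^ s * (1 + (-(β ^ s * Real.log (-p β)) / c ^ s - 1))) = Real.log (-p β) := by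
      rw [Real.div_rpow hc.le h5'.le]
      field_simp
      ring
    rw [e1, Real.exp_log (by linarith)]

end Pool.Agent.H964.DP
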