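import Pool.Agent.H964.DP.Low

/-! # Project DP: bounds for second moments of chains -/

set_option autoImplicit false

open MeasureTheory ProbabilityTheory Filter Finset

namespace Pool.Agent.H964.DP

/-- independent slices with given first and second moments -/
structure Sl {S : Type} [MeasurableSpace S] (ν : ℕ → Measure S) (g : V → S → ℝ) (m : ℕ → V → ℝ) (f : V → ℝ) :
    Prop where
  prob : ∀ k, IsProbabilityMeasure (ν k)
  meas : ∀ x, Measurable (g x)
  lp : ∀ k x, MemLp (g x) 2 (ν k)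
  mean : ∀ k x, ∫ s, g x s ∂(ν k) = m k x
  cov : ∀ k x y, ∫ s, g x s * g y s ∂(ν k) = f (x - y) + m k x * m k y

variable {S : Type} [MeasurableSpace S] {ν : ℕ → Measure S} {g : V → S → ℝ} {m : ℕ → V → ℝ} {f : V → ℝ}

/-- second moment bound from a supersolution up to the horizon `u` -/
theorem SMx (hSM : S_SM) (hs : Sl ν g m f) {Mm Mc : ℝ} (hm : ∀ k x, |m k x| ≤ Mm) (hc : ∀ x, |f x| ≤ Mc)
    {d d' : V → ℝ} (hd : ∀ x, d x = 0 ∨ d x = 1) (hd' : ∀ x, d' x = 0 ∨ d' x = 1) {lam : ℝ} (hl : 0 < lam)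
    (u : ℕ) (Ψ : ℕ → ℕ → V → V → ℝ) {Q : ℝ}
    (h0 : ∀ (j : ℕ) (x y : V), j ≤ u → d x = 1 → d' y = 1 → 1 ≤ Ψ 0 j x y)
    (hQ : ∀ (n j : ℕ) (x y : V), n + j ≤ u → d x = 1 → d' y = 1 → Ψ n j x y ≤ Q)
    (h1 : ∀ (n j : ℕ) (x y : V), n + 1 + j ≤ u → d x = 1 → d' y = 1 →
      avg (fun x' => avg (fun y' => d x' * d' y' * ((1 + lam * |m j x'| + lam * |m j y'| +
        lam ^ 2 * (|f (x' - y')| + |m j x'| * |m j y'|)) * Ψ n (j + 1) x' y')) y) x ≤ Ψ (n + 1) j x y)
    (n k l : ℕ) (hn : n ≤ u) (x y : V) (hx : d x = 1) (hy : d' y = 1) :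
    lam ^ (k + l) * |∫ w, Ch d n (fun i y => g y (w i)) k x * Ch d' n (fun i y => g y (w i)) l y
        ∂(Measure.infinitePi ν)| ≤ Ψ n 0 x y := by
  have := hs.prob
  have hMm : 0 ≤ Mm := (abs_nonneg _).trans (hm 0 0)
  have hMc : 0 ≤ Mc := (abs_nonneg _).trans (hc 0)
  set B : ℝ := 1 + lam * Mm + lam * Mm + lam ^ 2 * (Mc + Mm * Mm) with hB
  have hB1 : 1 ≤ B := by
    rw [hB]
    have : 0 ≤ lam * Mm := by positivity
    have : 0 ≤ lam ^ 2 * (Mc + Mm * Mm) := by positivity
    linarith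
  set Q' : ℝ := max Q 1 with hQ'
  have hQ1 : 1 ≤ Q' := le_max_right _ _
  have key := (hSM S ν g m (fun x y => f (x - y)) hs.meas hs.lp hs.mean hs.cov d d' hd hd').2 lam
    (fun n j x y => if n + j ≤ u then Ψ n j x y else Q' * B ^ n) hl ?_ ?_ n k l x y hx hy
  · simp only [add_zero] at key
    rwa [if_pos hn] at key
  · intro j x y hx hy
    split_ifs with h
    · exact h0 j x y (by omega) hx hy
    · rw [pow_zero, mul_one]; exact hQ1
  · intro n j x y hx hy
    by_cases h : n + 1 + j ≤ u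
    · rw [if_pos h]
      have h2 : n + (j + 1) ≤ u := by omega
      simp only [if_pos h2]
      exact h1 n j x y h hx hy
    · rw [if_neg h]
      have h2 : ∀ x' y' : V, d x' * d' y' * ((1 + lam * |m j x'| + lam * |m j y'| +
          lam ^ 2 * (|f (x' - y')| + |m j x'| * |m j y'|)) *
          (if n + (j + 1) ≤ u then Ψ n (j + 1) x' y' else Q' * B ^ n)) ≤ Q' * B ^ (n + 1) := by
        intro x' y'
        have hR : 0 ≤ Q' * B ^ (n + 1) := by positivity
        rcases hd x' with e | e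
        · rw [e, zero_mul, zero_mul]; exact hR
        rcases hd' y' with e' | e'
        · rw [e', mul_zero, zero_mul]; exact hR
        rw [e, e', one_mul, one_mul]
        have h3 : (if n + (j + 1) ≤ u then Ψ n (j + 1) x' y' else Q' * B ^ n) ≤ Q' * B ^ n := by
          split_ifs with h4
          · have h5 := hQ n (j + 1) x' y' h4 e e'
            have h6 : 1 ≤ B ^ n := one_le_pow₀ hB1
            calc _ ≤ Q := h5
              _ ≤ Q' * 1 := by rw [mul_one]; exact le_max_left _ _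
              _ ≤ _ := mul_le_mul_of_nonneg_left h6 (by linarith)
          · exact le_rfl
        have h4 : 1 + lam * |m j x'| + lam * |m j y'| + lam ^ 2 * (|f (x' - y')| + |m j x'| * |m j y'|) ≤ B := by
          rw [hB]
          have a1 := mul_le_mul_of_nonneg_left (hm j x') hl.le
          have a2 := mul_le_mul_of_nonneg_left (hm j y') hl.le
          have a3 : |m j x'| * |m j y'| ≤ Mm * Mm := mul_le_mul (hm j x') (hm j y') (abs_nonneg _) hMm
          have a4 := mul_le_mul_of_nonneg_left (add_le_add (hc (x' - y')) a3) (by positivity : 0 ≤ lam ^ 2)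
          linarith
        have h5 : 0 ≤ 1 + lam * |m j x'| + lam * |m j y'| + lam ^ 2 * (|f (x' - y')| + |m j x'| * |m j y'|) := by
          positivity
        calc _ ≤ (1 + lam * |m j x'| + lam * |m j y'| + lam ^ 2 * (|f (x' - y')| + |m j x'| * |m j y'|)) * (Q' * B ^ n) :=
              mul_le_mul_of_nonneg_left h3 h5
          _ ≤ B * (Q' * B ^ n) := mul_le_mul_of_nonneg_right h4 (by positivity)
          _ = _ := by ring
      have h3 := avg_mono (fun x' => avg_mono (h2 x') y) x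
      have h4 : (fun _ : V => avg (fun _ : V => Q' * B ^ (n + 1)) y) = fun _ => Q' * B ^ (n + 1) :=
        funext fun _ => avg_const _ _
      rw [h4, avg_const] at h3
      exact h3

/-- expected sum of `|m|` along the walk -/
noncomputable def Am (m : ℕ → V → ℝ) : ℕ → ℕ → V → ℝ
  | 0, _, _ => 0
  | n + 1, j, x => avg (fun y => |m j y| + Am m n (j + 1) y) x

/-- expected sum of `|f|` along the difference walk -/
noncomputable def Cm (f : V → ℝ) : ℕ → V → ℝ
  | 0, _ => 0
  | n + 1, r => avg (avg (fun s => |f s| + Cm f n s)) r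

theorem Am_nonneg (m : ℕ → V → ℝ) : ∀ (n j : ℕ) (x : V), 0 ≤ Am m n j x
  | 0, _, _ => le_rfl
  | n + 1, j, _ => avg_nonneg fun _ => add_nonneg (abs_nonneg _) (Am_nonneg m n (j + 1) _)

theorem Cm_nonneg (f : V → ℝ) : ∀ (n : ℕ) (x : V), 0 ≤ Cm f n x
  | 0, _ => le_rfl
  | n + 1, _ => avg_nonneg fun _ => avg_nonneg fun _ => add_nonneg (abs_nonneg _) (Cm_nonneg f n _)

theorem Am_eq (m : ℕ → V → ℝ) : ∀ (n j : ℕ) (x : V),
    Am m n j x = ∑ i ∈ range n, Pn (i + 1) (fun y => |m (j + i) y|) x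
  | 0, j, x => by simp [Am]
  | n + 1, j, x => by
    rw [Finset.sum_range_succ']
    show avg (fun y => |m j y| + Am m n (j + 1) y) x = _
    rw [avg_add]
    have h1 : (fun y => Am m n (j + 1) y) = fun y => ∑ i ∈ range n, Pn (i + 1) (fun y => |m (j + 1 + i) y|) y :=
      funext (Am_eq m n (j + 1))
    have h2 : avg (Am m n (j + 1)) x = ∑ i ∈ range n, avg (Pn (i + 1) (fun y => |m (j + 1 + i) y|)) x := by
      have : Am m n (j + 1) = fun y => ∑ i ∈ range n, Pn (i + 1) (fun y => |m (j + 1 + i) y|) y := h1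
      rw [this, avg_sum]
    rw [add_comm, h2]
    congr 1
    refine Finset.sum_congr rfl fun i _ => ?_
    have h3 : j + (i + 1) = j + 1 + i := by ring
    rw [h3]
    rfl

theorem Cm_eq (f : V → ℝ) : ∀ (n : ℕ) (r : V),
    Cm f n r = ∑ i ∈ range n, Pn (2 * (i + 1)) (fun y => |f y|) r
  | 0, r => by simp [Cm]
  | n + 1, r => by
    rw [Finset.sum_range_succ']
    show avg (avg (fun s => |f s| + Cm f n s)) r = _
    have h1 : (fun s => Cm f n s) = fun s => ∑ i ∈ range n, Pn (2 * (i + 1)) (fun y => |f y|) s :=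
      funext (Cm_eq f n)
    have h2 : avg (fun s => |f s| + Cm f n s) = fun y => avg (fun s => |f s|) y +
        ∑ i ∈ range n, avg (Pn (2 * (i + 1)) (fun y => |f y|)) y := by
      funext y
      rw [avg_add]
      congr 1
      have : Cm f n = fun s => ∑ i ∈ range n, Pn (2 * (i + 1)) (fun y => |f y|) s := h1
      rw [this, avg_sum]
    rw [h2, avg_add, avg_sum, add_comm]
    rfl

/-- crude bound for the second moment -/
theorem crude (hSM : S_SM) (hs : Sl ν g m f) {Mm Mc : ℝ} (hm : ∀ k x, |m k x| ≤ Mm) (hc : ∀ x, |f x| ≤ Mc)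
    {d d' : V → ℝ} (hd : ∀ x, d x = 0 ∨ d x = 1) (hd' : ∀ x, d' x = 0 ∨ d' x = 1) {lam : ℝ} (hl : 0 < lam)
    (hlm : lam * Mm ≤ 1) (u : ℕ) {SA SC : ℝ} (hA : ∀ n ≤ u, ∀ j x, Am m n j x ≤ SA) (hC : ∀ n ≤ u, ∀ x, Cm f n x ≤ SC)
    (hS : 8 * lam * SA + 4 * lam ^ 2 * SC ≤ 1) (k l : ℕ) (x y : V) (hx : d x = 1) (hy : d' y = 1) :
    lam ^ (k + l) * |∫ w, Ch d u (fun i y => g y (w i)) k x * Ch d' u (fun i y => g y (w i)) l y
        ∂(Measure.infinitePi ν)| ≤ 2 := by
  have hMm : 0 ≤ Mm := (abs_nonneg _).trans (hm 0 0)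
  have hΨ : ∀ n ≤ u, ∀ j x y, 1 + 4 * lam * (Am m n j x + Am m n j y) + 4 * lam ^ 2 * Cm f n (x - y) ≤ 2 := by
    intro n hn j x y
    have h1 := mul_le_mul_of_nonneg_left (hA n hn j x) (by positivity : 0 ≤ 4 * lam)
    have h2 := mul_le_mul_of_nonneg_left (hA n hn j y) (by positivity : 0 ≤ 4 * lam)
    have h3 := mul_le_mul_of_nonneg_left (hC n hn (x - y)) (by positivity : 0 ≤ 4 * lam ^ 2)
    linarith
  refine (SMx hSM hs hm hc hd hd' hl u
    (fun n j x y => 1 + 4 * lam * (Am m n j x + Am m n j y) + 4 * lam ^ 2 * Cm f n (x - y)) (Q := 2)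
    ?_ ?_ ?_ u k l le_rfl x y hx hy).trans (hΨ u le_rfl 0 x y)
  · intro j x y _ _ _
    have h1 := Am_nonneg m 0 j x
    have h2 := Am_nonneg m 0 j y
    have h3 := Cm_nonneg f 0 (x - y)
    have : 0 ≤ 4 * lam * (Am m 0 j x + Am m 0 j y) := by positivity
    have : 0 ≤ 4 * lam ^ 2 * Cm f 0 (x - y) := by positivity
    show 1 ≤ 1 + 4 * lam * (Am m 0 j x + Am m 0 j y) + 4 * lam ^ 2 * Cm f 0 (x - y)
    linarith
  · intro n j x y hn _ _
    exact hΨ n (by omega) j x y
  · intro n j x y hn _ _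
    have hn' : n ≤ u := by omega
    have h1 : ∀ x' y' : V, d x' * d' y' * ((1 + lam * |m j x'| + lam * |m j y'| +
        lam ^ 2 * (|f (x' - y')| + |m j x'| * |m j y'|)) *
        (1 + 4 * lam * (Am m n (j + 1) x' + Am m n (j + 1) y') + 4 * lam ^ 2 * Cm f n (x' - y'))) ≤
        1 + 4 * lam * ((|m j x'| + Am m n (j + 1) x') + (|m j y'| + Am m n (j + 1) y')) +
          4 * lam ^ 2 * (|f (x' - y')| + Cm f n (x' - y')) := by
      intro x' y'
      have hΦ2 := hΨ n hn' (j + 1) x' y'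
      set Φ := 1 + 4 * lam * (Am m n (j + 1) x' + Am m n (j + 1) y') + 4 * lam ^ 2 * Cm f n (x' - y') with hΦ
      have hΦ1 : 1 ≤ Φ := by
        have h1 := Am_nonneg m n (j + 1) x'
        have h2 := Am_nonneg m n (j + 1) y'
        have h3 := Cm_nonneg f n (x' - y')
        have : 0 ≤ 4 * lam * (Am m n (j + 1) x' + Am m n (j + 1) y') := by positivity
        have : 0 ≤ 4 * lam ^ 2 * Cm f n (x' - y') := by positivity
        linarith
      set a := lam * |m j x'| with ha
      set b := lam * |m j y'| with hb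
      set c := lam ^ 2 * |f (x' - y')| with hc'
      have ha0 : 0 ≤ a := by positivity
      have hb0 : 0 ≤ b := by positivity
      have hc0 : 0 ≤ c := by positivity
      have ha1 : a ≤ 1 := (mul_le_mul_of_nonneg_left (hm j x') hl.le).trans hlm
      have hb1 : b ≤ 1 := (mul_le_mul_of_nonneg_left (hm j y') hl.le).trans hlm
      have hab : a * b ≤ (a + b) / 2 := by nlinarith
      have e1 : (1 + lam * |m j x'| + lam * |m j y'| + lam ^ 2 * (|f (x' - y')| + |m j x'| * |m j y'|)) =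
          1 + a + b + (c + a * b) := by
        rw [ha, hb, hc']; ring
      have e2 : 1 + 4 * lam * ((|m j x'| + Am m n (j + 1) x') + (|m j y'| + Am m n (j + 1) y')) +
          4 * lam ^ 2 * (|f (x' - y')| + Cm f n (x' - y')) = Φ + 4 * (a + b + c) := by
        rw [hΦ, ha, hb, hc']; ring
      rw [e1, e2]
      have h2 : (1 + a + b + (c + a * b)) * Φ ≤ Φ + 4 * (a + b + c) := by
        have h3 : (a + b + (c + a * b)) * Φ ≤ (a + b + (c + a * b)) * 2 :=
          mul_le_mul_of_nonneg_left hΦ2 (by positivity)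
        have : (1 + a + b + (c + a * b)) * Φ = Φ + (a + b + (c + a * b)) * Φ := by ring
        rw [this]
        linarith
      have h4 : 0 ≤ (1 + a + b + (c + a * b)) * Φ := by positivity
      have h5 : d x' * d' y' ≤ 1 := by
        rcases hd x' with e | e <;> rcases hd' y' with e' | e' <;> rw [e, e'] <;> norm_num
      have h6 : d x' * d' y' * ((1 + a + b + (c + a * b)) * Φ) ≤ 1 * ((1 + a + b + (c + a * b)) * Φ) :=
        mul_le_mul_of_nonneg_right h5 h4
      linarith
    refine (avg_mono (fun x' => avg_mono (h1 x') y) x).trans (le_of_eq ?_)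
    have e1 : ∀ x' : V, avg (fun y' => 1 + 4 * lam * ((|m j x'| + Am m n (j + 1) x') + (|m j y'| + Am m n (j + 1) y')) +
          4 * lam ^ 2 * (|f (x' - y')| + Cm f n (x' - y'))) y = 1 + 4 * lam * ((|m j x'| + Am m n (j + 1) x') +
          Am m (n + 1) j y) + 4 * lam ^ 2 * avg (fun y' => |f (x' - y')| + Cm f n (x' - y')) y := by
      intro x'
      rw [avg_add, avg_add, avg_const, avg_mul, avg_mul, avg_add, avg_const]
      rfl
    simp only [e1]
    rw [avg_add, avg_add, avg_const, avg_mul, avg_mul, avg_add, avg_const,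
      avg_two (fun s => |f s| + Cm f n s) x y]
    rfl

/-- sharp bound for chains which are away from the spine and not too far from each other -/
theorem far1 (hSM : S_SM) (hs : Sl ν g m f) {Mm Mc : ℝ} (hm : ∀ k x, |m k x| ≤ Mm) (hc : ∀ x, |f x| ≤ Mc)
    {d d' : V → ℝ} (hd : ∀ x, d x = 0 ∨ d x = 1) (hd' : ∀ x, d' x = 0 ∨ d' x = 1) {lam : ℝ} (hl : 0 < lam)
    (u : ℕ) {η c₀ : ℝ} (hη : 0 ≤ η) (hη1 : lam * η * u ≤ 1 / 4) (hc₀ : 0 < c₀) (φ : V → ℝ)
    (hφ : ∀ z, 0 ≤ φ z ∧ φ z ≤ 1)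
    (hφc : ∀ x y, d x = 1 → d' y = 1 → c₀ ≤ φ (x - y))
    (hφs : ∀ x y, d x = 1 → d' y = 1 → avg (avg (fun z => Real.exp (lam ^ 2 * |f z|) * φ z)) (x - y) ≤ φ (x - y))
    (hmη : ∀ j < u, ∀ x, (d x = 1 ∨ d' x = 1) → |m j x| ≤ η)
    (k l : ℕ) (x y : V) (hx : d x = 1) (hy : d' y = 1) :
    lam ^ (k + l) * |∫ w, Ch d u (fun i y => g y (w i)) k x * Ch d' u (fun i y => g y (w i)) l y
        ∂(Measure.infinitePi ν)| ≤ 2 / c₀ := by
  have hle : 0 ≤ lam * η := by positivity
  have hpow : ∀ n ≤ u, (1 + lam * η) ^ (2 * n) ≤ 2 := by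
    intro n hn
    have h1 : (1 + lam * η) ≤ Real.exp (lam * η) := by
      have := Real.add_one_le_exp (lam * η)
      linarith
    have h2 : (1 + lam * η) ^ (2 * n) ≤ Real.exp (lam * η) ^ (2 * n) := pow_le_pow_left₀ (by positivity) h1 _
    rw [← Real.exp_nat_mul] at h2
    refine h2.trans ?_
    have h3 : ((2 * n : ℕ) : ℝ) * (lam * η) ≤ 1 / 2 := by
      push_cast
      have : (n : ℝ) ≤ u := by exact_mod_cast hn
      nlinarith
    have h4 : Real.exp (1 / 2) ≤ 2 := by
      have h5 : Real.exp (1 / 2) ^ 2 ≤ 2 ^ 2 := by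
        rw [← Real.exp_nat_mul]
        norm_num
        have := Real.exp_one_lt_d9
        linarith
      exact (pow_le_pow_iff_left₀ (Real.exp_pos _).le (by norm_num) (by norm_num)).1 h5
    exact (Real.exp_le_exp.2 h3).trans h4
  have h1c : ∀ z, φ z / c₀ ≤ 1 / c₀ := fun z => div_le_div_of_nonneg_right (hφ z).2 hc₀.le
  refine (SMx hSM hs hm hc hd hd' hl u (fun n _ x y => (1 + lam * η) ^ (2 * n) * (φ (x - y) / c₀)) (Q := 2 / c₀)
    ?_ ?_ ?_ u k l le_rfl x y hx hy).trans ?_
  · intro j x y _ hx hy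
    show 1 ≤ (1 + lam * η) ^ (2 * 0) * (φ (x - y) / c₀)
    rw [mul_zero, pow_zero, one_mul]
    exact (one_le_div hc₀).2 (hφc x y hx hy)
  · intro n j x y hn hx hy
    have h2 : 0 ≤ φ (x - y) / c₀ := div_nonneg (hφ _).1 hc₀.le
    calc (1 + lam * η) ^ (2 * n) * (φ (x - y) / c₀) ≤ 2 * (1 / c₀) :=
          mul_le_mul (hpow n (by omega)) (h1c _) h2 (by norm_num)
      _ = 2 / c₀ := by ring
  · intro n j x y hn hx hy
    have h2 : ∀ x' y' : V, d x' * d' y' * ((1 + lam * |m j x'| + lam * |m j y'| +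
        lam ^ 2 * (|f (x' - y')| + |m j x'| * |m j y'|)) * ((1 + lam * η) ^ (2 * n) * (φ (x' - y') / c₀))) ≤
        (1 + lam * η) ^ (2 * (n + 1)) / c₀ * (Real.exp (lam ^ 2 * |f (x' - y')|) * φ (x' - y')) := by
      intro x' y'
      have hφ0 := (hφ (x' - y')).1
      have hR : 0 ≤ (1 + lam * η) ^ (2 * (n + 1)) / c₀ * (Real.exp (lam ^ 2 * |f (x' - y')|) * φ (x' - y')) := by
        positivity
      rcases hd x' with e | e
      · rw [e, zero_mul, zero_mul]; exact hR
      rcases hd' y' with e' | e'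
      · rw [e', mul_zero, zero_mul]; exact hR
      rw [e, e', one_mul, one_mul]
      have h3 := hmη j (by omega) x' (Or.inl e)
      have h4 := hmη j (by omega) y' (Or.inr e')
      have h5 : 1 + lam * |m j x'| + lam * |m j y'| + lam ^ 2 * (|f (x' - y')| + |m j x'| * |m j y'|) ≤
          (1 + lam * η) ^ 2 * Real.exp (lam ^ 2 * |f (x' - y')|) := by
        have h6 := Real.add_one_le_exp (lam ^ 2 * |f (x' - y')|)
        have h7 : |m j x'| * |m j y'| ≤ η * η := mul_le_mul h3 h4 (abs_nonneg _) hη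
        have h8 := mul_le_mul_of_nonneg_left h3 hl.le
        have h9 := mul_le_mul_of_nonneg_left h4 hl.le
        have h10 : 1 ≤ (1 + lam * η) ^ 2 := one_le_pow₀ (by linarith)
        have h11 : 0 ≤ lam ^ 2 * |f (x' - y')| := by positivity
        have h12 : lam ^ 2 * |f (x' - y')| ≤ (1 + lam * η) ^ 2 * (lam ^ 2 * |f (x' - y')|) :=
          le_mul_of_one_le_left h11 h10
        calc _ ≤ 1 + lam * η + lam * η + lam ^ 2 * (|f (x' - y')| + η * η) := by
              have := mul_le_mul_of_nonneg_left h7 (by positivity : 0 ≤ lam ^ 2)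
              linarith
          _ = (1 + lam * η) ^ 2 + lam ^ 2 * |f (x' - y')| := by ring
          _ ≤ (1 + lam * η) ^ 2 * (lam ^ 2 * |f (x' - y')| + 1) := by linarith
          _ ≤ _ := mul_le_mul_of_nonneg_left h6 (by positivity)
      calc _ ≤ (1 + lam * η) ^ 2 * Real.exp (lam ^ 2 * |f (x' - y')|) *
            ((1 + lam * η) ^ (2 * n) * (φ (x' - y') / c₀)) :=
            mul_le_mul_of_nonneg_right h5 (by positivity)
        _ = _ := by ring
    refine (avg_mono (fun x' => avg_mono (h2 x') y) x).trans ?_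
    have e1 : ∀ x' : V, avg (fun y' => (1 + lam * η) ^ (2 * (n + 1)) / c₀ *
        (Real.exp (lam ^ 2 * |f (x' - y')|) * φ (x' - y'))) y = (1 + lam * η) ^ (2 * (n + 1)) / c₀ *
        avg (fun y' => (Real.exp (lam ^ 2 * |f (x' - y')|) * φ (x' - y'))) y := fun x' => avg_mul _ _ _
    simp only [e1]
    rw [avg_mul, avg_two (fun s => Real.exp (lam ^ 2 * |f s|) * φ s) x y]
    calc _ ≤ (1 + lam * η) ^ (2 * (n + 1)) / c₀ * φ (x - y) :=
          mul_le_mul_of_nonneg_left (hφs x y hx hy) (by positivity)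
      _ = _ := by ring
  · calc (1 + lam * η) ^ (2 * u) * (φ (x - y) / c₀) ≤ 2 * (1 / c₀) :=
          mul_le_mul (hpow u le_rfl) (h1c _) (div_nonneg (hφ _).1 hc₀.le) (by norm_num)
      _ = 2 / c₀ := by ring

/-- chains which are away from the spine and from each other -/
theorem far2 (hSM : S_SM) (hs : Sl ν g m f) {Mm Mc : ℝ} (hm : ∀ k x, |m k x| ≤ Mm) (hc : ∀ x, |f x| ≤ Mc)
    {d d' : V → ℝ} (hd : ∀ x, d x = 0 ∨ d x = 1) (hd' : ∀ x, d' x = 0 ∨ d' x = 1) {lam : ℝ} (hl : 0 < lam)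
    (u : ℕ) {η η₂ : ℝ} (hη : 0 ≤ η) (hη2 : 0 ≤ η₂) (hu : (2 * (lam * η) + lam ^ 2 * (η₂ + η * η)) * u ≤ 1 / 2)
    (hf2 : ∀ x y, d x = 1 → d' y = 1 → |f (x - y)| ≤ η₂)
    (hmη : ∀ j < u, ∀ x, (d x = 1 ∨ d' x = 1) → |m j x| ≤ η)
    (k l : ℕ) (x y : V) (hx : d x = 1) (hy : d' y = 1) :
    lam ^ (k + l) * |∫ w, Ch d u (fun i y => g y (w i)) k x * Ch d' u (fun i y => g y (w i)) l y
        ∂(Measure.infinitePi ν)| ≤ 2 := by
  set R : ℝ := 2 * (lam * η) + lam ^ 2 * (η₂ + η * η) with hR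
  have hR0 : 0 ≤ R := by positivity
  have hpow : ∀ n ≤ u, (1 + R) ^ n ≤ 2 := by
    intro n hn
    have h1 : (1 + R) ≤ Real.exp R := by
      have := Real.add_one_le_exp R
      linarith
    have h2 : (1 + R) ^ n ≤ Real.exp R ^ n := pow_le_pow_left₀ (by positivity) h1 _
    rw [← Real.exp_nat_mul] at h2
    refine h2.trans ?_
    have h3 : (n : ℝ) * R ≤ 1 / 2 := by
      have : (n : ℝ) ≤ u := by exact_mod_cast hn
      nlinarith
    have h4 : Real.exp (1 / 2) ≤ 2 := by
      have h5 : Real.exp (1 / 2) ^ 2 ≤ 2 ^ 2 := by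
        rw [← Real.exp_nat_mul]
        norm_num
        have := Real.exp_one_lt_d9
        linarith
      exact (pow_le_pow_iff_left₀ (Real.exp_pos _).le (by norm_num) (by norm_num)).1 h5
    exact (Real.exp_le_exp.2 h3).trans h4
  refine (SMx hSM hs hm hc hd hd' hl u (fun n _ _ _ => (1 + R) ^ n) (Q := 2)
    ?_ ?_ ?_ u k l le_rfl x y hx hy).trans (hpow u le_rfl)
  · intro j x y _ hx hy
    show 1 ≤ (1 + R) ^ 0
    rw [pow_zero]
  · intro n j x y hn hx hy
    exact hpow n (by omega)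
  · intro n j x y hn hx hy
    have h2 : ∀ x' y' : V, d x' * d' y' * ((1 + lam * |m j x'| + lam * |m j y'| +
        lam ^ 2 * (|f (x' - y')| + |m j x'| * |m j y'|)) * (1 + R) ^ n) ≤ (1 + R) ^ (n + 1) := by
      intro x' y'
      have hR' : 0 ≤ (1 + R) ^ (n + 1) := by positivity
      rcases hd x' with e | e
      · rw [e, zero_mul, zero_mul]; exact hR'
      rcases hd' y' with e' | e'
      · rw [e', mul_zero, zero_mul]; exact hR'
      rw [e, e', one_mul, one_mul]
      have h3 := hmη j (by omega) x' (Or.inl e)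
      have h4 := hmη j (by omega) y' (Or.inr e')
      have h5 := hf2 x' y' e e'
      have h7 : |m j x'| * |m j y'| ≤ η * η := mul_le_mul h3 h4 (abs_nonneg _) hη
      have h8 := mul_le_mul_of_nonneg_left h3 hl.le
      have h9 := mul_le_mul_of_nonneg_left h4 hl.le
      have h10 := mul_le_mul_of_nonneg_left (add_le_add h5 h7) (by positivity : 0 ≤ lam ^ 2)
      have h11 : 1 + lam * |m j x'| + lam * |m j y'| + lam ^ 2 * (|f (x' - y')| + |m j x'| * |m j y'|) ≤ 1 + R := by
        rw [hR]; linarith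
      calc _ ≤ (1 + R) * (1 + R) ^ n := mul_le_mul_of_nonneg_right h11 (by positivity)
        _ = _ := by ring
    have h3 := avg_mono (fun x' => avg_mono (h2 x') y) x
    have h4 : (fun _ : V => avg (fun _ : V => (1 + R) ^ (n + 1)) y) = fun _ => (1 + R) ^ (n + 1) :=
      funext fun _ => avg_const _ _
    rw [h4, avg_const] at h3
    exact h3

/-- crude bound for chains along a given function -/
theorem Ch_crude {d : V → ℝ} (hd : ∀ x, d x = 0 ∨ d x = 1) {m : ℕ → V → ℝ} (hm0 : ∀ k x, 0 ≤ m k x) {lam : ℝ}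
    (hl : 0 < lam) (u : ℕ) {SA : ℝ} (hA : ∀ n ≤ u, ∀ j x, Am m n j x ≤ SA) (hS : 2 * lam * SA ≤ 1) :
    ∀ (n : ℕ) (_ : n ≤ u) (j k : ℕ) (x : V), lam ^ k * Ch d n (fun i => m (j + i)) k x ≤ 1 + 2 * lam * Am m n j x
  | 0, _, j, k, x => by
    show lam ^ k * (if k = 0 then (1 : ℝ) else 0) ≤ 1 + 2 * lam * Am m 0 j x
    have := Am_nonneg m 0 j x
    have h0 : 0 ≤ 2 * lam * Am m 0 j x := by positivity
    by_cases hk : k = 0
    · rw [if_pos hk, hk, pow_zero]; linarith
    · rw [if_neg hk, mul_zero]; linarith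
  | n + 1, hn, j, k, x => by
    have ih := fun j k x => Ch_crude hd hm0 hl u hA hS n (by omega) j k x
    have hfun : (fun i => m (j + (i + 1))) = fun i => m (j + 1 + i) := by
      funext i
      congr 1
      ring
    have e1 : lam ^ k * Ch d (n + 1) (fun i => m (j + i)) k x = avg (fun y => lam ^ k * (d y *
        (Ch d n (fun i => m (j + 1 + i)) k y + m j y *
          (if k = 0 then 0 else Ch d n (fun i => m (j + 1 + i)) (k - 1) y)))) x := by
      rw [avg_mul]
      show lam ^ k * avg (fun y => d y * (Ch d n (fun i => m (j + (i + 1))) k y + m (j + 0) y *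
        (if k = 0 then 0 else Ch d n (fun i => m (j + (i + 1))) (k - 1) y))) x = _
      rw [hfun, add_zero]
    rw [e1]
    have h2 : ∀ y, lam ^ k * (d y * (Ch d n (fun i => m (j + 1 + i)) k y + m j y *
        (if k = 0 then 0 else Ch d n (fun i => m (j + 1 + i)) (k - 1) y))) ≤
        1 + 2 * lam * (|m j y| + Am m n (j + 1) y) := by
      intro y
      have hA0 := Am_nonneg m n (j + 1) y
      have hb := ih (j + 1) k y
      have hSA : 1 + 2 * lam * Am m n (j + 1) y ≤ 2 := by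
        have := mul_le_mul_of_nonneg_left (hA n (by omega) (j + 1) y) (by positivity : 0 ≤ 2 * lam)
        linarith
      rw [abs_of_nonneg (hm0 j y)]
      have hmj := hm0 j y
      have hmul : lam * m j y * (1 + 2 * lam * Am m n (j + 1) y) ≤ lam * m j y * 2 :=
        mul_le_mul_of_nonneg_left hSA (by positivity)
      rcases hd y with e | e
      · rw [e, zero_mul, mul_zero]; positivity
      · rw [e, one_mul]
        by_cases hk : k = 0
        · rw [if_pos hk, mul_zero, add_zero]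
          have : 0 ≤ 2 * lam * m j y := by positivity
          linarith
        · obtain ⟨i, rfl⟩ : ∃ i, k = i + 1 := ⟨k - 1, by omega⟩
          rw [if_neg hk, Nat.add_sub_cancel]
          have hb' := ih (j + 1) i y
          have h3 : lam ^ (i + 1) * (m j y * Ch d n (fun i => m (j + 1 + i)) i y) ≤
              lam * m j y * (1 + 2 * lam * Am m n (j + 1) y) := by
            calc _ = lam * m j y * (lam ^ i * Ch d n (fun i => m (j + 1 + i)) i y) := by ring
              _ ≤ _ := mul_le_mul_of_nonneg_left hb' (by positivity)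
          calc _ = lam ^ (i + 1) * Ch d n (fun i => m (j + 1 + i)) (i + 1) y +
                lam ^ (i + 1) * (m j y * Ch d n (fun i => m (j + 1 + i)) i y) := by ring
            _ ≤ _ := by linarith
    refine (avg_mono h2 x).trans (le_of_eq ?_)
    rw [avg_add, avg_const, avg_mul]
    rfl

end Pool.Agent.H964.DP
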