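import Mathlib

/-! # Directed polymers in the plane with critical spatial correlation: definitions

Project DP of helper964 (MP_1e2dfa_pr Q2 and MP_b30792_pr Q1). -/

set_option autoImplicit false

open MeasureTheory ProbabilityTheory Filter Finset

namespace Pool.Agent.H964.DP

/-- the planar lattice -/
abbrev V := ℤ × ℤ

/-- squared Euclidean norm -/
def ns (x : V) : ℝ := (x.1 : ℝ) ^ 2 + (x.2 : ℝ) ^ 2

/-- the four steps of simple random walk -/
def stp (e : Fin 4) : V := ![((1 : ℤ), (0 : ℤ)), (-1, 0), (0, 1), (0, -1)] e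

/-- average over the four neighbours -/
noncomputable def avg (f : V → ℝ) (x : V) : ℝ := (∑ e : Fin 4, f (x + stp e)) / 4

/-- expectation of `f (S_n)` for simple random walk from `x` -/
noncomputable def Pn : ℕ → (V → ℝ) → V → ℝ
  | 0, f => f
  | n + 1, f => avg (Pn n f)

/-- weighted walk, `E_x [∏_{i < n} v_i (S_{i+1}) f (S_n)]` -/
noncomputable def K : ℕ → (ℕ → V → ℝ) → (V → ℝ) → V → ℝ
  | 0, _, f => f
  | n + 1, v, f => avg (fun y => v 0 y * K n (fun k => v (k + 1)) f y)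

/-- chains: `Ch d n ξ k x` is the sum over `0 ≤ i_1 < ... < i_k < n` of
`E_x [∏_j ξ_{i_j} (S_{i_j + 1}) ∏_{i < n} d (S_{i+1})]` (exactly `k` vertices, `n` steps, killed where `d = 0`) -/
noncomputable def Ch (d : V → ℝ) : ℕ → (ℕ → V → ℝ) → ℕ → V → ℝ
  | 0, _, k, _ => if k = 0 then 1 else 0
  | n + 1, ξ, k, x => avg (fun y => d y * (Ch d n (fun i => ξ (i + 1)) k y +
      ξ 0 y * (if k = 0 then 0 else Ch d n (fun i => ξ (i + 1)) (k - 1) y))) x

/-- position after `j` steps of the path with increments `τ` -/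
def pos {n : ℕ} (τ : Fin n → Fin 4) (j : ℕ) : V := ∑ i ∈ univ.filter (fun i : Fin n => i.val < j), stp (τ i)

/-- Boltzmann weights at inverse temperature `β` in the environment `w` -/
noncomputable def wt (β : ℝ) (w : ℕ → V → ℝ) (k : ℕ) (y : V) : ℝ := Real.exp (β * w k y - β ^ 2 / 2)

/-- normalised partition function of length `n` started at `x` -/
noncomputable def W (β : ℝ) (n : ℕ) (w : ℕ → V → ℝ) (x : V) : ℝ := K n (wt β w) (fun _ => 1) x

/-- law of the environment: independent slices with law `γ` -/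
noncomputable def PP (γ : Measure (V → ℝ)) : Measure (ℕ → V → ℝ) := Measure.infinitePi (fun _ : ℕ => γ)

/-- all finite linear combinations are centred Gaussian with covariance `c` -/
def GLin (γ : Measure (V → ℝ)) (c : V → V → ℝ) : Prop :=
  ∀ (s : Finset V) (a : V → ℝ), γ.map (fun ω => ∑ x ∈ s, a x * ω x) =
    gaussianReal 0 (Real.toNNReal (∑ x ∈ s, ∑ y ∈ s, a x * a y * c x y))

/-- `γ` is the law of a centred stationary Gaussian field with correlation `h`, `h 0 = 1` -/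
structure GS (γ : Measure (V → ℝ)) (h : V → ℝ) : Prop where
  prob : IsProbabilityMeasure γ
  symm : ∀ x, h (-x) = h x
  psd : ∀ (s : Finset V) (a : V → ℝ), 0 ≤ ∑ x ∈ s, ∑ y ∈ s, a x * a y * h (x - y)
  zero : h 0 = 1
  lin : GLin γ (fun x y => h (x - y))

/-- `h (x) ~ (log |x|)^a / |x|^2` -/
def Asym (a : ℝ) (h : V → ℝ) : Prop :=
  Tendsto (fun x : V => h x * ns x / (Real.log (ns x) / 2) ^ a) cofinite (nhds 1)

/-- polynomial-logarithmic bound -/
def LB (h : V → ℝ) (C : ℝ) (A : ℕ) : Prop :=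
  ∀ z : V, |h z| ≤ C * (1 + Real.log (1 + ns z)) ^ A / (1 + ns z)

/-- average of a slice over the translate of `B` -/
noncomputable def sm (B : Finset V) (s : V → ℝ) (x : V) : ℝ := (∑ y ∈ B, s (x + y)) / (B.card : ℝ)

/-- correlation of the averaged field with the field -/
noncomputable def ht (B : Finset V) (h : V → ℝ) (x : V) : ℝ := (∑ y ∈ B, h (x + y)) / (B.card : ℝ)

/-- correlation of the averaged field with itself -/
noncomputable def hb (B : Finset V) (h : V → ℝ) (x : V) : ℝ :=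
  (∑ y ∈ B, ∑ y' ∈ B, h (x + y - y')) / (B.card : ℝ) ^ 2

/-- the law of a slice tilted at `p` -/
noncomputable def tl (γ : Measure (V → ℝ)) (β : ℝ) (p : V) : Measure (V → ℝ) :=
  γ.withDensity (fun s => ENNReal.ofReal (Real.exp (β * s p - β ^ 2 / 2)))

/-- the law of the environment tilted along the path `τ` of length `n` started at `z` -/
noncomputable def PT (γ : Measure (V → ℝ)) (β : ℝ) {n : ℕ} (z : V) (τ : Fin n → Fin 4) :
    Measure (ℕ → V → ℝ) :=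
  Measure.infinitePi (fun k : ℕ => if k < n then tl γ β (z + pos τ (k + 1)) else γ)

/-- index of the cell (square of side `m`) of a point -/
def cel (m : ℕ) (y : V) : V := (y.1 / (m : ℤ), y.2 / (m : ℤ))

/-- the profile: `Ψ'' = - μ y^a Ψ`, `Ψ (0) = 1`, `Ψ' (0) = 0`, first zero at `1` -/
structure Prof (a μ : ℝ) (Ψ Ψ' : ℝ → ℝ) : Prop where
  mu_pos : 0 < μ
  cont : ContinuousOn Ψ (Set.Icc 0 2)
  zero : Ψ 0 = 1
  one : Ψ 1 = 0
  pos : ∀ y, 0 ≤ y → y < 1 → 0 < Ψ y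
  der : ∀ y, 0 < y → y < 2 → HasDerivAt Ψ (Ψ' y) y
  der2 : ∀ y, 0 < y → y < 2 → HasDerivAt Ψ' (-(μ * y ^ a * Ψ y)) y
  nonpos : ∀ y, 0 < y → y ≤ 1 → Ψ' y ≤ 0
  bd : ∃ C : ℝ, ∀ y, 0 < y → y < 2 → |Ψ' y| ≤ C * y ^ (a + 1)

/-- supersolutions exist below the critical value `μ` -/
def Sup (a μ : ℝ) : Prop :=
  ∀ h : V → ℝ, Asym a h → ∀ ε : ℝ, 0 < ε → ε < 1 → ∃ c L₀ : ℝ, 0 < c ∧ 1 ≤ L₀ ∧ ∀ L : ℝ, L₀ ≤ L →
    ∃ φ : V → ℝ, (∀ z, 0 ≤ φ z ∧ φ z ≤ 1) ∧ (∀ z, ns z ≤ Real.exp (2 * L) → c ≤ φ z) ∧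
      ∀ z, ns z ≤ Real.exp (2 * L) →
        avg (avg (fun y => Real.exp ((1 - ε) * μ / (2 * L ^ (a + 2)) * |h y|) * φ y)) z ≤ φ z

/-- subsolutions with support in a disc exist above the critical value `μ` -/
def Sub (a μ : ℝ) : Prop :=
  ∀ h : V → ℝ, (∀ z, 0 ≤ h z) → Asym a h → ∀ ε : ℝ, 0 < ε → ∃ L₀ : ℝ, 1 ≤ L₀ ∧ ∀ L : ℝ, L₀ ≤ L →
    ∃ φ : V → ℝ, (∀ z, 0 ≤ φ z ∧ φ z ≤ 1) ∧ (∀ z, φ z ≠ 0 → ns z ≤ Real.exp (2 * L)) ∧ 1 / 4 ≤ φ 0 ∧
      ∀ z, φ z ≤ avg (avg (fun y => (1 + (1 + ε) * μ / (2 * L ^ (a + 2)) * h y) * φ y)) z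

end Pool.Agent.H964.DP
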