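import Pool.Agent.H964.DP.Blk11
import Pool.Agent.H323.DP.LCLT
import Pool.Agent.H323.DP.SM
import Pool.Agent.H71.DP.GREEN
import Pool.Agent.H784.DP.SMOOTH
import Pool.Agent.H627.DP.PROF
import Pool.Agent.H271.DP.VAR
import Pool.Agent.H154.DP.TILT
import Pool.Agent.H187.DP.SIZE
import Pool.Agent.H278.DP.LLN
import Pool.Agent.H196.DP.COARSE
import Pool.Agent.H401.DP.GLOW
import Pool.Agent.H549.DP.LOWP
import Pool.Agent.H935.DP.TRANS
import Pool.Agent.H297.DP.PART1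
import Pool.Agent.H34.DP.CSE
import Pool.Agent.H294.DP.HSUP
import Pool.Agent.H294.DP.HSUB

/-! # Project DP: the free energy, final assembly -/

set_option autoImplicit false

open MeasureTheory ProbabilityTheory Filter Finset Topology

namespace Pool.Agent.H964.DP

theorem s_BLOCK : S_BLOCK :=
  t_BLOCK Pool.Agent.H323.DP.t_LCLT Pool.Agent.H71.DP.t_GREEN Pool.Agent.H784.DP.t_SMOOTH Pool.Agent.H323.DP.t_SM
    (fun h => Pool.Agent.H271.DP.t_VAR h) Pool.Agent.H154.DP.t_TILT Pool.Agent.H187.DP.t_SIZE Pool.Agent.H278.DP.t_LLN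

/-- two-sided bounds -/
theorem two_sided {a μ : ℝ} (ha : -1 < a) (hμ : 0 < μ) (hSup : Sup a μ) (hSub : Sub a μ)
    {γ : Measure (V → ℝ)} {h : V → ℝ} (hγ : GS γ h) (hh : Asym a h) {ε : ℝ} (hε : 0 < ε) (hε1 : ε < 1) :
    ∃ β₀ : ℝ, 0 < β₀ ∧ ∀ β : ℝ, 0 < β → β < β₀ → ∀ p : ℝ,
    (∀ᵐ w ∂(PP γ), Tendsto (fun n : ℕ => Real.log (W β n w 0) / n) atTop (nhds p)) →
    -p ≤ Real.exp (-(2 * (1 - ε) * Lc a μ β)) ∧ Real.exp (-(2 * (1 + ε) * Lc a μ β)) ≤ -p := by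
  obtain ⟨β₁, h1, h2⟩ := Pool.Agent.H297.DP.t_PART1 (Pool.Agent.H401.DP.t_GLOW Pool.Agent.H187.DP.t_SIZE)
    (Pool.Agent.H549.DP.t_LOWP Pool.Agent.H935.DP.t_TRANS) a μ ha hμ hSup γ h hγ hh ε hε hε1
  obtain ⟨L₀, hL₀, hC⟩ := Pool.Agent.H34.DP.t_CSE Pool.Agent.H187.DP.t_SIZE
    (Pool.Agent.H196.DP.t_COARSE Pool.Agent.H935.DP.t_TRANS)
  obtain ⟨β₂, h3, h4⟩ := s_BLOCK a μ ha hμ hSup hSub γ h hγ hh ε hε L₀
  refine ⟨min β₁ β₂, lt_min h1 h3, fun β hβ hβ2 p hp => ⟨h2 β hβ (lt_of_lt_of_le hβ2 (min_le_left _ _)) p hp, ?_⟩⟩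
  obtain ⟨L, l, m, A, k0, k1, k2, k3, k4, k5, k6, k7, k8⟩ := h4 β hβ (lt_of_lt_of_le hβ2 (min_le_right _ _))
  have h5 := hC L k0 γ h hγ β l m k1 k2 k3 A k5 k6 k7 k8 p hp
  have hl : (0 : ℝ) < l := by exact_mod_cast k1
  rw [Real.exp_neg]
  have h6 : (Real.exp (2 * (1 + ε) * Lc a μ β))⁻¹ ≤ (l : ℝ)⁻¹ := inv_anti₀ hl k4
  rw [one_div] at h5
  linarith

theorem scale {a μ β : ℝ} (ha : -1 < a) (hμ : 0 < μ) (hβ : 0 < β) :
    β ^ (2 / (a + 2)) * Lc a μ β = (μ / 2) ^ (1 / (a + 2)) := by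
  have ha2 : 0 < a + 2 := by linarith
  unfold Lc
  have e1 : μ / (2 * β ^ 2) = (μ / 2) * ((β ^ 2)⁻¹) := by
    field_simp
  rw [e1, Real.mul_rpow (by positivity) (by positivity)]
  have e2 : ((β ^ 2)⁻¹) ^ (1 / (a + 2)) = (β ^ (2 / (a + 2)))⁻¹ := by
    rw [Real.inv_rpow (by positivity), ← Real.rpow_natCast β 2, ← Real.rpow_mul hβ.le]
    congr 2
    push_cast
    ring
  rw [e2]
  have e3 : 0 < β ^ (2 / (a + 2)) := by positivity
  field_simp

/-- sharp asymptotics of the free energy in the canonical environment -/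
theorem sharp {a μ : ℝ} (ha : -1 < a) (hμ : 0 < μ) (hSup : Sup a μ) (hSub : Sub a μ)
    {γ : Measure (V → ℝ)} {h : V → ℝ} (hγ : GS γ h) (hh : Asym a h) (p : ℝ → ℝ)
    (hp : ∀ β : ℝ, 0 < β → ∀ᵐ w ∂(PP γ), Tendsto (fun n : ℕ => Real.log (W β n w 0) / n) atTop (nhds (p β))) :
    (∀ᶠ β in 𝓝[>] (0 : ℝ), p β < 0) ∧
    Tendsto (fun β : ℝ => β ^ (2 / (a + 2)) * Real.log (-p β)) (𝓝[>] 0) (𝓝 (-(2 * (μ / 2) ^ (1 / (a + 2))))) := by
  set Q := (μ / 2) ^ (1 / (a + 2)) with hQ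
  have hQ0 : 0 < Q := by positivity
  have key : ∀ ε : ℝ, 0 < ε → ε < 1 → ∀ᶠ β in 𝓝[>] (0 : ℝ), p β < 0 ∧
      -(2 * (1 + ε) * Q) ≤ β ^ (2 / (a + 2)) * Real.log (-p β) ∧
      β ^ (2 / (a + 2)) * Real.log (-p β) ≤ -(2 * (1 - ε) * Q) := by
    intro ε hε hε1
    obtain ⟨β₀, h1, h2⟩ := two_sided ha hμ hSup hSub hγ hh hε hε1
    filter_upwards [Ioo_mem_nhdsGT h1] with β hβ
    obtain ⟨h3, h4⟩ := h2 β hβ.1 hβ.2 (p β) (hp β hβ.1)
    have h5 : 0 < -p β := lt_of_lt_of_le (Real.exp_pos _) h4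
    have h6 : Real.log (-p β) ≤ -(2 * (1 - ε) * Lc a μ β) := by
      rw [Real.log_le_iff_le_exp h5]
      exact h3
    have h7 : -(2 * (1 + ε) * Lc a μ β) ≤ Real.log (-p β) := by
      rw [Real.le_log_iff_exp_le h5]
      exact h4
    have h8 := scale (a := a) ha hμ hβ.1
    have h9 : 0 < β ^ (2 / (a + 2)) := Real.rpow_pos_of_pos hβ.1 _
    refine ⟨by linarith, ?_, ?_⟩
    · calc -(2 * (1 + ε) * Q) = β ^ (2 / (a + 2)) * (-(2 * (1 + ε) * Lc a μ β)) := by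
            rw [hQ, ← h8]
            ring
        _ ≤ _ := mul_le_mul_of_nonneg_left h7 h9.le
    · calc β ^ (2 / (a + 2)) * Real.log (-p β) ≤ β ^ (2 / (a + 2)) * (-(2 * (1 - ε) * Lc a μ β)) :=
            mul_le_mul_of_nonneg_left h6 h9.le
        _ = -(2 * (1 - ε) * Q) := by
            rw [hQ, ← h8]
            ring
  constructor
  · filter_upwards [key (1 / 2) (by norm_num) (by norm_num)] with β hβ
    exact hβ.1
  · rw [tendsto_order]
    constructor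
    · intro c hc
      have h1 : 0 < -(2 * Q) - c := by linarith
      set ε := min (1 / 2) ((-(2 * Q) - c) / (4 * Q)) with hε
      have hε0 : 0 < ε := lt_min (by norm_num) (by positivity)
      have hε1 : ε < 1 := lt_of_le_of_lt (min_le_left _ _) (by norm_num)
      have hε2 : ε ≤ (-(2 * Q) - c) / (4 * Q) := min_le_right _ _
      rw [le_div_iff₀ (by positivity)] at hε2
      filter_upwards [key ε hε0 hε1] with β hβ
      refine lt_of_lt_of_le ?_ hβ.2.1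
      nlinarith
    · intro c hc
      have h1 : 0 < c + 2 * Q := by linarith
      set ε := min (1 / 2) ((c + 2 * Q) / (4 * Q)) with hε
      have hε0 : 0 < ε := lt_min (by norm_num) (by positivity)
      have hε1 : ε < 1 := lt_of_le_of_lt (min_le_left _ _) (by norm_num)
      have hε2 : ε ≤ (c + 2 * Q) / (4 * Q) := min_le_right _ _
      rw [le_div_iff₀ (by positivity)] at hε2
      filter_upwards [key ε hε0 hε1] with β hβ
      refine lt_of_le_of_lt hβ.2.2 ?_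
      nlinarith

/-- the partition function as a sum over paths -/
theorem W_path (β : ℝ) (N : ℕ) (w : ℕ → V → ℝ) : W β N w 0 =
    ((4 : ℝ) ^ N)⁻¹ * ∑ τ : Fin N → Fin 4, Real.exp (∑ n ∈ Finset.Icc 1 N, (β * w (n - 1) (pos τ n) - β ^ 2 / 2)) := by
  show K N (wt β w) (fun _ => 1) 0 = _
  rw [Pool.Agent.H187.DP.t_SIZE.1, div_eq_inv_mul]
  congr 1
  refine Finset.sum_congr rfl fun τ _ => ?_
  rw [mul_one]
  unfold wt
  rw [← Real.exp_sum]
  congr 1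
  have h1 : Finset.Icc 1 N = (Finset.range N).map ⟨fun i => i + 1, add_left_injective 1⟩ := by
    ext n
    simp only [Finset.mem_Icc, Finset.mem_map, Finset.mem_range, Function.Embedding.coeFn_mk]
    constructor
    · intro h
      exact ⟨n - 1, by omega, by omega⟩
    · rintro ⟨i, hi, rfl⟩
      omega
  rw [h1, Finset.sum_map, Finset.sum_range]
  refine Finset.sum_congr rfl fun i _ => ?_
  simp only [Function.Embedding.coeFn_mk, zero_add, Nat.add_sub_cancel]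

/-- sharp asymptotics in an arbitrary Gaussian environment on `ℤ × ℤ` -/
theorem sharp_env {a μ : ℝ} (ha : -1 < a) (hμ : 0 < μ) (hSup : Sup a μ) (hSub : Sub a μ)
    (h : V → ℝ) (hsym : ∀ x, h (-x) = h x)
    (hpsd : ∀ (s : Finset V) (a : V → ℝ), 0 ≤ ∑ x ∈ s, ∑ y ∈ s, a x * a y * h (x - y)) (h0 : h 0 = 1)
    (hh : Asym a h) (Ω : Type) [MeasurableSpace Ω] (P : Measure Ω) [IsProbabilityMeasure P] (ω : ℕ → V → Ω → ℝ)
    (hm : ∀ n x, Measurable (ω n x))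
    (hG : ∀ (s : Finset (ℕ × V)) (a : ℕ × V → ℝ), P.map (fun o => ∑ i ∈ s, a i * ω i.1 i.2 o) =
      gaussianReal 0 (Real.toNNReal (∑ i ∈ s, ∑ j ∈ s, a i * a j * (if i.1 = j.1 then h (i.2 - j.2) else 0))))
    (p : ℝ → ℝ)
    (hp : ∀ β : ℝ, 0 < β → ∀ᵐ o ∂P, Tendsto (fun N : ℕ => Real.log (((4 : ℝ) ^ N)⁻¹ *
      ∑ τ : Fin N → Fin 4, Real.exp (∑ n ∈ Finset.Icc 1 N, (β * ω n (pos τ n) o - β ^ 2 / 2))) / N) atTop (nhds (p β))) :
    (∀ᶠ β in 𝓝[>] (0 : ℝ), p β < 0) ∧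
    Tendsto (fun β : ℝ => β ^ (2 / (a + 2)) * Real.log (-p β)) (𝓝[>] 0) (𝓝 (-(2 * (μ / 2) ^ (1 / (a + 2))))) := by
  obtain ⟨γ, hγ, hmap⟩ := Pool.Agent.H935.DP.t_TRANS.1 h hsym hpsd h0 Ω P ω hm hG
  refine sharp ha hμ hSup hSub hγ hh p fun β hβ => ?_
  have hX : Measurable (fun (o : Ω) (k : ℕ) (y : V) => ω (k + 1) y o) :=
    measurable_pi_lambda _ fun k => measurable_pi_lambda _ fun y => hm (k + 1) y
  rw [← hmap, ae_map_iff hX.aemeasurable]
  · filter_upwards [hp β hβ] with o ho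
    refine ho.congr fun N => ?_
    rw [W_path]
    congr 3
    refine Finset.sum_congr rfl fun τ _ => ?_
    congr 1
    refine Finset.sum_congr rfl fun n hn => ?_
    rw [Finset.mem_Icc] at hn
    rw [Nat.sub_add_cancel hn.1]
  · refine measurableSet_tendsto (nhds (p β)) fun N => ?_
    refine Measurable.div_const (Real.measurable_log.comp ?_) _
    have h1 : (fun w : ℕ → V → ℝ => W β N w 0) = fun w => ((4 : ℝ) ^ N)⁻¹ * ∑ τ : Fin N → Fin 4,
        Real.exp (∑ n ∈ Finset.Icc 1 N, (β * w (n - 1) (pos τ n) - β ^ 2 / 2)) := by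
      funext w
      exact W_path β N w
    rw [h1]
    refine Measurable.const_mul (Finset.measurable_sum _ fun τ _ => Real.measurable_exp.comp
      (Finset.measurable_sum _ fun n _ => ?_)) _
    have h2 : Measurable (fun w : ℕ → V → ℝ => w (n - 1) (pos τ n)) :=
      (measurable_pi_apply (pos τ n)).comp (measurable_pi_apply (n - 1))
    exact (h2.const_mul β).sub_const _

end Pool.Agent.H964.DP
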