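import Pool.Agent.H964.DP.Tail

/-! # Project DP: the mean number of chains along the spine -/

set_option autoImplicit false

open MeasureTheory ProbabilityTheory Filter Finset

namespace Pool.Agent.H964.DP

/-- chains with the spine integrated out: chain walker `x` (killed where `d = 0`), spine walker `y` -/
noncomputable def G2 (d f : V → ℝ) : ℕ → ℕ → V → V → ℝ
  | 0, k, _, _ => if k = 0 then 1 else 0
  | n + 1, k, x, y => avg (fun y' => avg (fun x' => d x' * (G2 d f n k x' y' +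
      f (x' - y') * (if k = 0 then 0 else G2 d f n (k - 1) x' y'))) x) y

/-- the same without killing, as a function of the difference -/
noncomputable def Gr (f : V → ℝ) : ℕ → ℕ → V → ℝ
  | 0, k, _ => if k = 0 then 1 else 0
  | n + 1, k, r => avg (avg (fun r' => Gr f n k r' + f r' * (if k = 0 then 0 else Gr f n (k - 1) r'))) r

/-- averaging chains along the spine, from the start of the path -/
theorem Ep_Ch0 (d f : V → ℝ) (c : ℝ) : ∀ (u n : ℕ) (_ : u ≤ n) (k : ℕ) (x y : V),
    Ep n (fun τ => Ch d u (fun i z => c * f (z - (y + pos τ (i + 1)))) k x) = G2 d (fun z => c * f z) u k x y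
  | 0, n, _, k, x, y => by
    show Ep n (fun _ => if k = 0 then (1 : ℝ) else 0) = if k = 0 then 1 else 0
    rw [Ep_const]
  | u + 1, n, hn, k, x, y => by
    obtain ⟨n', rfl⟩ : ∃ n', n = n' + 1 := ⟨n - 1, by omega⟩
    rw [Ep_succ]
    have ih := fun k x y => Ep_Ch0 d f c u n' (by omega) k x y
    show (∑ e : Fin 4, _) / 4 = (∑ e : Fin 4, _) / 4
    congr 1
    refine Finset.sum_congr rfl fun e _ => ?_
    have h1 : ∀ (τ : Fin n' → Fin 4) (k : ℕ) (x' : V), Ch d u (fun i z => c * f (z - (y +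
        pos (Fin.cons e τ : Fin (n' + 1) → Fin 4) (i + 1 + 1)))) k x' =
        Ch d u (fun i z => c * f (z - (y + stp e + pos τ (i + 1)))) k x' := by
      intro τ k x'
      have : (fun (i : ℕ) (z : V) => c * f (z - (y + pos (Fin.cons e τ : Fin (n' + 1) → Fin 4) (i + 1 + 1)))) =
          fun i z => c * f (z - (y + stp e + pos τ (i + 1))) := by
        funext i z
        rw [pos_cons, add_assoc]
      rw [this]
    have h2 : ∀ τ : Fin n' → Fin 4, pos (Fin.cons e τ : Fin (n' + 1) → Fin 4) (0 + 1) = stp e := by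
      intro τ
      rw [pos_cons, pos_zero, add_zero]
    have h3 : ∀ τ : Fin n' → Fin 4, Ch d (u + 1) (fun i z => c * f (z - (y +
        pos (Fin.cons e τ : Fin (n' + 1) → Fin 4) (i + 1)))) k x =
        avg (fun x' => d x' * (Ch d u (fun i z => c * f (z - (y + stp e + pos τ (i + 1)))) k x' +
          c * f (x' - (y + stp e)) * (if k = 0 then 0 else
            Ch d u (fun i z => c * f (z - (y + stp e + pos τ (i + 1)))) (k - 1) x'))) x := by
      intro τ
      show avg (fun x' => d x' * (Ch d u (fun i z => c * f (z - (y +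
        pos (Fin.cons e τ : Fin (n' + 1) → Fin 4) (i + 1 + 1)))) k x' +
          c * f (x' - (y + pos (Fin.cons e τ : Fin (n' + 1) → Fin 4) (0 + 1))) * (if k = 0 then 0 else
            Ch d u (fun i z => c * f (z - (y + pos (Fin.cons e τ : Fin (n' + 1) → Fin 4) (i + 1 + 1))))
              (k - 1) x'))) x = _
      simp only [h1, h2]
    simp only [h3]
    unfold avg
    have h4 : ∀ G : Fin 4 → (Fin n' → Fin 4) → ℝ, Ep n' (fun τ => (∑ e' : Fin 4, G e' τ) / 4) =
        (∑ e' : Fin 4, Ep n' (G e')) / 4 := by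
      intro G
      have : (fun τ => (∑ e' : Fin 4, G e' τ) / 4) = fun τ => (1 / 4) * ∑ e' : Fin 4, G e' τ := by
        funext τ; ring
      rw [this, Ep_mul, Ep_sum]
      ring
    rw [h4]
    congr 1
    refine Finset.sum_congr rfl fun e' _ => ?_
    rw [Ep_mul, Ep_add]
    congr 1
    rw [ih]
    congr 1
    by_cases hk : k = 0
    · simp only [hk, if_true, mul_zero]
      exact Ep_const n' 0
    · simp only [hk, if_false]
      rw [Ep_mul, ih]

/-- averaging chains along the spine, after time `a` -/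
theorem Ep_Ch (d f : V → ℝ) (c : ℝ) : ∀ (a u n : ℕ) (_ : a + u ≤ n) (k : ℕ) (x : V),
    Ep n (fun τ => Ch d u (fun i z => c * f (z - (pos τ (a + 1 + i) - pos τ a))) k x) =
      G2 d (fun z => c * f z) u k x 0
  | 0, u, n, h, k, x => by
    rw [← Ep_Ch0 d f c u n (by omega) k x 0]
    congr 1
    funext τ
    congr 1
    funext i z
    rw [pos_zero, sub_zero, zero_add, zero_add, add_comm 1 i]
  | a + 1, u, n, h, k, x => by
    obtain ⟨n', rfl⟩ : ∃ n', n = n' + 1 := ⟨n - 1, by omega⟩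
    rw [Ep_succ]
    have h1 : ∀ e : Fin 4, Ep n' (fun τ => Ch d u (fun i z => c * f (z -
        (pos (Fin.cons e τ : Fin (n' + 1) → Fin 4) (a + 1 + 1 + i) -
          pos (Fin.cons e τ : Fin (n' + 1) → Fin 4) (a + 1)))) k x) = G2 d (fun z => c * f z) u k x 0 := by
      intro e
      rw [← Ep_Ch d f c a u n' (by omega) k x]
      congr 1
      funext τ
      congr 1
      funext i z
      rw [add_right_comm (a + 1) 1 i, pos_diff_cons]
    simp only [h1]
    simp

theorem Gr_nonneg {f : V → ℝ} (hf : ∀ z, 0 ≤ f z) : ∀ (n k : ℕ) (r : V), 0 ≤ Gr f n k r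
  | 0, k, r => by
    show 0 ≤ (if k = 0 then (1 : ℝ) else 0)
    split_ifs <;> norm_num
  | n + 1, k, r => by
    refine avg_nonneg fun e => avg_nonneg fun e' => add_nonneg (Gr_nonneg hf n k _) (mul_nonneg (hf _) ?_)
    split_ifs
    · exact le_rfl
    · exact Gr_nonneg hf n (k - 1) _

theorem G2_nonneg {d f : V → ℝ} (hd : ∀ z, 0 ≤ d z) (hf : ∀ z, 0 ≤ f z) : ∀ (n k : ℕ) (x y : V), 0 ≤ G2 d f n k x y
  | 0, k, x, y => by
    show 0 ≤ (if k = 0 then (1 : ℝ) else 0)
    split_ifs <;> norm_num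
  | n + 1, k, x, y => by
    refine avg_nonneg fun e => avg_nonneg fun e' => mul_nonneg (hd _)
      (add_nonneg (G2_nonneg hd hf n k _ _) (mul_nonneg (hf _) ?_))
    split_ifs
    · exact le_rfl
    · exact G2_nonneg hd hf n (k - 1) _ _

theorem Gr_zero (f : V → ℝ) : ∀ (n : ℕ) (r : V), Gr f n 0 r = 1
  | 0, r => rfl
  | n + 1, r => by
    show avg (avg (fun r' => Gr f n 0 r' + f r' * (if (0 : ℕ) = 0 then 0 else Gr f n (0 - 1) r'))) r = 1
    have h1 : (fun r' => Gr f n 0 r' + f r' * (if (0 : ℕ) = 0 then 0 else Gr f n (0 - 1) r')) = fun _ => 1 := by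
      funext r'
      rw [Gr_zero f n r']
      simp
    have h2 : avg (fun _ : V => (1 : ℝ)) = fun _ => 1 := funext (avg_const 1)
    rw [h1, h2, avg_const]

/-- monotone in the number of steps -/
theorem Gr_le_succ {f : V → ℝ} (hf : ∀ z, 0 ≤ f z) : ∀ (n k : ℕ) (r : V), Gr f n k r ≤ Gr f (n + 1) k r
  | 0, k, r => by
    by_cases hk : k = 0
    · rw [hk, Gr_zero, Gr_zero]
    · show (if k = 0 then (1 : ℝ) else 0) ≤ _
      rw [if_neg hk]
      exact Gr_nonneg hf _ _ _
  | n + 1, k, r => by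
    have h1 : ∀ r', Gr f n k r' + f r' * (if k = 0 then 0 else Gr f n (k - 1) r') ≤
        Gr f (n + 1) k r' + f r' * (if k = 0 then 0 else Gr f (n + 1) (k - 1) r') := by
      intro r'
      refine add_le_add (Gr_le_succ hf n k r') (mul_le_mul_of_nonneg_left ?_ (hf r'))
      split_ifs
      · exact le_rfl
      · exact Gr_le_succ hf n (k - 1) r'
    exact avg_mono (fun y => avg_mono h1 y) r

theorem Gr_mono {f : V → ℝ} (hf : ∀ z, 0 ≤ f z) {n m : ℕ} (h : n ≤ m) (k : ℕ) (r : V) : Gr f n k r ≤ Gr f m k r := by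
  induction m, h using Nat.le_induction with
  | base => exact le_rfl
  | succ m _ ih => exact ih.trans (Gr_le_succ hf m k r)

theorem Pn_two (f : V → ℝ) (n : ℕ) (r : V) : avg (avg (Pn (2 * n) f)) r = Pn (2 * (n + 1)) f r := rfl

/-- the one-step lower bound -/
theorem Gr_step {f φ : V → ℝ} (hf : ∀ z, 0 ≤ f z) {κ : ℝ} (hκ : 0 < κ) (hφ0 : ∀ z, 0 ≤ φ z)
    (hφ : ∀ z, φ z ≤ avg (avg (fun y => (1 + κ * f y) * φ y)) z) {k n₀ : ℕ} {a : ℝ} (ha : 0 ≤ a)
    (hk : ∀ r, φ r - a ≤ κ ^ k * Gr f n₀ k r) : ∀ (j : ℕ) (r : V),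
    φ r - Pn (2 * j) φ r - a * (κ * ∑ i ∈ range j, Pn (2 * (i + 1)) f r) ≤ κ ^ (k + 1) * Gr f (n₀ + j) (k + 1) r
  | 0, r => by
    have : 0 ≤ κ ^ (k + 1) * Gr f (n₀ + 0) (k + 1) r := mul_nonneg (by positivity) (Gr_nonneg hf _ _ _)
    have h1 : Pn (2 * 0) φ r = φ r := rfl
    rw [h1]
    simpa using this
  | j + 1, r => by
    have ih := Gr_step hf hκ hφ0 hφ ha hk j
    have h1 : κ ^ (k + 1) * Gr f (n₀ + (j + 1)) (k + 1) r = avg (avg (fun r' =>
        κ ^ (k + 1) * Gr f (n₀ + j) (k + 1) r' + (κ * f r') * (κ ^ k * Gr f (n₀ + j) k r'))) r := by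
      show κ ^ (k + 1) * avg (avg (fun r' => Gr f (n₀ + j) (k + 1) r' +
        f r' * (if k + 1 = 0 then 0 else Gr f (n₀ + j) (k + 1 - 1) r'))) r = _
      rw [← avg_mul]
      congr 1
      funext y
      rw [← avg_mul]
      congr 1
      funext y
      rw [if_neg (Nat.succ_ne_zero k), Nat.add_sub_cancel]
      ring
    have h2 : ∀ r', (1 + κ * f r') * φ r' - Pn (2 * j) φ r' - a * (κ * ∑ i ∈ range j, Pn (2 * (i + 1)) f r') -
        a * (κ * f r') ≤ κ ^ (k + 1) * Gr f (n₀ + j) (k + 1) r' + (κ * f r') * (κ ^ k * Gr f (n₀ + j) k r') := by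
      intro r'
      have h3 := ih r'
      have h4 : φ r' - a ≤ κ ^ k * Gr f (n₀ + j) k r' :=
        (hk r').trans (mul_le_mul_of_nonneg_left (Gr_mono hf (Nat.le_add_right _ _) _ _) (by positivity))
      have h5 := mul_le_mul_of_nonneg_left h4 (mul_nonneg hκ.le (hf r'))
      linarith
    rw [h1]
    refine le_trans ?_ (avg_mono (fun y => avg_mono h2 y) r)
    have h6 : ∀ y, avg (fun r' => (1 + κ * f r') * φ r' - Pn (2 * j) φ r' -
        a * (κ * ∑ i ∈ range j, Pn (2 * (i + 1)) f r') - a * (κ * f r')) y =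
        avg (fun r' => (1 + κ * f r') * φ r') y - avg (Pn (2 * j) φ) y -
        a * (κ * ∑ i ∈ range j, avg (Pn (2 * (i + 1)) f) y) - a * (κ * avg f y) := by
      intro y
      rw [avg_sub, avg_sub, avg_sub, avg_mul, avg_mul, avg_sum, avg_mul, avg_mul]
    have h7 : avg (fun y => avg (fun r' => (1 + κ * f r') * φ r') y - avg (Pn (2 * j) φ) y -
        a * (κ * ∑ i ∈ range j, avg (Pn (2 * (i + 1)) f) y) - a * (κ * avg f y)) r =
        avg (avg (fun r' => (1 + κ * f r') * φ r')) r - avg (avg (Pn (2 * j) φ)) r -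
        a * (κ * ∑ i ∈ range j, avg (avg (Pn (2 * (i + 1)) f)) r) - a * (κ * avg (avg f) r) := by
      rw [avg_sub, avg_sub, avg_sub, avg_mul, avg_mul, avg_sum, avg_mul, avg_mul]
    have h8 : avg (avg (fun r' => (1 + κ * f r') * φ r' - Pn (2 * j) φ r' -
        a * (κ * ∑ i ∈ range j, Pn (2 * (i + 1)) f r') - a * (κ * f r'))) r =
        avg (fun y => avg (fun r' => (1 + κ * f r') * φ r') y - avg (Pn (2 * j) φ) y -
        a * (κ * ∑ i ∈ range j, avg (Pn (2 * (i + 1)) f) y) - a * (κ * avg f y)) r := by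
      congr 1
      funext y
      exact h6 y
    rw [h8, h7]
    have h9 := hφ r
    have h10 : ∑ i ∈ range (j + 1), Pn (2 * (i + 1)) f r =
        avg (avg f) r + ∑ i ∈ range j, avg (avg (Pn (2 * (i + 1)) f)) r := by
      rw [Finset.sum_range_succ']
      rw [add_comm]
      rfl
    rw [h10]
    have h11 : avg (avg (Pn (2 * j) φ)) r = Pn (2 * (j + 1)) φ r := rfl
    rw [h11]
    linarith

/-- iteration -/
theorem Gr_low {f φ : V → ℝ} (hf : ∀ z, 0 ≤ f z) {κ : ℝ} (hκ : 0 < κ) (hφ0 : ∀ z, 0 ≤ φ z) (hφ1 : ∀ z, φ z ≤ 1)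
    (hφ : ∀ z, φ z ≤ avg (avg (fun y => (1 + κ * f y) * φ y)) z) {n' : ℕ} {η G : ℝ} (hη0 : 0 ≤ η) (hG1 : 1 ≤ G)
    (hη : ∀ r, Pn (2 * n') φ r ≤ η) (hG : ∀ r, κ * ∑ i ∈ range n', Pn (2 * (i + 1)) f r ≤ G) : ∀ (k : ℕ) (r : V),
    φ r - η * (k * G ^ k) ≤ κ ^ k * Gr f (k * n') k r
  | 0, r => by
    rw [Nat.cast_zero, zero_mul, mul_zero, sub_zero, pow_zero, one_mul, Gr_zero]
    exact hφ1 r
  | k + 1, r => by
    have ih := Gr_low hf hκ hφ0 hφ1 hφ hη0 hG1 hη hG k
    have ha : 0 ≤ η * (k * G ^ k) := by positivity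
    have h1 := Gr_step hf hκ hφ0 hφ ha ih n' r
    have h2 : (k + 1) * n' = k * n' + n' := by ring
    rw [h2]
    refine le_trans ?_ h1
    have h3 := hη r
    have h4 := mul_le_mul_of_nonneg_left (hG r) ha
    have h5 : η + η * (k * G ^ k) * G ≤ η * ((k + 1 : ℕ) * G ^ (k + 1)) := by
      have h6 : 1 ≤ G ^ (k + 1) := one_le_pow₀ hG1
      have h7 : η * ((k + 1 : ℕ) * G ^ (k + 1)) = η * G ^ (k + 1) + η * (k * G ^ k) * G := by
        push_cast
        ring
      rw [h7]
      have := mul_le_mul_of_nonneg_left h6 hη0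
      linarith
    linarith

/-- crude bound -/
theorem Gr_le {f : V → ℝ} (hf : ∀ z, 0 ≤ f z) {H : ℝ} (hH : ∀ z, f z ≤ H) : ∀ (n k : ℕ) (r : V),
    Gr f n k r ≤ (1 + H) ^ k * ((n : ℝ) + 1) ^ k
  | 0, k, r => by
    have hH0 : 0 ≤ H := (hf 0).trans (hH 0)
    show (if k = 0 then (1 : ℝ) else 0) ≤ _
    by_cases hk : k = 0
    · rw [if_pos hk, hk]; simp
    · rw [if_neg hk]; positivity
  | n + 1, k, r => by
    have hH0 : 0 ≤ H := (hf 0).trans (hH 0)
    have h1 : ∀ r', Gr f n k r' + f r' * (if k = 0 then 0 else Gr f n (k - 1) r') ≤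
        (1 + H) ^ k * (((n + 1 : ℕ) : ℝ) + 1) ^ k := by
      intro r'
      have ih := Gr_le hf hH n
      by_cases hk : k = 0
      · rw [hk]
        have := ih 0 r'
        simpa using this
      · obtain ⟨j, rfl⟩ : ∃ j, k = j + 1 := ⟨k - 1, by omega⟩
        rw [if_neg hk, Nat.add_sub_cancel]
        have h2 := ih (j + 1) r'
        have h3 := ih j r'
        have h4 : f r' * Gr f n j r' ≤ H * ((1 + H) ^ j * ((n : ℝ) + 1) ^ j) :=
          mul_le_mul (hH r') h3 (Gr_nonneg hf _ _ _) hH0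
        have h5 : ((n : ℝ) + 1) ^ (j + 1) + ((n : ℝ) + 1) ^ j ≤ (((n + 1 : ℕ) : ℝ) + 1) ^ (j + 1) := by
          have h6 : ((n : ℝ) + 1) ^ j ≤ (((n + 1 : ℕ) : ℝ) + 1) ^ j :=
            pow_le_pow_left₀ (by positivity) (by push_cast; linarith) j
          calc ((n : ℝ) + 1) ^ (j + 1) + ((n : ℝ) + 1) ^ j = ((n : ℝ) + 1) ^ j * (((n + 1 : ℕ) : ℝ) + 1) := by
                push_cast; ring
            _ ≤ (((n + 1 : ℕ) : ℝ) + 1) ^ j * (((n + 1 : ℕ) : ℝ) + 1) :=
                mul_le_mul_of_nonneg_right h6 (by positivity)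
            _ = _ := by ring
        calc _ ≤ (1 + H) ^ (j + 1) * ((n : ℝ) + 1) ^ (j + 1) + H * ((1 + H) ^ j * ((n : ℝ) + 1) ^ j) :=
              add_le_add h2 h4
          _ ≤ (1 + H) ^ (j + 1) * ((n : ℝ) + 1) ^ (j + 1) + (1 + H) ^ (j + 1) * ((n : ℝ) + 1) ^ j := by
              have h7 : H * (1 + H) ^ j ≤ (1 + H) ^ (j + 1) := by
                rw [pow_succ']
                exact mul_le_mul_of_nonneg_right (by linarith) (by positivity)
              have h8 := mul_le_mul_of_nonneg_right h7 (by positivity : (0 : ℝ) ≤ ((n : ℝ) + 1) ^ j)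
              linarith
          _ = (1 + H) ^ (j + 1) * (((n : ℝ) + 1) ^ (j + 1) + ((n : ℝ) + 1) ^ j) := by ring
          _ ≤ _ := mul_le_mul_of_nonneg_left h5 (by positivity)
    have h2 : avg (avg (fun r' => Gr f n k r' + f r' * (if k = 0 then 0 else Gr f n (k - 1) r'))) r ≤
        avg (avg (fun _ => (1 + H) ^ k * (((n + 1 : ℕ) : ℝ) + 1) ^ k)) r :=
      avg_mono (fun y => avg_mono h1 y) r
    have h3 : avg (fun _ : V => (1 + H) ^ k * (((n + 1 : ℕ) : ℝ) + 1) ^ k) = fun _ =>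
      (1 + H) ^ k * (((n + 1 : ℕ) : ℝ) + 1) ^ k := funext (avg_const _)
    rw [h3, avg_const] at h2
    exact h2

/-- the effect of the killing -/
theorem G2_low {d f : V → ℝ} (hd : ∀ z, d z = 0 ∨ d z = 1) (hf : ∀ z, 0 ≤ f z) {H : ℝ} (hH : ∀ z, f z ≤ H)
    {θ r : ℝ} (hw : ∀ x, d x = 0 → 1 ≤ wf θ r 0 x) {N q : ℕ} {G : ℝ}
    (hG : ∀ n ≤ N, ∀ k ≤ q, ∀ z, Gr f n k z ≤ G) : ∀ (n : ℕ) (_ : n ≤ N) (k : ℕ) (_ : k ≤ q) (x y : V),
    Gr f n k (x - y) - G2 d f n k x y ≤ G * ((1 + H) * ((n : ℝ) + 1)) ^ (k + 1) * wf θ r n x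
  | 0, _, k, _, x, y => by
    have hH0 : 0 ≤ H := (hf 0).trans (hH 0)
    have hG0 : 0 ≤ G := (Gr_nonneg hf 0 0 0).trans (hG 0 (Nat.zero_le _) 0 (Nat.zero_le _) 0)
    have h1 : Gr f 0 k (x - y) - G2 d f 0 k x y = 0 := sub_self _
    rw [h1]
    have := wf_nonneg θ r 0 x
    positivity
  | n + 1, hn, k, hk, x, y => by
    have hH0 : 0 ≤ H := (hf 0).trans (hH 0)
    have hG0 : 0 ≤ G := (Gr_nonneg hf 0 0 0).trans (hG 0 (Nat.zero_le _) 0 (Nat.zero_le _) 0)
    have ih := fun k hk x y => G2_low hd hf hH hw hG n (by omega) k hk x y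
    have hwn : ∀ x, d x = 0 → 1 ≤ wf θ r n x := by
      intro x hx
      refine (hw x hx).trans ?_
      unfold wf
      rw [pow_zero, mul_one]
      have h1 : 1 ≤ Real.exp (θ ^ 2 / 2) ^ n := one_le_pow₀ (Real.one_le_exp (by positivity))
      have c1 := Real.cosh_pos (θ * x.1)
      have c2 := Real.cosh_pos (θ * x.2)
      refine mul_le_mul_of_nonneg_right ?_ (by positivity)
      exact le_mul_of_one_le_right (by positivity) h1
    -- the unkilled recursion in two variables
    have h1 : Gr f (n + 1) k (x - y) = avg (fun y' => avg (fun x' => Gr f n k (x' - y') +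
        f (x' - y') * (if k = 0 then 0 else Gr f n (k - 1) (x' - y'))) x) y := by
      rw [← avg_comm (fun x' y' => Gr f n k (x' - y') +
        f (x' - y') * (if k = 0 then 0 else Gr f n (k - 1) (x' - y')))]
      exact (avg_two (fun r' => Gr f n k r' + f r' * (if k = 0 then 0 else Gr f n (k - 1) r')) x y).symm
    have h2 : G2 d f (n + 1) k x y = avg (fun y' => avg (fun x' => d x' * (G2 d f n k x' y' +
      f (x' - y') * (if k = 0 then 0 else G2 d f n (k - 1) x' y'))) x) y := rfl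
    rw [h1, h2, ← avg_sub]
    set Q : ℝ := G * ((1 + H) * (((n + 1 : ℕ) : ℝ) + 1)) ^ (k + 1) with hQ
    have h3 : ∀ x' y' : V, (Gr f n k (x' - y') + f (x' - y') * (if k = 0 then 0 else Gr f n (k - 1) (x' - y'))) -
        d x' * (G2 d f n k x' y' + f (x' - y') * (if k = 0 then 0 else G2 d f n (k - 1) x' y')) ≤
        Q * wf θ r n x' := by
      intro x' y'
      have hwf := wf_nonneg θ r n x'
      have hnn : ((n : ℝ) + 1) ≤ ((n + 1 : ℕ) : ℝ) + 1 := by push_cast; linarith
      rcases hd x' with h0 | h0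
      · rw [h0, zero_mul, sub_zero]
        have h4 : Gr f n k (x' - y') + f (x' - y') * (if k = 0 then 0 else Gr f n (k - 1) (x' - y')) ≤ G * (1 + H) := by
          have h5 := hG n (by omega) k hk (x' - y')
          have h6 : f (x' - y') * (if k = 0 then 0 else Gr f n (k - 1) (x' - y')) ≤ H * G := by
            refine mul_le_mul (hH _) ?_ ?_ hH0
            · split_ifs
              · exact hG0
              · exact hG n (by omega) (k - 1) (by omega) _
            · split_ifs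
              · exact le_rfl
              · exact Gr_nonneg hf _ _ _
          linarith
        have h7 : G * (1 + H) ≤ Q := by
          rw [hQ, mul_pow]
          have h8 : (1 + H) ≤ (1 + H) ^ (k + 1) := le_self_pow₀ (by linarith) (Nat.succ_ne_zero k)
          have h9 : (1 : ℝ) ≤ (((n + 1 : ℕ) : ℝ) + 1) ^ (k + 1) := one_le_pow₀ (by push_cast; linarith)
          calc G * (1 + H) = G * ((1 + H) * 1) := by ring
            _ ≤ G * ((1 + H) ^ (k + 1) * (((n + 1 : ℕ) : ℝ) + 1) ^ (k + 1)) :=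
              mul_le_mul_of_nonneg_left (mul_le_mul h8 h9 zero_le_one (by positivity)) hG0
        calc _ ≤ G * (1 + H) := h4
          _ ≤ Q * 1 := by rw [mul_one]; exact h7
          _ ≤ Q * wf θ r n x' := mul_le_mul_of_nonneg_left (hwn x' h0) (by positivity)
      · rw [h0, one_mul]
        have h4 := ih k hk x' y'
        by_cases hk0 : k = 0
        · simp only [hk0, if_true, mul_zero, add_zero]
          rw [hk0] at h4
          refine h4.trans (mul_le_mul_of_nonneg_right ?_ hwf)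
          rw [hQ, hk0]
          refine mul_le_mul_of_nonneg_left ?_ hG0
          exact pow_le_pow_left₀ (by positivity) (mul_le_mul_of_nonneg_left hnn (by linarith)) _
        · obtain ⟨j, rfl⟩ : ∃ j, k = j + 1 := ⟨k - 1, by omega⟩
          simp only [hk0, if_false, Nat.add_sub_cancel]
          have h5 := ih j (by omega) x' y'
          have h6 : f (x' - y') * (Gr f n j (x' - y') - G2 d f n j x' y') ≤
              H * (G * ((1 + H) * ((n : ℝ) + 1)) ^ (j + 1) * wf θ r n x') := by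
            have h7 : 0 ≤ G * ((1 + H) * ((n : ℝ) + 1)) ^ (j + 1) * wf θ r n x' := by positivity
            exact (mul_le_mul_of_nonneg_left h5 (hf _)).trans (mul_le_mul_of_nonneg_right (hH _) h7)
          have h8 : G * ((1 + H) * ((n : ℝ) + 1)) ^ (j + 1 + 1) * wf θ r n x' +
              H * (G * ((1 + H) * ((n : ℝ) + 1)) ^ (j + 1) * wf θ r n x') ≤ Q * wf θ r n x' := by
            have h9 : ((1 + H) * ((n : ℝ) + 1)) ^ (j + 1 + 1) + H * ((1 + H) * ((n : ℝ) + 1)) ^ (j + 1) ≤
                ((1 + H) * (((n + 1 : ℕ) : ℝ) + 1)) ^ (j + 1 + 1) := by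
              have h10 : ((1 + H) * ((n : ℝ) + 1)) ^ (j + 1) ≤ ((1 + H) * (((n + 1 : ℕ) : ℝ) + 1)) ^ (j + 1) :=
                pow_le_pow_left₀ (by positivity) (mul_le_mul_of_nonneg_left hnn (by linarith)) _
              calc _ = ((1 + H) * ((n : ℝ) + 1)) ^ (j + 1) * ((1 + H) * ((n : ℝ) + 1) + H) := by ring
                _ ≤ ((1 + H) * (((n + 1 : ℕ) : ℝ) + 1)) ^ (j + 1) * ((1 + H) * (((n + 1 : ℕ) : ℝ) + 1)) := by
                  refine mul_le_mul h10 ?_ (by positivity) (by positivity)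
                  push_cast
                  linarith
                _ = _ := by ring
            rw [hQ]
            calc _ = G * (((1 + H) * ((n : ℝ) + 1)) ^ (j + 1 + 1) + H * ((1 + H) * ((n : ℝ) + 1)) ^ (j + 1)) *
                wf θ r n x' := by ring
              _ ≤ _ := mul_le_mul_of_nonneg_right (mul_le_mul_of_nonneg_left h9 hG0) hwf
          linarith
    have h4 : ∀ y' : V, avg (fun x' => Gr f n k (x' - y') +
        f (x' - y') * (if k = 0 then 0 else Gr f n (k - 1) (x' - y'))) x -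
        avg (fun x' => d x' * (G2 d f n k x' y' + f (x' - y') * (if k = 0 then 0 else G2 d f n (k - 1) x' y'))) x ≤
        Q * wf θ r (n + 1) x := by
      intro y'
      rw [← avg_sub]
      refine (avg_mono (fun x' => h3 x' y') x).trans ?_
      have h5 : avg (fun x' => Q * wf θ r n x') x = Q * avg (wf θ r n) x := avg_mul Q (wf θ r n) x
      rw [h5]
      exact mul_le_mul_of_nonneg_left (wf_avg θ r n x) (by positivity)
    have h5 := avg_mono h4 y
    rwa [avg_const] at h5

end Pool.Agent.H964.DP
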