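import Pool.Agent.H964.DP.Bas

/-! # Project DP: exit probabilities -/

set_option autoImplicit false

open MeasureTheory ProbabilityTheory Filter Finset

namespace Pool.Agent.H964.DP

/-- the function bounding exit probabilities -/
noncomputable def wf (θ r : ℝ) (n : ℕ) (x : V) : ℝ :=
  2 * Real.exp (-(θ * r)) * Real.exp (θ ^ 2 / 2) ^ n * (Real.cosh (θ * x.1) + Real.cosh (θ * x.2))

theorem wf_nonneg (θ r : ℝ) (n : ℕ) (x : V) : 0 ≤ wf θ r n x := by
  unfold wf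
  have := Real.cosh_pos (θ * x.1)
  have := Real.cosh_pos (θ * x.2)
  positivity

theorem avg_cosh1 (θ : ℝ) (x : V) : avg (fun y : V => Real.cosh (θ * y.1)) x ≤
    Real.exp (θ ^ 2 / 2) * Real.cosh (θ * x.1) := by
  rw [avg_def4]
  push_cast
  have h1 : θ * ((x.1 : ℝ) + 1) = θ * x.1 + θ := by ring
  have h2 : θ * ((x.1 : ℝ) - 1) = θ * x.1 - θ := by ring
  simp only [h1, h2, Real.cosh_add, Real.cosh_sub]
  have h3 := Real.cosh_le_exp_half_sq θ
  have h4 := Real.one_le_cosh θ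
  have h5 := Real.cosh_pos (θ * x.1)
  nlinarith [mul_le_mul_of_nonneg_right h3 h5.le, mul_le_mul_of_nonneg_right h4 h5.le]

theorem avg_cosh2 (θ : ℝ) (x : V) : avg (fun y : V => Real.cosh (θ * y.2)) x ≤
    Real.exp (θ ^ 2 / 2) * Real.cosh (θ * x.2) := by
  rw [avg_def4]
  push_cast
  have h1 : θ * ((x.2 : ℝ) + 1) = θ * x.2 + θ := by ring
  have h2 : θ * ((x.2 : ℝ) - 1) = θ * x.2 - θ := by ring
  simp only [h1, h2, Real.cosh_add, Real.cosh_sub]
  have h3 := Real.cosh_le_exp_half_sq θ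
  have h4 := Real.one_le_cosh θ
  have h5 := Real.cosh_pos (θ * x.2)
  nlinarith [mul_le_mul_of_nonneg_right h3 h5.le, mul_le_mul_of_nonneg_right h4 h5.le]

theorem wf_avg (θ r : ℝ) (n : ℕ) (x : V) : avg (wf θ r n) x ≤ wf θ r (n + 1) x := by
  have h1 : wf θ r n = fun y : V => 2 * Real.exp (-(θ * r)) * Real.exp (θ ^ 2 / 2) ^ n *
      (Real.cosh (θ * y.1) + Real.cosh (θ * y.2)) := rfl
  rw [h1, avg_mul, avg_add]
  have h2 := avg_cosh1 θ x
  have h3 := avg_cosh2 θ x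
  unfold wf
  rw [pow_succ]
  have h4 : 0 ≤ 2 * Real.exp (-(θ * r)) * Real.exp (θ ^ 2 / 2) ^ n := by positivity
  calc _ ≤ 2 * Real.exp (-(θ * r)) * Real.exp (θ ^ 2 / 2) ^ n *
      (Real.exp (θ ^ 2 / 2) * Real.cosh (θ * x.1) + Real.exp (θ ^ 2 / 2) * Real.cosh (θ * x.2)) :=
        mul_le_mul_of_nonneg_left (add_le_add h2 h3) h4
    _ = _ := by ring

theorem exp_le_two_cosh {θ r t : ℝ} (hθ : 0 ≤ θ) (h : r ≤ |t|) : Real.exp (θ * r) ≤ 2 * Real.cosh (θ * t) := by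
  have h1 : Real.cosh (θ * t) = Real.cosh (θ * |t|) := by
    rw [← Real.cosh_abs (θ * t), abs_mul, abs_of_nonneg hθ]
  rw [h1, Real.cosh_eq]
  have h2 : Real.exp (θ * r) ≤ Real.exp (θ * |t|) := Real.exp_le_exp.2 (mul_le_mul_of_nonneg_left h hθ)
  have h3 := Real.exp_pos (-(θ * |t|))
  linarith

theorem wf_out {θ r : ℝ} (hθ : 0 ≤ θ) (n : ℕ) {x : V} (h : r ≤ |(x.1 : ℝ)| ∨ r ≤ |(x.2 : ℝ)|) : 1 ≤ wf θ r n x := by
  unfold wf
  have h0 : 1 ≤ Real.exp (θ ^ 2 / 2) ^ n := one_le_pow₀ (Real.one_le_exp (by positivity))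
  have h1 : Real.exp (θ * r) ≤ 2 * (Real.cosh (θ * x.1) + Real.cosh (θ * x.2)) := by
    have c1 := Real.cosh_pos (θ * x.1)
    have c2 := Real.cosh_pos (θ * x.2)
    rcases h with h | h
    · have := exp_le_two_cosh hθ h
      linarith
    · have := exp_le_two_cosh hθ h
      linarith
  have h2 : Real.exp (-(θ * r)) * Real.exp (θ * r) = 1 := by
    rw [← Real.exp_add, neg_add_cancel, Real.exp_zero]
  have h3 := Real.exp_pos (-(θ * r))
  calc (1 : ℝ) = Real.exp (-(θ * r)) * Real.exp (θ * r) * 1 := by rw [h2, mul_one]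
    _ ≤ Real.exp (-(θ * r)) * (2 * (Real.cosh (θ * x.1) + Real.cosh (θ * x.2))) * Real.exp (θ ^ 2 / 2) ^ n := by
        have c1 := Real.cosh_pos (θ * x.1)
        have c2 := Real.cosh_pos (θ * x.2)
        exact mul_le_mul (mul_le_mul_of_nonneg_left h1 h3.le) h0 zero_le_one (by positivity)
    _ = _ := by ring

theorem wf_zero (θ r : ℝ) (n : ℕ) : wf θ r n 0 = 4 * Real.exp (-(θ * r) + n * (θ ^ 2 / 2)) := by
  have h1 : Real.cosh (θ * ((0 : V).1 : ℝ)) = 1 := by simp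
  have h2 : Real.cosh (θ * ((0 : V).2 : ℝ)) = 1 := by simp
  unfold wf
  rw [h1, h2, ← Real.exp_nat_mul, Real.exp_add]
  ring

/-! ### tails for the increments of a path -/

theorem pos_diff_cons {n : ℕ} (e : Fin 4) (τ : Fin n → Fin 4) (a b : ℕ) :
    pos (Fin.cons e τ : Fin (n + 1) → Fin 4) (b + 1) - pos (Fin.cons e τ : Fin (n + 1) → Fin 4) (a + 1) =
      pos τ b - pos τ a := by
  rw [pos_cons, pos_cons]
  abel

/-- steps bounding from the start -/
theorem Ep_wf0 (θ r : ℝ) : ∀ (b n : ℕ) (_ : b ≤ n) (x : V),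
    Ep n (fun τ => wf θ r 0 (x + pos τ b)) ≤ wf θ r b x
  | 0, n, _, x => by
    have h1 : (fun τ : Fin n → Fin 4 => wf θ r 0 (x + pos τ 0)) = fun _ => wf θ r 0 x := by
      funext τ
      rw [pos_zero, add_zero]
    rw [h1, Ep_const]
  | b + 1, n, hn, x => by
    obtain ⟨n', rfl⟩ : ∃ n', n = n' + 1 := ⟨n - 1, by omega⟩
    rw [Ep_succ]
    have h1 : ∀ e : Fin 4, Ep n' (fun τ => wf θ r 0 (x + pos (Fin.cons e τ : Fin (n' + 1) → Fin 4) (b + 1))) ≤
        wf θ r b (x + stp e) := by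
      intro e
      have h2 : (fun τ : Fin n' → Fin 4 => wf θ r 0 (x + pos (Fin.cons e τ : Fin (n' + 1) → Fin 4) (b + 1))) =
          fun τ => wf θ r 0 (x + stp e + pos τ b) := by
        funext τ
        rw [pos_cons, add_assoc]
      rw [h2]
      exact Ep_wf0 θ r b n' (by omega) (x + stp e)
    exact (div_le_div_of_nonneg_right (Finset.sum_le_sum fun e _ => h1 e) (by norm_num)).trans
      (wf_avg θ r b x)

theorem Ep_wf (θ r : ℝ) : ∀ (a b n : ℕ) (_ : a + b ≤ n),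
    Ep n (fun τ => wf θ r 0 (pos τ (a + b) - pos τ a)) ≤ wf θ r b 0
  | 0, b, n, h => by
    have h1 : (fun τ : Fin n → Fin 4 => wf θ r 0 (pos τ (0 + b) - pos τ 0)) =
        fun τ => wf θ r 0 (0 + pos τ b) := by
      funext τ
      rw [pos_zero, sub_zero, zero_add, zero_add]
    rw [h1]
    exact Ep_wf0 θ r b n (by omega) 0
  | a + 1, b, n, h => by
    obtain ⟨n', rfl⟩ : ∃ n', n = n' + 1 := ⟨n - 1, by omega⟩
    rw [Ep_succ]
    have h1 : ∀ e : Fin 4, Ep n' (fun τ => wf θ r 0 (pos (Fin.cons e τ : Fin (n' + 1) → Fin 4) (a + 1 + b) -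
        pos (Fin.cons e τ : Fin (n' + 1) → Fin 4) (a + 1))) ≤ wf θ r b 0 := by
      intro e
      have h2 : (fun τ : Fin n' → Fin 4 => wf θ r 0 (pos (Fin.cons e τ : Fin (n' + 1) → Fin 4) (a + 1 + b) -
          pos (Fin.cons e τ : Fin (n' + 1) → Fin 4) (a + 1))) =
          fun τ => wf θ r 0 (pos τ (a + b) - pos τ a) := by
        funext τ
        rw [add_right_comm, pos_diff_cons]
      rw [h2]
      exact Ep_wf θ r a b n' (by omega)
    have h2 : (∑ e : Fin 4, Ep n' (fun τ => wf θ r 0 (pos (Fin.cons e τ : Fin (n' + 1) → Fin 4) (a + 1 + b) -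
        pos (Fin.cons e τ : Fin (n' + 1) → Fin 4) (a + 1)))) ≤ ∑ _e : Fin 4, wf θ r b 0 :=
      Finset.sum_le_sum fun e _ => h1 e
    rw [Finset.sum_const, Finset.card_univ, Fintype.card_fin, nsmul_eq_mul] at h2
    rw [div_le_iff₀ (by norm_num)]
    calc _ ≤ _ := h2
      _ = _ := by push_cast; ring

/-- the sup norm of a point is at least `r` -/
def Out (r : ℝ) (x : V) : Prop := r ≤ |(x.1 : ℝ)| ∨ r ≤ |(x.2 : ℝ)|

/-- tail bound for the increment between the times `a` and `a + b` -/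
theorem tail_incr {θ r : ℝ} (hθ : 0 ≤ θ) (a b n : ℕ) (h : a + b ≤ n) [DecidablePred fun τ : Fin n → Fin 4 => Out r (pos τ (a + b) - pos τ a)] :
    Ep n (fun τ => if Out r (pos τ (a + b) - pos τ a) then 1 else 0) ≤
      4 * Real.exp (-(θ * r) + b * (θ ^ 2 / 2)) := by
  rw [← wf_zero]
  refine (Ep_mono fun τ => ?_).trans (Ep_wf θ r a b n h)
  split_ifs with h1
  · exact wf_out hθ 0 h1
  · exact wf_nonneg _ _ _ _

end Pool.Agent.H964.DP
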