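import Pool.Agent.H964.DP.Fin

/-! # Project DP: from `ℤ × ℤ` to `Fin 2 → ℤ` -/

set_option autoImplicit false

open MeasureTheory ProbabilityTheory Filter Finset Topology

namespace Pool.Agent.H964.DP

/-- coordinates -/
def em (x : V) : Fin 2 → ℤ := ![x.1, x.2]

theorem em_add (x y : V) : em (x + y) = em x + em y := by
  funext i
  fin_cases i <;> rfl

theorem em_sub (x y : V) : em (x - y) = em x - em y := by
  funext i
  fin_cases i <;> rfl

theorem em_neg (x : V) : em (-x) = -em x := by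
  funext i
  fin_cases i <;> rfl

theorem em_zero : em 0 = 0 := by
  funext i
  fin_cases i <;> rfl

theorem em_inj : Function.Injective em := by
  intro x y h
  have h0 := congrFun h 0
  have h1 := congrFun h 1
  exact Prod.ext h0 h1

theorem em_sum {ι : Type*} (s : Finset ι) (g : ι → V) : em (∑ i ∈ s, g i) = ∑ i ∈ s, em (g i) := by
  classical
  induction s using Finset.induction_on with
  | empty => rw [Finset.sum_empty, Finset.sum_empty, em_zero]
  | insert i s hi ih => rw [Finset.sum_insert hi, Finset.sum_insert hi, em_add, ih]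

theorem em_ns (x : V) : ∑ i : Fin 2, ((em x i : ℤ) : ℝ) ^ 2 = ns x := by
  rw [Fin.sum_univ_two]
  rfl

/-- the steps -/
def ps4 : Fin 4 → Fin 2 × Bool := ![(0, true), (0, false), (1, true), (1, false)]

theorem ps4_bij : Function.Bijective ps4 := by decide

theorem em_stp (e : Fin 4) : em (stp e) = (Pi.single (ps4 e).1 (if (ps4 e).2 then (1 : ℤ) else -1) : Fin 2 → ℤ) := by
  funext i
  fin_cases e <;> fin_cases i <;> rfl

theorem em_pos {N : ℕ} (τ : Fin N → Fin 4) (n : ℕ) : em (pos τ n) =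
    ∑ k ∈ univ.filter (fun k : Fin N => k.val < n),
      (Pi.single ((ps4 ∘ τ) k).1 (if ((ps4 ∘ τ) k).2 then (1 : ℤ) else -1) : Fin 2 → ℤ) := by
  unfold pos
  rw [em_sum]
  exact Finset.sum_congr rfl fun k _ => em_stp (τ k)

/-- embedding of the index set -/
def em2 : ℕ × V ↪ ℕ × (Fin 2 → ℤ) := ⟨fun i => (i.1, em i.2), by
  intro i j h
  have h1 := congrArg Prod.fst h
  have h2 := congrArg Prod.snd h
  exact Prod.ext h1 (em_inj h2)⟩

/-- sharp asymptotics in an arbitrary Gaussian environment on `Fin 2 → ℤ` -/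
theorem sharp_fin {a μ : ℝ} (ha : -1 < a) (hμ : 0 < μ) (hSup : Sup a μ) (hSub : Sub a μ)
    (h : (Fin 2 → ℤ) → ℝ) (hsym : ∀ x, h (-x) = h x)
    (hpsd : ∀ (s : Finset (Fin 2 → ℤ)) (a : (Fin 2 → ℤ) → ℝ), 0 ≤ ∑ x ∈ s, ∑ y ∈ s, a x * a y * h (x - y))
    (h0 : h 0 = 1)
    (hh : Tendsto (fun x : Fin 2 → ℤ => h x * (∑ i : Fin 2, (x i : ℝ) ^ 2) /
      Real.log (Real.sqrt (∑ i : Fin 2, (x i : ℝ) ^ 2)) ^ a) cofinite (nhds 1))
    (Ω : Type) [MeasurableSpace Ω] (P : Measure Ω) [IsProbabilityMeasure P] (ω : ℕ → (Fin 2 → ℤ) → Ω → ℝ)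
    (hm : ∀ n x, Measurable (ω n x))
    (hG : ∀ (s : Finset (ℕ × (Fin 2 → ℤ))) (a : ℕ × (Fin 2 → ℤ) → ℝ), P.map (fun o => ∑ i ∈ s, a i * ω i.1 i.2 o) =
      gaussianReal 0 (Real.toNNReal (∑ i ∈ s, ∑ j ∈ s, a i * a j * (if i.1 = j.1 then h (i.2 - j.2) else 0))))
    (p : ℝ → ℝ)
    (hp : ∀ β : ℝ, 0 < β → ∀ᵐ o ∂P, Tendsto (fun N : ℕ => Real.log (((4 : ℝ) ^ N)⁻¹ *
      ∑ σ : Fin N → Fin 2 × Bool, Real.exp (∑ n ∈ Finset.Icc 1 N, (β * ω n
        (∑ k ∈ univ.filter (fun k : Fin N => k.val < n),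
          (Pi.single (σ k).1 (if (σ k).2 then (1 : ℤ) else -1) : Fin 2 → ℤ)) o - β ^ 2 / 2))) / N) atTop (nhds (p β))) :
    (∀ᶠ β in 𝓝[>] (0 : ℝ), p β < 0) ∧
    Tendsto (fun β : ℝ => β ^ (2 / (a + 2)) * Real.log (-p β)) (𝓝[>] 0) (𝓝 (-(2 * (μ / 2) ^ (1 / (a + 2))))) := by
  refine sharp_env ha hμ hSup hSub (fun x => h (em x)) ?_ ?_ ?_ ?_ Ω P (fun n x => ω n (em x)) (fun n x => hm n (em x)) ?_ p ?_
  · intro x
    show h (em (-x)) = h (em x)
    rw [em_neg, hsym]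
  · intro s c
    have h1 := hpsd (s.map ⟨em, em_inj⟩) (fun y => c (y 0, y 1))
    rw [Finset.sum_map] at h1
    refine h1.trans (le_of_eq ?_)
    refine Finset.sum_congr rfl fun x _ => ?_
    rw [Finset.sum_map]
    refine Finset.sum_congr rfl fun y _ => ?_
    show c x * c y * h (em x - em y) = c x * c y * h (em (x - y))
    rw [em_sub]
  · show h (em 0) = 1
    rw [em_zero, h0]
  · unfold Asym
    refine (hh.comp em_inj.tendsto_cofinite).congr fun x => ?_
    show h (em x) * (∑ i : Fin 2, ((em x i : ℤ) : ℝ) ^ 2) / Real.log (Real.sqrt (∑ i : Fin 2, ((em x i : ℤ) : ℝ) ^ 2)) ^ a =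
      h (em x) * ns x / (Real.log (ns x) / 2) ^ a
    rw [em_ns, Real.log_sqrt (by unfold ns; positivity)]
  · intro s c
    have h1 := hG (s.map em2) (fun i => c (i.1, (i.2 0, i.2 1)))
    simp only [Finset.sum_map] at h1
    have e1 : (fun o => ∑ i ∈ s, c i * (fun n (x : V) => ω n (em x)) i.1 i.2 o) =
        fun o => ∑ x ∈ s, c ((em2 x).1, ((em2 x).2 0, (em2 x).2 1)) * ω (em2 x).1 (em2 x).2 o := rfl
    rw [e1, h1]
    congr 2
    refine Finset.sum_congr rfl fun i _ => Finset.sum_congr rfl fun j _ => ?_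
    show c i * c j * (if i.1 = j.1 then h (em i.2 - em j.2) else 0) = c i * c j * (if i.1 = j.1 then h (em (i.2 - j.2)) else 0)
    rw [em_sub]
  · intro β hβ
    filter_upwards [hp β hβ] with o ho
    refine ho.congr fun N => ?_
    congr 3
    refine (Fintype.sum_bijective (fun τ : Fin N → Fin 4 => ps4 ∘ τ) ps4_bij.comp_left _ _ fun τ => ?_).symm
    congr 1
    refine Finset.sum_congr rfl fun n _ => ?_
    rw [em_pos]

end Pool.Agent.H964.DP
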